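import Pool.Agent.H31R4.Alp.Defs
import Pool.Agent.H12R2.Sep.BlkSum

/-! Task A1: number of clusters: adding edges, circuits, cut off blocks. -/

set_option maxHeartbeats 400000

namespace H31A

open H974 H12S H973N Finset

theorem a1_insert_le {K : Finset Vtx} {B : Set Vtx} {F : Set Edg} {e : Edg}
    (hs : src e ∈ K) (ht : tgt e ∈ K) :
    NC src tgt K B (insert e F) ≤ NC src tgt K B F := by
  have h := NC_insert (s := src) (t := tgt) (K := K) (B := B) (F := F) (e := e) hs ht
  have h2 : (0:ℝ) ≤ ind (RB src tgt B F (src e) ∧ RB src tgt B F (tgt e) ∧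
      ¬ GR src tgt F (src e) (tgt e)) := by
    by_cases hc : (RB src tgt B F (src e) ∧ RB src tgt B F (tgt e) ∧
      ¬ GR src tgt F (src e) (tgt e))
    · rw [ind_of hc]; norm_num
    · rw [ind_not_of hc]
  have h3 : (NC src tgt K B (insert e F) : ℝ) ≤ NC src tgt K B F := by linarith
  exact_mod_cast h3

theorem a1_insert_eq {K : Finset Vtx} {B : Set Vtx} {F : Set Edg} {e : Edg}
    (hs : src e ∈ K) (ht : tgt e ∈ K)
    (hc : ¬ (RB src tgt B F (src e) ∧ RB src tgt B F (tgt e) ∧
      ¬ GR src tgt F (src e) (tgt e))) :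
    NC src tgt K B (insert e F) = NC src tgt K B F := by
  have h := NC_insert (s := src) (t := tgt) (K := K) (B := B) (F := F) (e := e) hs ht
  rw [ind_not_of hc] at h
  have h3 : (NC src tgt K B (insert e F) : ℝ) = NC src tgt K B F := by linarith
  exact_mod_cast h3

theorem a1_insert_lt {K : Finset Vtx} {B : Set Vtx} {F : Set Edg} {e : Edg}
    (hs : src e ∈ K) (ht : tgt e ∈ K)
    (hc : (RB src tgt B F (src e) ∧ RB src tgt B F (tgt e) ∧
      ¬ GR src tgt F (src e) (tgt e))) :
    NC src tgt K B (insert e F) + 1 = NC src tgt K B F := by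
  have h := NC_insert (s := src) (t := tgt) (K := K) (B := B) (F := F) (e := e) hs ht
  rw [ind_of hc] at h
  have h3 : (NC src tgt K B (insert e F) : ℝ) + 1 = NC src tgt K B F := by linarith
  exact_mod_cast h3

theorem a1_union_insert {F : Set Edg} {T : Finset Edg} {e : Edg} :
    F ∪ ↑(insert e T) = insert e (F ∪ (↑T : Set Edg)) := by
  rw [Finset.coe_insert, Set.union_insert]

theorem a1_RB_mono {B : Set Vtx} {F G : Set Edg} (h : F ⊆ G) {u : Vtx}
    (hu : RB src tgt B F u) : RB src tgt B G u := by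
  obtain ⟨b, hb, hr⟩ := hu
  exact ⟨b, hb, hr.mono h⟩

/-- A1 -/
theorem NC_union {K : Finset Vtx} {B : Set Vtx} {F : Set Edg} (T : Finset Edg)
    (hT : ∀ e ∈ T, src e ∈ K ∧ tgt e ∈ K) :
    NC src tgt K B (F ∪ ↑T) ≤ NC src tgt K B F := by
  induction T using Finset.induction_on with
  | empty => simp
  | insert e T he ih =>
    rw [a1_union_insert]
    have h1 := hT e (Finset.mem_insert_self e T)
    exact (a1_insert_le h1.1 h1.2).trans
      (ih (fun e' he' => hT e' (Finset.mem_insert_of_mem he')))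

/-- A1 -/
theorem NC_merge {K : Finset Vtx} {B : Set Vtx} {F : Set Edg} (T : Finset Edg)
    (hT : ∀ e ∈ T, src e ∈ K ∧ tgt e ∈ K) {u v : Vtx} (hu : RB src tgt B F u)
    (hv : RB src tgt B F v) (huv : ¬ Reach F u v) (huv' : Reach (F ∪ ↑T) u v) :
    NC src tgt K B (F ∪ ↑T) + 1 ≤ NC src tgt K B F := by
  induction T using Finset.induction_on with
  | empty => exact absurd (by simpa using huv') huv
  | insert e T he ih =>
    rw [a1_union_insert] at huv' ⊢
    have h1 := hT e (Finset.mem_insert_self e T)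
    have hT' : ∀ e ∈ T, src e ∈ K ∧ tgt e ∈ K :=
      fun e' he' => hT e' (Finset.mem_insert_of_mem he')
    by_cases hc : Reach (F ∪ ↑T) u v
    · have h2 := ih hT' hc
      have h3 := a1_insert_le (K := K) (B := B) (F := F ∪ ↑T) h1.1 h1.2
      omega
    · have hu' : RB src tgt B (F ∪ (↑T : Set Edg)) u := a1_RB_mono Set.subset_union_left hu
      have hv' : RB src tgt B (F ∪ (↑T : Set Edg)) v := a1_RB_mono Set.subset_union_left hv
      have hc' : ¬ GR src tgt (F ∪ (↑T : Set Edg)) u v := hc
      have h2 : RB src tgt B (F ∪ (↑T : Set Edg)) (src e) ∧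
          RB src tgt B (F ∪ (↑T : Set Edg)) (tgt e) ∧
          ¬ GR src tgt (F ∪ (↑T : Set Edg)) (src e) (tgt e) := by
        rcases GR_insert.mp (reach_GR.mp huv') with k | ⟨k1, k2⟩ | ⟨k1, k2⟩
        · exact absurd k hc'
        · exact ⟨(RB_iff k1).mp hu', (RB_iff k2).mpr hv',
            fun h => hc' (k1.trans (h.trans k2))⟩
        · exact ⟨(RB_iff k2).mpr hv', (RB_iff k1).mp hu',
            fun h => hc' (k1.trans (h.symm.trans k2))⟩
      have h3 := a1_insert_lt (K := K) (B := B) h1.1 h1.2 h2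
      have h4 := NC_union (K := K) (B := B) (F := F) T hT'
      omega

/-- A1 : the edges of a block do not matter if there is a circuit around it. -/
theorem NC_circ {K : Finset Vtx} {B : Set Vtx} {c : ℤ × ℤ} {m : ℕ} (hm : 1 ≤ m)
    (hK : ∀ e ∈ blk c m, src e ∈ K ∧ tgt e ∈ K) (hB : ∀ v ∈ B, BSfar c (3 * m) v)
    {F : Finset Edg} (hU : BSU c m F) :
    NC src tgt K B (↑F : Set Edg) ≤ NC src tgt K B (↑(F ∪ blk c m) : Set Edg) := by
  have key : ∀ T : Finset Edg, T ⊆ blk c m →
      NC src tgt K B (↑F : Set Edg) ≤ NC src tgt K B ((↑F : Set Edg) ∪ ↑T) := by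
    intro T
    induction T using Finset.induction_on with
    | empty => intro _; simp
    | insert e T he ih =>
      intro hT
      have hTs : T ⊆ blk c m := (Finset.subset_insert e T).trans hT
      have heb : e ∈ blk c m := hT (Finset.mem_insert_self e T)
      rw [a1_union_insert]
      have h1 := hK e heb
      rw [a1_insert_eq h1.1 h1.2]
      · exact ih hTs
      · rintro ⟨⟨b1, hb1, r1⟩, ⟨b2, hb2, r2⟩, h3⟩
        obtain ⟨z, hz⟩ := BSU_meet hm (BSU_mono (Finset.subset_union_left (s₂ := T)) hU)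
        have hb := BS_adj_box heb
        have e1 : (↑(F ∪ T) : Set Edg) = (↑F : Set Edg) ∪ ↑T := Finset.coe_union F T
        rw [e1] at hz
        have g1 := hz (src e) b1 hb.1 (hB b1 hb1) r1
        have g2 := hz (tgt e) b2 hb.2 (hB b2 hb2) r2
        exact h3 (g1.trans g2.symm)
  have := key (blk c m) (Finset.Subset.refl _)
  rwa [Finset.coe_union]

/-- A1 : the edges of a block do not matter if it is cut off. -/
theorem NC_cut {K : Finset Vtx} {B : Set Vtx} {c : ℤ × ℤ} {m : ℕ}
    (hK : ∀ e ∈ blk c m, src e ∈ K ∧ tgt e ∈ K) (hB : ∀ v ∈ B, BSfar c (3 * m) v)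
    {F : Finset Edg} (hD : BSD c m F) :
    NC src tgt K B (↑(F \ blk c m) : Set Edg) ≤ NC src tgt K B (↑F : Set Edg) := by
  have key : ∀ T : Finset Edg, T ⊆ blk c m → T ⊆ F →
      NC src tgt K B (↑(F \ blk c m) : Set Edg) ≤
        NC src tgt K B ((↑(F \ blk c m) : Set Edg) ∪ ↑T) := by
    intro T
    induction T using Finset.induction_on with
    | empty => intro _ _; simp
    | insert e T he ih =>
      intro hT hTF
      have hTs : T ⊆ blk c m := (Finset.subset_insert e T).trans hT
      have hTFs : T ⊆ F := (Finset.subset_insert e T).trans hTF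
      have heb : e ∈ blk c m := hT (Finset.mem_insert_self e T)
      rw [a1_union_insert]
      have h1 := hK e heb
      rw [a1_insert_eq h1.1 h1.2]
      · exact ih hTs hTFs
      · rintro ⟨⟨b1, hb1, r1⟩, _, _⟩
        apply hD
        have hb := BS_adj_box heb
        have hsub : (↑(F \ blk c m) : Set Edg) ∪ ↑T ⊆ (↑F : Set Edg) := by
          rw [← Finset.coe_union]
          exact_mod_cast Finset.union_subset Finset.sdiff_subset hTFs
        exact ⟨src e, b1, hb.1, hB b1 hb1, r1.mono hsub⟩
  have h := key (F ∩ blk c m) Finset.inter_subset_right Finset.inter_subset_left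
  have e1 : (↑(F \ blk c m) : Set Edg) ∪ ↑(F ∩ blk c m) = (↑F : Set Edg) := by
    rw [← Finset.coe_union, Finset.sdiff_union_inter]
  rwa [e1] at h

end H31A
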