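import Pool.Agent.H31R4.Alp.Defs
import Pool.Agent.H12R2.Sep.BlkSum

/-! Task A2: block inequality for a general function g. -/

set_option maxHeartbeats 400000

namespace H31A

open H974 H12S H973N Finset

/-- Harris' inequality for a function which is increasing in the edges of `D` and a function of
the configuration in `D`. -/
theorem a2_cond {q : ℝ} (ok : Ok (fun _ : Edg => q)) {S D : Finset Edg} (hDS : D ⊆ S)
    {u k : Finset Edg → ℝ}
    (hu : ∀ F G : Finset Edg, F ⊆ G → G ⊆ S → G \ F ⊆ D → u F ≤ u G)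
    (hloc : ∀ F, k F = k (F ∩ D)) (hk : ∀ F G : Finset Edg, F ⊆ G → G ⊆ D → k F ≤ k G) :
    Ex (fun _ => q) S u * Ex (fun _ => q) S k ≤ Ex (fun _ => q) S (fun F => u F * k F) := by
  have hS : S = (S \ D) ∪ D := (Finset.sdiff_union_of_subset hDS).symm
  have hd : Disjoint (S \ D) D := Finset.sdiff_disjoint
  have h1 : Ex (fun _ => q) S k = Ex (fun _ => q) D k := Ex_local hDS (fun F _ => hloc F)
  rw [h1]
  conv_lhs => rw [hS]
  conv_rhs => rw [hS]
  rw [Ex_union hd, Ex_union hd, ← Ex_mul_right]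
  refine Ex_mono ok (fun w hw => ?_)
  have e1 : Ex (fun _ => q) D (fun F => u (w ∪ F) * k (w ∪ F)) =
      Ex (fun _ => q) D (fun F => u (w ∪ F) * k F) := by
    apply Ex_congr
    intro F hF
    have : (w ∪ F) ∩ D = F ∩ D := by
      ext e
      simp only [Finset.mem_inter, Finset.mem_union]
      constructor
      · rintro ⟨h | h, h2⟩
        · exact absurd h2 (Finset.mem_sdiff.mp (hw h)).2
        · exact ⟨h, h2⟩
      · rintro ⟨h, h2⟩
        exact ⟨Or.inr h, h2⟩
    rw [hloc (w ∪ F), this, ← hloc F]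
  rw [e1]
  refine harris ok ?_ ?_
  · intro F G hFG hG
    apply hu
    · exact Finset.union_subset_union_right hFG
    · exact Finset.union_subset (hw.trans Finset.sdiff_subset) (hG.trans hDS)
    · intro e he
      rw [Finset.mem_sdiff, Finset.mem_union, Finset.mem_union] at he
      rcases he.1 with h | h
      · exact absurd (Or.inl h) he.2
      · exact hG h
  · exact fun F G hFG hG => hk F G hFG hG

theorem a2_infl {q : ℝ} (h0 : 0 ≤ q) (h1 : q ≤ 1) {S : Finset Edg} {c : ℤ × ℤ}
    {m : ℕ} (hS : blk c (3 * m) ⊆ S) (hPU : 0 < PQ q S (BSU c m))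
    (hPD : 0 < PQ q S (BSD c m)) (g : Finset Edg → ℝ)
    (hg : ∀ F G : Finset Edg, F ⊆ G → G ⊆ S → G \ F ⊆ blk c (3 * m) → g F ≤ g G)
    (hU : ∀ F : Finset Edg, F ⊆ S → BSU c m F → g (F ∪ blk c m) ≤ g F)
    (hD : ∀ F : Finset Edg, F ⊆ S → BSD c m F → g F ≤ g (F \ blk c m)) :
    Ex (fun _ => q) S (fun F => g (F ∪ blk c m) - g (F \ blk c m)) ≤
      Ex (fun _ => q) S (fun F => g F * BSV q S c m F) := by
  have ok := okq h0 h1
  set b := blk c m with hb
  have hbD : b ⊆ blk c (3 * m) := by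
    apply RE_subset <;> push_cast <;> omega
  have a2 : Ex (fun _ => q) S (fun F => g (F ∪ b)) ≤
      (PQ q S (BSU c m))⁻¹ * Ex (fun _ => q) S (fun F => g F * ind (BSU c m F)) := by
    have g1 : Ex (fun _ => q) S (fun F => g (F ∪ b)) * PQ q S (BSU c m) ≤
        Ex (fun _ => q) S (fun F => g F * ind (BSU c m F)) := by
      refine (a2_cond ok hS (u := fun F => g (F ∪ b)) (k := fun F => ind (BSU c m F)) ?_ ?_ ?_).trans
        ?_
      · intro F G hFG hG hd
        apply hg
        · exact Finset.union_subset_union_left hFG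
        · exact Finset.union_subset hG (hbD.trans hS)
        · intro e he
          rw [Finset.mem_sdiff, Finset.mem_union, Finset.mem_union] at he
          rcases he.1 with h | h
          · exact hd (Finset.mem_sdiff.2 ⟨h, fun h' => he.2 (Or.inl h')⟩)
          · exact absurd (Or.inr h) he.2
      · intro F
        exact ind_congr (BSU_local c m F)
      · intro F G hFG _
        exact ind_mono (BSU_mono hFG)
      · refine Ex_mono ok (fun F hF => ?_)
        by_cases hA : BSU c m F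
        · rw [ind_of hA, mul_one, mul_one]
          exact hU F hF hA
        · rw [ind_not_of hA, mul_zero, mul_zero]
    rw [inv_mul_eq_div, le_div_iff₀ hPU]
    exact g1
  have a3 : (PQ q S (BSD c m))⁻¹ * Ex (fun _ => q) S (fun F => g F * ind (BSD c m F)) ≤
      Ex (fun _ => q) S (fun F => g (F \ b)) := by
    have g1 : Ex (fun _ => q) S (fun F => g F * ind (BSD c m F)) ≤
        Ex (fun _ => q) S (fun F => g (F \ b)) * PQ q S (BSD c m) := by
      have k1 := a2_cond ok hS (u := fun F => g (F \ b)) (k := fun F => -ind (BSD c m F))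
        (by
          intro F G hFG hG hd
          apply hg
          · exact Finset.sdiff_subset_sdiff hFG le_rfl
          · exact Finset.sdiff_subset.trans hG
          · intro e he
            rw [Finset.mem_sdiff, Finset.mem_sdiff, Finset.mem_sdiff] at he
            exact hd (Finset.mem_sdiff.2 ⟨he.1.1, fun h' => he.2 ⟨h', he.1.2⟩⟩))
        (by
          intro F
          rw [ind_congr (BSD_local c m F)])
        (by
          intro F G hFG _
          apply neg_le_neg
          apply ind_mono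
          unfold BSD
          intro h h'
          exact h (BS_crs_mono (by exact_mod_cast hFG) h'))
      have k2 : Ex (fun _ => q) S (fun F => -ind (BSD c m F)) = -PQ q S (BSD c m) := by
        have := Ex_mul_left (fun _ => q) S (-1) (fun F => ind (BSD c m F))
        simp only [neg_one_mul] at this
        exact this
      have k3 : Ex (fun _ => q) S (fun F => g (F \ b) * -ind (BSD c m F)) =
          -Ex (fun _ => q) S (fun F => g (F \ b) * ind (BSD c m F)) := by
        have := Ex_mul_left (fun _ => q) S (-1) (fun F => g (F \ b) * ind (BSD c m F))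
        simp only [neg_one_mul] at this
        rw [← this]
        apply Ex_congr
        intro F _
        ring
      rw [k2, k3] at k1
      have k4 : Ex (fun _ => q) S (fun F => g F * ind (BSD c m F)) ≤
          Ex (fun _ => q) S (fun F => g (F \ b) * ind (BSD c m F)) := by
        refine Ex_mono ok (fun F hF => ?_)
        by_cases hA : BSD c m F
        · rw [ind_of hA, mul_one, mul_one]
          exact hD F hF hA
        · rw [ind_not_of hA, mul_zero, mul_zero]
      linarith
    rw [inv_mul_eq_div, div_le_iff₀ hPD]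
    exact g1
  have a4 : Ex (fun _ => q) S (fun F => g F * BSV q S c m F) =
      (PQ q S (BSU c m))⁻¹ * Ex (fun _ => q) S (fun F => g F * ind (BSU c m F)) -
      (PQ q S (BSD c m))⁻¹ * Ex (fun _ => q) S (fun F => g F * ind (BSD c m F)) := by
    rw [← Ex_mul_left, ← Ex_mul_left, ← Ex_sub]
    apply Ex_congr
    intro F _
    unfold BSV
    ring
  rw [a4, Ex_sub]
  linarith

/-- A2 -/
theorem blk_sum_g {q κ : ℝ} {n : ℕ} (hW : Win q κ n) {S : Finset Edg} {T : Finset (ℤ × ℤ)}
    {m : ℕ} (hm : 1 ≤ m) (hmn : 2 * m ≤ n) (hS : ∀ c ∈ T, blk c (3 * m) ⊆ S)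
    (hd : ∀ c ∈ T, ∀ c' ∈ T, c ≠ c' → Disjoint (blk c (3 * m)) (blk c' (3 * m)))
    (g : Finset Edg → ℝ)
    (hg : ∀ c ∈ T, ∀ F G : Finset Edg, F ⊆ G → G ⊆ S → G \ F ⊆ blk c (3 * m) → g F ≤ g G)
    (hU : ∀ c ∈ T, ∀ F : Finset Edg, F ⊆ S → BSU c m F → g (F ∪ blk c m) ≤ g F)
    (hD : ∀ c ∈ T, ∀ F : Finset Edg, F ⊆ S → BSD c m F → g F ≤ g (F \ blk c m)) {M : ℝ}
    (hM : Ex (fun _ => q) S (fun F => (g F)^2) ≤ M) :
    ∑ c ∈ T, Ex (fun _ => q) S (fun F => g (F ∪ blk c m) - g (F \ blk c m)) ≤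
      Real.sqrt (T.card * (2 * κ⁻¹ ^ 4) * M) := by
  have h0 : 0 ≤ q := by linarith [hW.lo]
  have h1 : q ≤ 1 := by linarith [hW.hi]
  have hκ := hW.kpos
  have hk4 : 0 < κ ^ 4 := by positivity
  have hPU : ∀ c ∈ T, κ ^ 4 ≤ PQ q S (BSU c m) := by
    intro c hc
    refine (win_circ hW hm hmn c.1 c.2 S ?_).1
    have := hS c hc
    unfold blk at this
    push_cast at this
    exact this
  have hPD : ∀ c ∈ T, κ ^ 4 ≤ PQ q S (BSD c m) := fun c _ =>
    (win_blk hW hm hmn c.1 c.2 S).1
  have hU' : ∀ c ∈ T, 0 < PQ q S (BSU c m) := fun c hc => hk4.trans_le (hPU c hc)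
  have hD' : ∀ c ∈ T, 0 < PQ q S (BSD c m) := fun c hc => hk4.trans_le (hPD c hc)
  set h : Finset Edg → ℝ := fun F => ∑ c ∈ T, BSV q S c m F with hh
  have b1 : ∑ c ∈ T, Ex (fun _ => q) S (fun F => g (F ∪ blk c m) - g (F \ blk c m)) ≤
      Ex (fun _ => q) S (fun F => g F * h F) := by
    have e1 : Ex (fun _ => q) S (fun F => g F * h F) =
        ∑ c ∈ T, Ex (fun _ => q) S (fun F => g F * BSV q S c m F) := by
      rw [← Ex_sum]
      apply Ex_congr
      intro F _
      rw [hh, Finset.mul_sum]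
    rw [e1]
    apply Finset.sum_le_sum
    intro c hc
    exact a2_infl h0 h1 (hS c hc) (hU' c hc) (hD' c hc) g (hg c hc) (hU c hc) (hD c hc)
  have b3 : Ex (fun _ => q) S (fun F => (h F) ^ 2) =
      ∑ c ∈ T, Ex (fun _ => q) S (fun F => BSV q S c m F * BSV q S c m F) := by
    have e1 : Ex (fun _ => q) S (fun F => (h F) ^ 2) =
        ∑ c ∈ T, ∑ c' ∈ T, Ex (fun _ => q) S (fun F => BSV q S c m F * BSV q S c' m F) := by
      have e2 : ∀ F : Finset Edg, F ⊆ S → (h F) ^ 2 =
          ∑ c ∈ T, ∑ c' ∈ T, BSV q S c m F * BSV q S c' m F := by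
        intro F _
        rw [hh, sq, Finset.sum_mul_sum]
      rw [Ex_congr e2, Ex_sum]
      apply Finset.sum_congr rfl
      intro c _
      rw [Ex_sum]
    rw [e1]
    apply Finset.sum_congr rfl
    intro c hc
    rw [Finset.sum_eq_single c]
    · intro c' hc' hne
      rw [Ex_mul_indep (hS c hc) (hS c' hc') (hd c hc c' hc' (Ne.symm hne))
        (fun F _ => BSV_local q S c m F) (fun F _ => BSV_local q S c' m F),
        BSV_mean (hU' c hc) (hD' c hc), zero_mul]
    · intro h; exact absurd hc h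
  have b4 : Ex (fun _ => q) S (fun F => (h F) ^ 2) ≤ T.card * (2 * κ⁻¹ ^ 4) := by
    rw [b3]
    have : ∀ c ∈ T, Ex (fun _ => q) S (fun F => BSV q S c m F * BSV q S c m F) ≤
        2 * κ⁻¹ ^ 4 := by
      intro c hc
      refine (BSV_sq h0 h1 (hU' c hc) (hD' c hc)).trans ?_
      have i1 : (PQ q S (BSU c m))⁻¹ ≤ κ⁻¹ ^ 4 := by
        rw [inv_pow]; exact inv_anti₀ hk4 (hPU c hc)
      have i2 : (PQ q S (BSD c m))⁻¹ ≤ κ⁻¹ ^ 4 := by
        rw [inv_pow]; exact inv_anti₀ hk4 (hPD c hc)
      linarith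
    refine (Finset.sum_le_sum this).trans ?_
    rw [Finset.sum_const, nsmul_eq_mul]
  have b5 := Ex_cs (okq h0 h1) S g h
  have hg0 : 0 ≤ Ex (fun _ => q) S (fun F => (g F) ^ 2) :=
    Ex_nonneg (okq h0 h1) (fun F _ => sq_nonneg _)
  have hh0 : 0 ≤ Ex (fun _ => q) S (fun F => (h F) ^ 2) :=
    Ex_nonneg (okq h0 h1) (fun F _ => sq_nonneg _)
  have b6 : (Ex (fun _ => q) S (fun F => g F * h F)) ^ 2 ≤ T.card * (2 * κ⁻¹ ^ 4) * M := by
    refine b5.trans ?_
    calc Ex (fun _ => q) S (fun F => (g F) ^ 2) * Ex (fun _ => q) S (fun F => (h F) ^ 2)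
        ≤ M * (T.card * (2 * κ⁻¹ ^ 4)) := mul_le_mul hM b4 hh0 (hg0.trans hM)
      _ = _ := by ring
  exact b1.trans ((le_abs_self _).trans (Real.abs_le_sqrt b6))

end H31A
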