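import Pool.Agent.H31R4.Alp.A1
import Pool.Agent.H31R4.Alp.A2
import Pool.Agent.H12R2.Sep.Win1

/-! Task A3: annulus four-arm bound r/R (helper640). -/

set_option maxHeartbeats 400000

namespace H31A

open H974 H12S H973N Finset

theorem a3_row {a b c d x y : ℤ} (k : ℕ) (hx : a ≤ x) (hx' : x + k ≤ b) (hy : c ≤ y)
    (hy' : y ≤ d) : Reach (↑(RE a b c d) : Set Edg) (x, y) (x + k, y) := by
  induction k with
  | zero => simpa using Reach.refl _ _
  | succ k ih =>
    have h1 := ih (by push_cast at hx' ⊢; omega)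
    refine h1.trans (Adj.reach ⟨(x + k, y, true), ?_, Or.inl ⟨?_, ?_⟩⟩)
    · rw [Finset.mem_coe, mem_RE_true]
      push_cast at hx'
      omega
    · simp
    · simp only [tgt_true, Prod.mk.injEq, and_true]
      push_cast
      ring

theorem a3_col {a b c d x y : ℤ} (k : ℕ) (hx : a ≤ x) (hx' : x ≤ b) (hy : c ≤ y)
    (hy' : y + k ≤ d) : Reach (↑(RE a b c d) : Set Edg) (x, y) (x, y + k) := by
  induction k with
  | zero => simpa using Reach.refl _ _
  | succ k ih =>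
    have h1 := ih (by push_cast at hy' ⊢; omega)
    refine h1.trans (Adj.reach ⟨(x, y + k, false), ?_, Or.inl ⟨?_, ?_⟩⟩)
    · rw [Finset.mem_coe, mem_RE_false]
      push_cast at hy'
      omega
    · simp
    · simp only [tgt_false, Prod.mk.injEq, true_and]
      push_cast
      ring

theorem a3_row' {a b c d x x' y : ℤ} (hx : a ≤ x) (hxb : x ≤ b) (hx' : a ≤ x') (hxb' : x' ≤ b)
    (hy : c ≤ y) (hy' : y ≤ d) : Reach (↑(RE a b c d) : Set Edg) (x, y) (x', y) := by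
  rcases le_total x x' with h | h
  · have := a3_row (a := a) (b := b) (c := c) (d := d) (x := x) (y := y) (x' - x).toNat hx
      (by omega) hy hy'
    rwa [show x + ((x' - x).toNat : ℤ) = x' by omega] at this
  · have := a3_row (a := a) (b := b) (c := c) (d := d) (x := x') (y := y) (x - x').toNat hx'
      (by omega) hy hy'
    rw [show x' + ((x - x').toNat : ℤ) = x by omega] at this
    exact this.symm

theorem a3_col' {a b c d x y y' : ℤ} (hx : a ≤ x) (hxb : x ≤ b) (hy : c ≤ y) (hyd : y ≤ d)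
    (hy' : c ≤ y') (hyd' : y' ≤ d) : Reach (↑(RE a b c d) : Set Edg) (x, y) (x, y') := by
  rcases le_total y y' with h | h
  · have := a3_col (a := a) (b := b) (c := c) (d := d) (x := x) (y := y) (y' - y).toNat hx hxb hy
      (by omega)
    rwa [show y + ((y' - y).toNat : ℤ) = y' by omega] at this
  · have := a3_col (a := a) (b := b) (c := c) (d := d) (x := x) (y := y') (y - y').toNat hx hxb hy'
      (by omega)
    rw [show y' + ((y - y').toNat : ℤ) = y by omega] at this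
    exact this.symm

/-- a box is connected -/
theorem a3_box {a b c d : ℤ} {u v : Vtx} (hu : inR a b c d u) (hv : inR a b c d v) :
    Reach (↑(RE a b c d) : Set Edg) u v := by
  obtain ⟨x, y⟩ := u
  obtain ⟨x', y'⟩ := v
  unfold inR at hu hv
  simp only at hu hv
  exact (a3_row' hu.1.1 hu.1.2 hv.1.1 hv.1.2 hu.2.1 hu.2.2).trans
    (a3_col' hv.1.1 hv.1.2 hu.2.1 hu.2.2 hv.2.1 hv.2.2)

theorem a3_blk_trl (s t : ℤ) (c : ℤ × ℤ) (R : ℕ) :
    (trl s t).mp (blk c R) = blk (c.1 + s, c.2 + t) R := by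
  unfold blk
  rw [trl_RE]
  congr 1 <;> simp only <;> ring

theorem a3_X4_fwd (s t : ℤ) (c : ℤ × ℤ) (r R : ℕ) (F : Finset Edg) (h : X4 c r R (↑F : Set Edg)) :
    X4 (c.1 + s, c.2 + t) r R (↑((trl s t).mp F) : Set Edg) := by
  have e1 : ((↑((trl s t).mp F) : Set Edg) ∩
      ↑(blk (c.1 + s, c.2 + t) R \ blk (c.1 + s, c.2 + t) r)) =
      (trl s t).φ '' ((↑F : Set Edg) ∩ ↑(blk c R \ blk c r)) := by
    rw [← a3_blk_trl, ← a3_blk_trl, ← LSym.mp_sdiff, ← Finset.coe_inter, ← LSym.mp_inter,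
      LSym.coe_mp, Finset.coe_inter]
  obtain ⟨u, v, hu, hv, ⟨w, hw, huw⟩, ⟨w', hw', hvw'⟩, hn⟩ := h
  unfold X4
  rw [e1]
  refine ⟨(trl s t).ψ u, (trl s t).ψ v, ?_, ?_, ⟨(trl s t).ψ w, ?_, (trl s t).reach_iff.2 huw⟩,
    ⟨(trl s t).ψ w', ?_, (trl s t).reach_iff.2 hvw'⟩, fun h => hn ((trl s t).reach_iff.1 h)⟩
  · obtain ⟨u1, u2⟩ := u
    unfold inR at hu ⊢
    simp only [trl_ψ] at hu ⊢
    omega
  · obtain ⟨v1, v2⟩ := v
    unfold inR at hv ⊢
    simp only [trl_ψ] at hv ⊢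
    omega
  · obtain ⟨w1, w2⟩ := w
    unfold bdR inR at hw ⊢
    simp only [Set.mem_ofPred_eq, trl_ψ] at hw ⊢
    omega
  · obtain ⟨w1, w2⟩ := w'
    unfold bdR inR at hw' ⊢
    simp only [Set.mem_ofPred_eq, trl_ψ] at hw' ⊢
    omega

theorem a3_mp_mp (s t : ℤ) (F : Finset Edg) : (trl (-s) (-t)).mp ((trl s t).mp F) = F := by
  ext ⟨x, y, b⟩
  rw [LSym.mem_mp, trl_φs, LSym.mem_mp, trl_φs]
  simp

theorem a3_X4_trl (s t : ℤ) (c : ℤ × ℤ) (r R : ℕ) (F : Finset Edg) :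
    X4 (c.1 + s, c.2 + t) r R (↑((trl s t).mp F) : Set Edg) ↔ X4 c r R (↑F : Set Edg) := by
  constructor
  · intro h
    have h1 := a3_X4_fwd (-s) (-t) (c.1 + s, c.2 + t) r R _ h
    rw [a3_mp_mp] at h1
    simpa using h1
  · exact a3_X4_fwd s t c r R F

theorem a3_X4_local (c : ℤ × ℤ) (r R : ℕ) (F G : Finset Edg) (hG : blk c R \ blk c r ⊆ G) :
    X4 c r R (↑F : Set Edg) ↔ X4 c r R (↑(F ∩ G) : Set Edg) := by
  have e1 : (↑(F ∩ G) : Set Edg) ∩ ↑(blk c R \ blk c r) = (↑F : Set Edg) ∩ ↑(blk c R \ blk c r) := by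
    rw [← Finset.coe_inter, ← Finset.coe_inter, Finset.inter_assoc,
      Finset.inter_eq_right.2 hG]
  unfold X4
  rw [e1]

theorem a3_pr_eq (q : ℝ) (c c' : ℤ × ℤ) (r R : ℕ) (S S' : Finset Edg)
    (hS : blk c R \ blk c r ⊆ S) (hS' : blk c' R \ blk c' r ⊆ S') :
    PQ q S (fun F => X4 c r R ↑F) = PQ q S' (fun F => X4 c' r R ↑F) := by
  have e1 : ∀ (c : ℤ × ℤ) (S : Finset Edg), blk c R \ blk c r ⊆ S →
      PQ q S (fun F => X4 c r R (↑F : Set Edg)) =
        PQ q (blk c R \ blk c r) (fun F => X4 c r R (↑F : Set Edg)) := by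
    intro c S hS
    exact Pr_local hS fun F _ => a3_X4_local c r R F _ subset_rfl
  rw [e1 c S hS, e1 c' S' hS']
  have e2 : (trl (c'.1 - c.1) (c'.2 - c.2)).mp (blk c R \ blk c r) = blk c' R \ blk c' r := by
    rw [LSym.mp_sdiff, a3_blk_trl, a3_blk_trl]
    have : (c.1 + (c'.1 - c.1), c.2 + (c'.2 - c.2)) = c' := by
      ext <;> simp
    rw [this]
  rw [← e2]
  unfold PQ
  rw [LSym.pr]
  refine Pr_congr fun F _ => ?_
  have h1 := a3_X4_trl (c'.1 - c.1) (c'.2 - c.2) c r R F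
  have : (c.1 + (c'.1 - c.1), c.2 + (c'.2 - c.2)) = c' := by
    ext <;> simp
  rw [this] at h1
  exact h1.symm

/-- the vertices of the inner box -/
noncomputable def a3K (M : ℕ) : Finset Vtx := Icc (-(M : ℤ)) M ×ˢ Icc (-(M : ℤ)) M

/-- the vertices at distance `3M` -/
def a3B (M : ℕ) : Set Vtx := {v | BSfar (0, 0) (3 * M) v}

theorem a3_memK {M : ℕ} {v : Vtx} : v ∈ a3K M ↔ inR (-M) M (-M) M v := by
  unfold a3K inR
  rw [Finset.mem_product, Finset.mem_Icc, Finset.mem_Icc]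

theorem a3_blkK {M r ρ : ℕ} {c : ℤ × ℤ} (hρ : ρ ≤ 3 * r)
    (hc : -(M : ℤ) ≤ c.1 - 3 * r ∧ c.1 + 3 * r ≤ M)
    (hc' : -(M : ℤ) ≤ c.2 - 3 * r ∧ c.2 + 3 * r ≤ M) :
    ∀ e ∈ blk c ρ, src e ∈ a3K M ∧ tgt e ∈ a3K M := by
  intro e he
  obtain ⟨h1, h2⟩ := BS_adj_box he
  rw [a3_memK, a3_memK]
  unfold inR at h1 h2 ⊢
  omega

theorem a3_farB {M r : ℕ} {c : ℤ × ℤ} (hc : -(M : ℤ) ≤ c.1 - 3 * r ∧ c.1 + 3 * r ≤ M)
    (hc' : -(M : ℤ) ≤ c.2 - 3 * r ∧ c.2 + 3 * r ≤ M) :
    ∀ v ∈ a3B M, BSfar c (3 * r) v := by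
  intro v hv
  have hv' : BSfar (0, 0) (3 * M) v := hv
  unfold BSfar at hv' ⊢
  simp only at hv'
  push_cast at hv' ⊢
  omega

/-- the four-arm event makes a merger of two clusters -/
theorem a3_merge {M r R : ℕ} {c : ℤ × ℤ} (hR : 4 * M ≤ R)
    (hc : -(M : ℤ) ≤ c.1 - 3 * r ∧ c.1 + 3 * r ≤ M)
    (hc' : -(M : ℤ) ≤ c.2 - 3 * r ∧ c.2 + 3 * r ≤ M) (F : Finset Edg)
    (h : X4 c r R (↑F : Set Edg)) :
    NC src tgt (a3K M) (a3B M) (↑((F ∩ blk (0, 0) (3 * M)) ∪ blk c r) : Set Edg) + 1 ≤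
      NC src tgt (a3K M) (a3B M) (↑((F ∩ blk (0, 0) (3 * M)) \ blk c r) : Set Edg) := by
  obtain ⟨u, v, hu, hv, ⟨w, hw, huw⟩, ⟨w', hw', hvw'⟩, hn⟩ := h
  have hex : ∀ x z : Vtx, inR (c.1 - r) (c.1 + r) (c.2 - r) (c.2 + r) x →
      z ∈ bdR (c.1 - R) (c.1 + R) (c.2 - R) (c.2 + R) →
      Reach ((↑F : Set Edg) ∩ ↑(blk c R \ blk c r)) x z →
      RB src tgt (a3B M) (↑((F ∩ blk (0, 0) (3 * M)) \ blk c r) : Set Edg) x := by
    intro x z hx hz hxz
    unfold bdR at hz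
    obtain ⟨hz1, hz2⟩ := hz
    unfold inR at hx hz1
    have h1 : inR (-(3 * M : ℕ) : ℤ) (3 * M : ℕ) (-(3 * M : ℕ) : ℤ) (3 * M : ℕ) x := by
      unfold inR
      push_cast
      omega
    obtain ⟨y, hy1, hy2, hy3⟩ := first_exit h1 hxz (by push_cast; omega)
    refine ⟨y, ?_, ?_⟩
    · change BSfar (0, 0) (3 * M) y
      unfold BSfar
      simp only
      omega
    · refine hy3.mono ?_
      intro e he
      rw [Finset.mem_coe, Finset.mem_sdiff, Finset.mem_inter]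
      obtain ⟨⟨k1, k2⟩, k3⟩ := he
      rw [Finset.mem_coe] at k1 k2 k3
      rw [Finset.mem_sdiff] at k2
      refine ⟨⟨k1, ?_⟩, k2.2⟩
      unfold blk
      simpa using k3
  have hsub : (↑((F ∩ blk (0, 0) (3 * M)) \ blk c r) : Set Edg) ⊆
      (↑F : Set Edg) ∩ ↑(blk c R \ blk c r) := by
    intro e he
    rw [Finset.mem_coe, Finset.mem_sdiff, Finset.mem_inter] at he
    refine ⟨he.1.1, ?_⟩
    rw [Finset.mem_coe, Finset.mem_sdiff]
    refine ⟨?_, he.2⟩
    have := he.1.2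
    obtain ⟨x, y, _ | _⟩ := e
    · unfold blk at this ⊢
      rw [mem_RE_false] at this ⊢
      simp only at this
      push_cast at this
      omega
    · unfold blk at this ⊢
      rw [mem_RE_true] at this ⊢
      simp only at this
      push_cast at this
      omega
  have h1 := NC_merge (K := a3K M) (B := a3B M)
    (F := (↑((F ∩ blk (0, 0) (3 * M)) \ blk c r) : Set Edg)) (blk c r)
    (a3_blkK (by omega) hc hc') (hex u w hu hw huw) (hex v w' hv hw' hvw')
    (fun h => hn (h.mono hsub)) ((a3_box hu hv).mono (by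
      intro e he
      right
      unfold blk
      exact he))
  have e1 : (↑((F ∩ blk (0, 0) (3 * M)) \ blk c r) : Set Edg) ∪ ↑(blk c r) =
      (↑((F ∩ blk (0, 0) (3 * M)) ∪ blk c r) : Set Edg) := by
    rw [← Finset.coe_union, Finset.sdiff_union_self_eq_union]
  rw [e1] at h1
  exact h1

/-- A3 -/
theorem ann (κ : ℝ) (hκ : 0 < κ) : ∃ C : ℝ, 0 < C ∧ ∀ (q : ℝ) (n : ℕ), Win q κ n →
    ∀ (c : ℤ × ℤ) (r R : ℕ) (S : Finset Edg), 1 ≤ r → r ≤ R → R ≤ n → blk c R \ blk c r ⊆ S →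
      PQ q S (fun F => X4 c r R ↑F) ≤ C * ((r:ℝ) / R) := by
  refine ⟨200 + 224 * κ⁻¹ ^ 6, by positivity, fun q n hW c r R S hr hrR hRn hS => ?_⟩
  have ok : Ok (fun _ : Edg => q) := hW.ok
  have hrr : (1 : ℝ) ≤ r := by exact_mod_cast hr
  have hRR : (1 : ℝ) ≤ R := by exact_mod_cast hr.trans hrR
  by_cases hbig : R < 200 * r
  · have h1 : PQ q S (fun F => X4 c r R (↑F : Set Edg)) ≤ 1 := Pr_le_one ok _ _
    have h2 : (1 : ℝ) ≤ 200 * ((r : ℝ) / R) := by
      rw [← mul_div_assoc, le_div_iff₀ (by linarith)]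
      have : (R : ℝ) ≤ 200 * r := by exact_mod_cast hbig.le
      linarith
    have h3 : 0 ≤ 224 * κ⁻¹ ^ 6 * ((r : ℝ) / R) := by positivity
    calc PQ q S (fun F => X4 c r R (↑F : Set Edg)) ≤ 200 * ((r : ℝ) / R) := h1.trans h2
      _ ≤ (200 + 224 * κ⁻¹ ^ 6) * ((r : ℝ) / R) := by
        rw [add_mul]; linarith
  · rw [not_lt] at hbig
    obtain ⟨M, hM⟩ : ∃ M, M = R / 4 := ⟨_, rfl⟩
    have hM4 : 4 * M ≤ R := by omega
    have hM8 : R ≤ 8 * M := by omega
    have hM50 : 50 * r ≤ M := by omega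
    have hM1 : 1 ≤ M := by omega
    obtain ⟨L, hL⟩ : ∃ L, L = M / (14 * r) := ⟨_, rfl⟩
    have hL1 : 14 * r * L ≤ M := by rw [hL]; exact Nat.mul_div_le M (14 * r)
    have hL2 : M < 14 * r * (L + 1) := by
      rw [hL]
      exact Nat.lt_mul_div_succ M (by omega)
    set T0 : Finset (ℤ × ℤ) := Icc (-(L : ℤ)) L ×ˢ Icc (-(L : ℤ)) L with hT0
    have hinj : Function.Injective (fun k : ℤ × ℤ => ((7 * r : ℤ) * k.1, (7 * r : ℤ) * k.2)) := by
      intro k k' h
      simp only [Prod.mk.injEq] at h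
      have h7 : (7 * r : ℤ) ≠ 0 := by omega
      exact Prod.ext (mul_left_cancel₀ h7 h.1) (mul_left_cancel₀ h7 h.2)
    set T : Finset (ℤ × ℤ) := T0.image (fun k : ℤ × ℤ => ((7 * r : ℤ) * k.1, (7 * r : ℤ) * k.2))
      with hT
    have hTcard : T.card = (2 * L + 1) ^ 2 := by
      rw [hT, Finset.card_image_of_injective _ hinj, hT0, Finset.card_product, Int.card_Icc]
      have : ((L : ℤ) + 1 - -(L : ℤ)).toNat = 2 * L + 1 := by omega
      rw [this, sq]
    have hTb : ∀ c ∈ T, (-(M : ℤ) ≤ c.1 - 3 * r ∧ c.1 + 3 * r ≤ M) ∧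
        (-(M : ℤ) ≤ c.2 - 3 * r ∧ c.2 + 3 * r ≤ M) := by
      intro c' hc'
      rw [hT, Finset.mem_image] at hc'
      obtain ⟨⟨k1, k2⟩, hk, rfl⟩ := hc'
      rw [hT0, Finset.mem_product, Finset.mem_Icc, Finset.mem_Icc] at hk
      simp only at hk ⊢
      have hL1' : (14 * r * L : ℤ) ≤ M := by exact_mod_cast hL1
      have hM50' : (50 * r : ℤ) ≤ M := by exact_mod_cast hM50
      have hr' : (1 : ℤ) ≤ r := by exact_mod_cast hr
      have hL0 : (0 : ℤ) ≤ L := by positivity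
      refine ⟨⟨?_, ?_⟩, ?_, ?_⟩
      · nlinarith
      · nlinarith
      · nlinarith
      · nlinarith
    have hTd : ∀ c ∈ T, ∀ c' ∈ T, c ≠ c' → Disjoint (blk c (3 * r)) (blk c' (3 * r)) := by
      intro c1 hc1 c2 hc2 hne
      rw [Finset.disjoint_left]
      rintro ⟨x, y, b⟩ h1 h2
      rw [hT, Finset.mem_image] at hc1 hc2
      obtain ⟨⟨k1, k2⟩, hk, rfl⟩ := hc1
      obtain ⟨⟨l1, l2⟩, hl, rfl⟩ := hc2
      have h3 : ∀ c' : ℤ × ℤ, ((x, y, b) : Edg) ∈ blk c' (3 * r) →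
          (c'.1 - 3 * r ≤ x ∧ x ≤ c'.1 + 3 * r) ∧ (c'.2 - 3 * r ≤ y ∧ y ≤ c'.2 + 3 * r) := by
        intro c' h
        unfold blk at h
        cases b
        · rw [mem_RE_false] at h
          push_cast at h
          omega
        · rw [mem_RE_true] at h
          push_cast at h
          omega
      have h4 := h3 _ h1
      have h5 := h3 _ h2
      simp only at h4 h5
      have hr' : (1 : ℤ) ≤ r := by exact_mod_cast hr
      apply hne
      have hk1 : k1 = l1 := by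
        by_contra hcon
        rcases lt_or_gt_of_ne hcon with h | h
        · have : (7 * r : ℤ) * (k1 + 1) ≤ 7 * r * l1 :=
            mul_le_mul_of_nonneg_left (by omega) (by omega)
          nlinarith
        · have : (7 * r : ℤ) * (l1 + 1) ≤ 7 * r * k1 :=
            mul_le_mul_of_nonneg_left (by omega) (by omega)
          nlinarith
      have hk2 : k2 = l2 := by
        by_contra hcon
        rcases lt_or_gt_of_ne hcon with h | h
        · have : (7 * r : ℤ) * (k2 + 1) ≤ 7 * r * l2 :=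
            mul_le_mul_of_nonneg_left (by omega) (by omega)
          nlinarith
        · have : (7 * r : ℤ) * (l2 + 1) ≤ 7 * r * k2 :=
            mul_le_mul_of_nonneg_left (by omega) (by omega)
          nlinarith
      rw [hk1, hk2]
    set S0 : Finset Edg := blk (0, 0) (3 * M) with hS0
    have hTS : ∀ c ∈ T, blk c (3 * r) ⊆ S0 := by
      intro c1 hc1
      obtain ⟨h1, h2⟩ := hTb c1 hc1
      rw [hS0]
      unfold blk
      apply RE_subset <;> push_cast <;> omega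
    have hκ4 : 0 < κ ^ 4 := by positivity
    have hMb : Ex (fun _ => q) S0 (fun F => (-((NC src tgt (a3K M) (a3B M) (↑F : Set Edg) : ℕ) : ℝ))
        ^ 2) ≤ 2 / (κ ^ 4) ^ 2 := by
      have h1 := (win_blk hW hM1 (by omega) 0 0 S0).1
      have h2 : PQ q S0 (fun F => Crs 0 0 M (3 * M) (↑F : Set Edg)) ≤ 1 - κ ^ 4 := by
        have h3 := Pr_not (p := fun _ => q) S0 (fun F => Crs 0 0 M (3 * M) (↑F : Set Edg))
        unfold PQ at h1 ⊢
        linarith
      have h4 := NC_sq ok S0 src tgt (a3K M) (a3B M) (lam := 1 - κ ^ 4) (by linarith)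
        ((Pr_mono ok (fun F _ hF => by
          obtain ⟨x, hx, b, hb, hr⟩ := hF
          refine ⟨x, b, ?_, ?_, hr⟩
          · rw [a3_memK] at hx
            unfold inR at hx ⊢
            omega
          · have hb' : BSfar (0, 0) (3 * M) b := hb
            unfold BSfar at hb'
            exact hb')).trans h2)
      have h5 : (1 : ℝ) - (1 - κ ^ 4) = κ ^ 4 := by ring
      rw [h5] at h4
      simpa only [neg_sq] using h4
    have hmain := blk_sum_g hW (S := S0) (T := T) (m := r) hr (by omega) hTS hTd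
      (fun F => -((NC src tgt (a3K M) (a3B M) (↑F : Set Edg) : ℕ) : ℝ))
      (by
        intro c1 hc1 F G hFG hGS hd
        obtain ⟨h1, h2⟩ := hTb c1 hc1
        have h3 := NC_union (K := a3K M) (B := a3B M) (F := (↑F : Set Edg)) (G \ F)
          (fun e he => a3_blkK le_rfl h1 h2 e (hd he))
        rw [← Finset.coe_union, Finset.union_sdiff_of_subset hFG] at h3
        have : ((NC src tgt (a3K M) (a3B M) (↑G : Set Edg) : ℕ) : ℝ) ≤
            NC src tgt (a3K M) (a3B M) (↑F : Set Edg) := by exact_mod_cast h3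
        linarith)
      (by
        intro c1 hc1 F hF hU
        obtain ⟨h1, h2⟩ := hTb c1 hc1
        have h3 := NC_circ (K := a3K M) (B := a3B M) hr (a3_blkK (by omega) h1 h2)
          (a3_farB h1 h2) hU
        have : ((NC src tgt (a3K M) (a3B M) (↑F : Set Edg) : ℕ) : ℝ) ≤
            NC src tgt (a3K M) (a3B M) (↑(F ∪ blk c1 r) : Set Edg) := by exact_mod_cast h3
        linarith)
      (by
        intro c1 hc1 F hF hD
        obtain ⟨h1, h2⟩ := hTb c1 hc1
        have h3 := NC_cut (K := a3K M) (B := a3B M) (a3_blkK (by omega) h1 h2)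
          (a3_farB h1 h2) hD
        have : ((NC src tgt (a3K M) (a3B M) (↑(F \ blk c1 r) : Set Edg) : ℕ) : ℝ) ≤
            NC src tgt (a3K M) (a3B M) (↑F : Set Edg) := by exact_mod_cast h3
        linarith) hMb
    -- each term is at least the four-arm probability
    have hterm : ∀ c1 ∈ T, PQ q S (fun F => X4 c r R (↑F : Set Edg)) ≤
        Ex (fun _ => q) S0 (fun F => -((NC src tgt (a3K M) (a3B M)
          (↑(F ∪ blk c1 r) : Set Edg) : ℕ) : ℝ) -
          -((NC src tgt (a3K M) (a3B M) (↑(F \ blk c1 r) : Set Edg) : ℕ) : ℝ)) := by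
      intro c1 hc1
      obtain ⟨h1, h2⟩ := hTb c1 hc1
      have e1 := a3_pr_eq q c c1 r R S (S0 ∪ (blk c1 R \ blk c1 r)) hS Finset.subset_union_right
      rw [e1]
      have e2 := Ex_local (p := fun _ => q) (S := S0 ∪ (blk c1 R \ blk c1 r)) (S' := S0)
        Finset.subset_union_left
        (f := fun F => -((NC src tgt (a3K M) (a3B M)
          (↑((F ∩ S0) ∪ blk c1 r) : Set Edg) : ℕ) : ℝ) -
          -((NC src tgt (a3K M) (a3B M) (↑((F ∩ S0) \ blk c1 r) : Set Edg) : ℕ) : ℝ))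
        (fun F _ => by simp only [Finset.inter_assoc, Finset.inter_self])
      have e3 : Ex (fun _ => q) S0 (fun F => -((NC src tgt (a3K M) (a3B M)
          (↑(F ∪ blk c1 r) : Set Edg) : ℕ) : ℝ) -
          -((NC src tgt (a3K M) (a3B M) (↑(F \ blk c1 r) : Set Edg) : ℕ) : ℝ)) =
          Ex (fun _ => q) S0 (fun F => -((NC src tgt (a3K M) (a3B M)
          (↑((F ∩ S0) ∪ blk c1 r) : Set Edg) : ℕ) : ℝ) -
          -((NC src tgt (a3K M) (a3B M) (↑((F ∩ S0) \ blk c1 r) : Set Edg) : ℕ) : ℝ)) := by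
        apply Ex_congr
        intro F hF
        rw [Finset.inter_eq_left.2 hF]
      rw [e3, ← e2]
      unfold PQ Pr
      apply Ex_mono ok
      intro F _
      have hmono : ((NC src tgt (a3K M) (a3B M) (↑((F ∩ S0) ∪ blk c1 r) : Set Edg) : ℕ) : ℝ) ≤
          NC src tgt (a3K M) (a3B M) (↑((F ∩ S0) \ blk c1 r) : Set Edg) := by
        have h3 := NC_union (K := a3K M) (B := a3B M)
          (F := (↑((F ∩ S0) \ blk c1 r) : Set Edg)) (blk c1 r) (a3_blkK (by omega) h1 h2)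
        rw [← Finset.coe_union, Finset.sdiff_union_self_eq_union] at h3
        exact_mod_cast h3
      by_cases hX : X4 c1 r R (↑F : Set Edg)
      · rw [ind_of hX]
        have h3 := a3_merge (M := M) hM4 h1 h2 F hX
        rw [← hS0] at h3
        have h4 : ((NC src tgt (a3K M) (a3B M) (↑((F ∩ S0) ∪ blk c1 r) : Set Edg) : ℕ) : ℝ) + 1 ≤
          NC src tgt (a3K M) (a3B M) (↑((F ∩ S0) \ blk c1 r) : Set Edg) := by exact_mod_cast h3
        linarith
      · rw [ind_not_of hX]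
        linarith
    have hsum : (T.card : ℝ) * PQ q S (fun F => X4 c r R (↑F : Set Edg)) ≤
        Real.sqrt (T.card * (2 * κ⁻¹ ^ 4) * (2 / (κ ^ 4) ^ 2)) := by
      refine le_trans ?_ hmain
      rw [← nsmul_eq_mul, ← Finset.sum_const]
      exact Finset.sum_le_sum hterm
    set P := PQ q S (fun F => X4 c r R (↑F : Set Edg)) with hP
    have hP0 : 0 ≤ P := Pr_nonneg ok _ _
    have hs : Real.sqrt (T.card * (2 * κ⁻¹ ^ 4) * (2 / (κ ^ 4) ^ 2)) =
        (2 * L + 1) * (2 * κ⁻¹ ^ 6) := by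
      have : (T.card : ℝ) * (2 * κ⁻¹ ^ 4) * (2 / (κ ^ 4) ^ 2) =
          ((2 * L + 1) * (2 * κ⁻¹ ^ 6)) ^ 2 := by
        rw [hTcard]
        push_cast
        field_simp
      rw [this, Real.sqrt_sq (by positivity)]
    rw [hs, hTcard] at hsum
    push_cast at hsum
    have hL0 : (0 : ℝ) ≤ L := by positivity
    have h5 : (2 * (L : ℝ) + 1) * P ≤ 2 * κ⁻¹ ^ 6 := by
      have h6 : (2 * (L : ℝ) + 1) * ((2 * (L : ℝ) + 1) * P) ≤ (2 * L + 1) * (2 * κ⁻¹ ^ 6) := by
        calc (2 * (L : ℝ) + 1) * ((2 * (L : ℝ) + 1) * P) = (2 * (L : ℝ) + 1) ^ 2 * P := by ring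
          _ ≤ _ := hsum
      exact le_of_mul_le_mul_left h6 (by positivity)
    have h7 : (M : ℝ) ≤ 14 * r * (L + 1) := by exact_mod_cast hL2.le
    have h8 : (R : ℝ) ≤ 8 * M := by exact_mod_cast hM8
    have h9 : (R : ℝ) * P ≤ 224 * κ⁻¹ ^ 6 * r := by
      calc (R : ℝ) * P ≤ (8 * (14 * r * (L + 1))) * P :=
            mul_le_mul_of_nonneg_right (by linarith) hP0
        _ ≤ (112 * r) * ((2 * (L : ℝ) + 1) * P) := by
            have h10 : ((L : ℝ) + 1) * P ≤ (2 * (L : ℝ) + 1) * P :=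
              mul_le_mul_of_nonneg_right (by linarith) hP0
            calc (8 * (14 * r * ((L : ℝ) + 1))) * P = (112 * r) * (((L : ℝ) + 1) * P) := by ring
              _ ≤ _ := mul_le_mul_of_nonneg_left h10 (by positivity)
        _ ≤ (112 * r) * (2 * κ⁻¹ ^ 6) := mul_le_mul_of_nonneg_left h5 (by positivity)
        _ = 224 * κ⁻¹ ^ 6 * r := by ring
    have h11 : P ≤ 224 * κ⁻¹ ^ 6 * ((r : ℝ) / R) := by
      rw [← mul_div_assoc, le_div_iff₀ (by linarith)]
      linarith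
    have h12 : 0 ≤ 200 * ((r : ℝ) / R) := by positivity
    rw [add_mul]
    linarith

end H31A
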