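import Pool.Agent.H31R4.Alp.Defs
import Pool.Agent.H973R3.NC.DV

/-! Task B1: symmetry of the third difference. -/

set_option maxHeartbeats 400000

namespace H31A

open H974 H12S H973N Finset

theorem b1_sd {f : Finset Edg → Prop} (hf : ∀ F G : Finset Edg, F ⊆ G → f F → f G) {e g : Edg}
    (heg : e ≠ g) {F : Finset Edg} (he : e ∉ F) (hg : g ∉ F) :
    SD f e g F ↔ ind (f (insert e (insert g F))) - ind (f (insert e F)) - ind (f (insert g F))
      + ind (f F) ≠ 0 := by
  have e1 : F.erase g = F := erase_eq_of_notMem hg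
  have e2 : F.erase e = F := erase_eq_of_notMem he
  have e3 : (insert g F).erase e = insert g F := by
    rw [erase_insert_of_ne heg.symm, e2]
  have e4 : (insert e F).erase g = insert e F := by
    rw [erase_insert_of_ne heg, e1]
  have e5 : insert g (insert e F) = insert e (insert g F) := Finset.insert_comm _ _ _
  unfold SD Pf
  rw [e1, e2, e1, e3, e4, e5]
  have m1 : f F → f (insert e F) := hf _ _ (subset_insert _ _)
  have m2 : f F → f (insert g F) := hf _ _ (subset_insert _ _)
  have m3 : f (insert e F) → f (insert e (insert g F)) :=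
    hf _ _ (insert_subset_insert _ (subset_insert _ _))
  have m4 : f (insert g F) → f (insert e (insert g F)) := hf _ _ (subset_insert _ _)
  by_cases hA : f F
  · have hB := m1 hA
    have hC := m2 hA
    have hD := m3 hB
    rw [ind_of hA, ind_of hB, ind_of hC, ind_of hD]
    constructor
    · rintro ⟨_, _, _, h⟩
      exact absurd hA h
    · intro h
      exact absurd (by norm_num) h
  · by_cases hD : f (insert e (insert g F))
    · by_cases hB : f (insert e F) <;> by_cases hC : f (insert g F)
      · rw [ind_not_of hA, ind_of hB, ind_of hC, ind_of hD]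
        constructor
        · intro _; norm_num
        · intro _; exact ⟨Or.inl ⟨hB, hA⟩, Or.inl ⟨hC, hA⟩, hD, hA⟩
      · rw [ind_not_of hA, ind_of hB, ind_not_of hC, ind_of hD]
        constructor
        · rintro ⟨_, h | h, _⟩
          · exact absurd h.1 hC
          · exact absurd hB h.2
        · intro h; exact absurd (by norm_num) h
      · rw [ind_not_of hA, ind_not_of hB, ind_of hC, ind_of hD]
        constructor
        · rintro ⟨h | h, _⟩
          · exact absurd h.1 hB
          · exact absurd hC h.2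
        · intro h; exact absurd (by norm_num) h
      · rw [ind_not_of hA, ind_not_of hB, ind_not_of hC, ind_of hD]
        constructor
        · intro _; norm_num
        · intro _; exact ⟨Or.inr ⟨hD, hC⟩, Or.inr ⟨hD, hB⟩, hD, hA⟩
    · have hB : ¬ f (insert e F) := fun h => hD (m3 h)
      have hC : ¬ f (insert g F) := fun h => hD (m4 h)
      rw [ind_not_of hA, ind_not_of hB, ind_not_of hC, ind_not_of hD]
      constructor
      · rintro ⟨_, _, h, _⟩
        exact absurd h hD
      · intro h; exact absurd (by norm_num) h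

theorem b1_mono (a : Edg) (F G : Finset Edg) (h : F ⊆ G) :
    Cn {src a} {tgt a} (↑F : Set Edg) → Cn {src a} {tgt a} (↑G : Set Edg) := by
  rintro ⟨u, hu, v, hv, hr⟩
  exact ⟨u, hu, v, hv, hr.mono (Finset.coe_subset.2 h)⟩

theorem b1_ind (K : Finset Vtx) (a : Edg) (hs : src a ∈ K) (ht : tgt a ∈ K) (G : Finset Edg) :
    ind (Cn {src a} {tgt a} (↑G : Set Edg)) =
      1 - ((NC src tgt K Set.univ (↑G : Set Edg) : ℝ) -
        NC src tgt K Set.univ (↑(insert a G) : Set Edg)) := by
  have h := NC_insert (s := src) (t := tgt) (K := K) (B := Set.univ) (F := (↑G : Set Edg))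
    (e := a) hs ht
  rw [Finset.coe_insert, h]
  have h1 : (RB src tgt Set.univ (↑G : Set Edg) (src a) ∧ RB src tgt Set.univ (↑G : Set Edg) (tgt a)
      ∧ ¬ GR src tgt (↑G : Set Edg) (src a) (tgt a)) ↔ ¬ Cn {src a} {tgt a} (↑G : Set Edg) := by
    constructor
    · rintro ⟨_, _, h⟩ ⟨u, hu, v, hv, hr⟩
      rw [Set.mem_singleton_iff] at hu hv
      subst hu hv
      exact h (reach_GR.1 hr)
    · intro h
      refine ⟨⟨_, Set.mem_univ _, GR.refl _ _⟩, ⟨_, Set.mem_univ _, GR.refl _ _⟩, ?_⟩
      intro hr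
      exact h ⟨src a, rfl, tgt a, rfl, reach_GR.2 hr⟩
  rw [ind_congr h1, ind_not]
  ring

/-- B1 -/
theorem SD_sym {a b z : Edg} (hab : a ≠ b) (haz : a ≠ z) (hbz : b ≠ z) {F : Finset Edg}
    (haF : a ∉ F) (hbF : b ∉ F) (hzF : z ∉ F) :
    SD (fun F => Cn {src a} {tgt a} (↑F : Set Edg)) b z F ↔
      SD (fun F => Cn {src z} {tgt z} (↑F : Set Edg)) a b F := by
  rw [b1_sd (f := fun F : Finset Edg => Cn {src a} {tgt a} (↑F : Set Edg)) (b1_mono a) hbz hbF hzF,
    b1_sd (f := fun F : Finset Edg => Cn {src z} {tgt z} (↑F : Set Edg)) (b1_mono z) hab haF hbF]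
  set K : Finset Vtx := {src a, tgt a, src z, tgt z} with hK
  have h1 : src a ∈ K := by simp [hK]
  have h2 : tgt a ∈ K := by simp [hK]
  have h3 : src z ∈ K := by simp [hK]
  have h4 : tgt z ∈ K := by simp [hK]
  rw [b1_ind K a h1 h2, b1_ind K a h1 h2, b1_ind K a h1 h2, b1_ind K a h1 h2,
    b1_ind K z h3 h4, b1_ind K z h3 h4, b1_ind K z h3 h4, b1_ind K z h3 h4]
  have c1 : insert z (insert a (insert b F)) = insert a (insert b (insert z F)) := by
    rw [Finset.insert_comm z a, Finset.insert_comm z b]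
  have c2 : insert z (insert a F) = insert a (insert z F) := Finset.insert_comm _ _ _
  have c3 : insert z (insert b F) = insert b (insert z F) := Finset.insert_comm _ _ _
  rw [c1, c2, c3]
  apply not_congr
  constructor <;> intro h <;> linarith

theorem b1_comm (f : Finset Edg → Prop) (e g : Edg) (F : Finset Edg) :
    SD f e g F ↔ SD f g e F := by
  unfold SD
  rw [Finset.insert_comm e g, erase_right_comm (a := e) (b := g)]
  constructor
  · rintro ⟨h1, h2, h3, h4⟩
    exact ⟨h2, h1, h3, h4⟩
  · rintro ⟨h1, h2, h3, h4⟩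
    exact ⟨h2, h1, h3, h4⟩

/-- B1 -/
theorem t3_comm (q : ℝ) (Λ : Finset Edg) (a b z : Edg) : t3 q Λ a b z = t3 q Λ a z b := by
  unfold t3
  apply Pr_congr
  intro F _
  exact b1_comm _ _ _ _

theorem b1_dom (q : ℝ) (S : Finset Edg) (f : Finset Edg → Prop) {e g : Edg} (heg : e ≠ g) :
    PQ q S (SD f e g) = PQ q ((S.erase g).erase e) (SD f e g) := by
  have h1 : Pr (fun _ => q) S (SD f e g) = Pr (fun _ => q) (S.erase g) (SD f e g) :=
    Pr_local (erase_subset g S) (dv_SD_local heg.symm)
  have h2 : Pr (fun _ => q) (S.erase g) (SD f e g) = Pr (fun _ => q) (S.erase g) (SD f g e) :=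
    Pr_congr (fun F _ => b1_comm _ _ _ _)
  have h3 : Pr (fun _ => q) (S.erase g) (SD f g e) =
      Pr (fun _ => q) ((S.erase g).erase e) (SD f g e) :=
    Pr_local (erase_subset e _) (dv_SD_local heg)
  have h4 : Pr (fun _ => q) ((S.erase g).erase e) (SD f g e) =
      Pr (fun _ => q) ((S.erase g).erase e) (SD f e g) :=
    Pr_congr (fun F _ => b1_comm _ _ _ _)
  exact h1.trans (h2.trans (h3.trans h4))

/-- B1 -/
theorem t3_sym (q : ℝ) {Λ : Finset Edg} {a b z : Edg} (hab : a ≠ b) (haz : a ≠ z) (hbz : b ≠ z)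
    (ha : a ∈ Λ) (hb : b ∈ Λ) (hz : z ∈ Λ) : t3 q Λ a b z = t3 q Λ z a b := by
  unfold t3
  rw [b1_dom q _ _ hbz, b1_dom q _ _ hab]
  have hd : ((Λ.erase z).erase b).erase a = ((Λ.erase a).erase z).erase b := by
    rw [erase_right_comm (s := Λ.erase z), erase_right_comm (s := Λ)]
  rw [hd]
  apply Pr_congr
  intro F hF
  have haF : a ∉ F := fun h => by
    have := hF h
    simp only [mem_erase] at this
    exact this.2.2.1 rfl
  have hbF : b ∉ F := fun h => by
    have := hF h
    simp only [mem_erase] at this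
    exact this.1 rfl
  have hzF : z ∉ F := fun h => by
    have := hF h
    simp only [mem_erase] at this
    exact this.2.1 rfl
  exact SD_sym hab haz hbz haF hbF hzF

end H31A
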