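import Pool.Agent.H31R4.Alp.Defs
import Pool.Agent.H973R3.NC.NP

/-! Task B2: pair far from the third edge. -/

set_option maxHeartbeats 400000

namespace H31A

open H974 H12S H973N Finset

theorem b2_X4_congr {c : ℤ × ℤ} {r R : ℕ} {F F' : Finset Edg}
    (h : ∀ g ∈ blk c R, g ∉ blk c r → (g ∈ F ↔ g ∈ F')) : X4 c r R ↑F ↔ X4 c r R ↑F' := by
  have e1 : (↑F : Set Edg) ∩ ↑(blk c R \ blk c r) = (↑F' : Set Edg) ∩ ↑(blk c R \ blk c r) := by
    ext g
    simp only [Set.mem_inter_iff, Finset.mem_coe, Finset.mem_sdiff]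
    constructor
    · rintro ⟨h1, h2, h3⟩
      exact ⟨(h g h2 h3).1 h1, h2, h3⟩
    · rintro ⟨h1, h2, h3⟩
      exact ⟨(h g h2 h3).2 h1, h2, h3⟩
  unfold X4
  rw [e1]

/-- Arms from the ends of `s`, `t` to the block. -/
theorem b2_key {s t : Vtx} {B F : Finset Edg} {c : ℤ × ℤ} {m : ℕ} (hB : B = blk c m)
    (h : Bf (fun F => Cn {s} {t} (↑F : Set Edg)) B F) :
    (∃ u, inR (c.1 - m) (c.1 + m) (c.2 - m) (c.2 + m) u ∧ Reach (↑(F \ B) : Set Edg) s u) ∧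
    (∃ v, inR (c.1 - m) (c.1 + m) (c.2 - m) (c.2 + m) v ∧ Reach (↑(F \ B) : Set Edg) t v) ∧
    ¬ Reach (↑(F \ B) : Set Edg) s t := by
  obtain ⟨⟨u, hu, v, hv, huv⟩, h2⟩ := h
  rw [Set.mem_singleton_iff] at hu hv
  subst hu hv
  have hst : ¬ Reach (↑(F \ B) : Set Edg) u v := fun h3 => h2 ⟨u, rfl, v, rfl, h3⟩
  have key : ∀ a w : Vtx, Reach (↑(F ∪ B) : Set Edg) a w →
      Reach (↑(F \ B) : Set Edg) a w ∨ ∃ x, inR (c.1 - m) (c.1 + m) (c.2 - m) (c.2 + m) x ∧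
        Reach (↑(F \ B) : Set Edg) a x := by
    intro a w hw
    induction hw with
    | refl => exact Or.inl (Reach.refl _ _)
    | @tail w w' _ hs ih =>
      rcases ih with ih | ih
      · obtain ⟨e, he, hc⟩ := hs
        by_cases heB : e ∈ B
        · right
          rw [hB] at heB
          have hb := BS_adj_box heB
          refine ⟨w, ?_, ih⟩
          rcases hc with ⟨h1, h2⟩ | ⟨h1, h2⟩
          · rw [← h1]; exact hb.1
          · rw [← h2]; exact hb.2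
        · left
          have he' : e ∈ F := by
            rcases Finset.mem_union.1 (Finset.mem_coe.1 he) with h | h
            · exact h
            · exact absurd h heB
          exact ih.trans (Adj.reach ⟨e, Finset.mem_coe.2 (Finset.mem_sdiff.2 ⟨he', heB⟩), hc⟩)
      · exact Or.inr ih
  refine ⟨?_, ?_, hst⟩
  · rcases key u v huv with h1 | h1
    · exact absurd h1 hst
    · exact h1
  · rcases key v u huv.symm with h1 | h1
    · exact absurd h1.symm hst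
    · exact h1

/-- The two arms of the annulus. -/
theorem b2_X4 {s t : Vtx} {F : Finset Edg} {c : ℤ × ℤ} {r R : ℕ} (hrR : r ≤ R)
    (hs : BSfar c R s) (ht : BSfar c R t)
    (h : Bf (fun F => Cn {s} {t} (↑F : Set Edg)) (blk c r) F) : X4 c r R ↑F := by
  obtain ⟨⟨u, hu, hsu⟩, ⟨v, hv, htv⟩, hst⟩ := b2_key rfl h
  have e1 : (↑(F \ blk c r) : Set Edg) ∩ ↑(RE (c.1 - R) (c.1 + R) (c.2 - R) (c.2 + R)) =
      (↑F : Set Edg) ∩ ↑(blk c R \ blk c r) := by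
    ext g
    unfold blk
    simp only [Set.mem_inter_iff, Finset.mem_coe, Finset.mem_sdiff]
    tauto
  have hbig : ∀ x : Vtx, inR (c.1 - r) (c.1 + r) (c.2 - r) (c.2 + r) x →
      inR (c.1 - R) (c.1 + R) (c.2 - R) (c.2 + R) x := by
    intro x hx
    unfold inR at hx ⊢
    omega
  refine ⟨u, v, hu, hv, ?_, ?_, ?_⟩
  · obtain ⟨w, k1, k2, k3⟩ := first_exit (hbig u hu) hsu.symm hs
    rw [e1] at k3
    exact ⟨w, ⟨k1, k2⟩, k3⟩
  · obtain ⟨w, k1, k2, k3⟩ := first_exit (hbig v hv) htv.symm ht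
    rw [e1] at k3
    exact ⟨w, ⟨k1, k2⟩, k3⟩
  · intro h5
    rw [← e1] at h5
    exact hst (hsu.trans ((h5.mono Set.inter_subset_left).trans htv.symm))

theorem b2_far {c b : Edg} {R R' : ℕ} (hd : (R:ℤ) + R' + 2 ≤ dst c b) :
    ((c.1 + (R + R' + 2) ≤ b.1) ∨ (b.1 + (R + R' + 2) ≤ c.1)) ∨
    ((c.2.1 + (R + R' + 2) ≤ b.2.1) ∨ (b.2.1 + (R + R' + 2) ≤ c.2.1)) := by
  unfold dst at hd
  rcases le_max_iff.1 hd with h | h
  · rcases le_abs.1 h with h | h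
    · left; right; linarith
    · left; left; linarith
  · rcases le_abs.1 h with h | h
    · right; right; linarith
    · right; left; linarith

theorem b2_ends (c : Edg) : (c.1 ≤ (tgt c).1 ∧ (tgt c).1 ≤ c.1 + 1) ∧
    (c.2.1 ≤ (tgt c).2 ∧ (tgt c).2 ≤ c.2.1 + 1) := by
  obtain ⟨x, y, _ | _⟩ := c
  · rw [tgt_false]
    simp only
    omega
  · rw [tgt_true]
    simp only
    omega

theorem b2_src (c : Edg) : (src c).1 = c.1 ∧ (src c).2 = c.2.1 := by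
  obtain ⟨x, y, b⟩ := c
  rw [src_mk]
  exact ⟨rfl, rfl⟩

/-- Everything implied by the second difference. -/
theorem b2_ev {Λ : Finset Edg} {c b z : Edg} {ρ R R' : ℕ}
    (hρ : dst b z + 1 ≤ ρ) (hρR : ρ ≤ R) (hR' : 1 ≤ R')
    (hd : (R:ℤ) + R' + 2 ≤ dst c b) {F : Finset Edg} (hF : F ⊆ Λ.erase c)
    (h : SD (fun F => Cn {src c} {tgt c} (↑F : Set Edg)) b z F) :
    X4 (bp b) ρ R ↑F ∧ L4 R' c ↑F := by
  have hcF : c ∉ F := fun h => Finset.notMem_erase c Λ (hF h)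
  have hρ1 : (ρ:ℤ) ≤ R := by exact_mod_cast hρR
  have hR1 : (1:ℤ) ≤ R' := by exact_mod_cast hR'
  have hdst0 : dst b z ≤ dst b z := le_rfl
  obtain ⟨⟨z1, z2⟩, z3, z4⟩ := NP.dst_le hdst0
  have hnn : 0 ≤ dst b z := by
    unfold dst
    exact (abs_nonneg _).trans (le_max_left _ _)
  have hbB : b ∈ blk (bp b) ρ := by
    unfold blk bp
    apply NP.RE_strong
    refine ⟨⟨?_, ?_⟩, ?_, ?_⟩ <;> simp only <;> linarith
  have hzB : z ∈ blk (bp b) ρ := by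
    unfold blk bp
    apply NP.RE_strong
    refine ⟨⟨?_, ?_⟩, ?_, ?_⟩ <;> simp only <;> linarith
  have hBf := NP.SD_Bf hbB hzB h
  have hf := b2_far hd
  obtain ⟨⟨t1, t2⟩, t3, t4⟩ := b2_ends c
  obtain ⟨s1, s2⟩ := b2_src c
  refine ⟨b2_X4 hρR ?_ ?_ hBf, ?_⟩
  · unfold BSfar bp
    simp only
    rw [s1, s2]
    omega
  · unfold BSfar bp
    simp only
    omega
  · obtain ⟨⟨u, hu, hsu⟩, ⟨v, hv, htv⟩, hst⟩ := b2_key rfl hBf
    have hout : ∀ x : Vtx, inR ((bp b).1 - ρ) ((bp b).1 + ρ) ((bp b).2 - ρ) ((bp b).2 + ρ) x →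
        x.1 ≤ c.1 - R' ∨ c.1 + R' ≤ x.1 ∨ x.2 ≤ c.2.1 - R' ∨ c.2.1 + R' ≤ x.2 := by
      intro x hx
      unfold inR bp at hx
      simp only at hx
      omega
    have hsub : (↑(F \ blk (bp b) ρ) : Set Edg) ∩
        ↑(RE (c.1 - R') (c.1 + R') (c.2.1 - R') (c.2.1 + R')) ⊆
        ((↑F : Set Edg) ∩ ↑(RE (c.1 - R') (c.1 + R') (c.2.1 - R') (c.2.1 + R'))) \ {c} := by
      intro g hg
      simp only [Set.mem_inter_iff, Finset.mem_coe, Finset.mem_sdiff] at hg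
      refine ⟨⟨Finset.mem_coe.2 hg.1.1, Finset.mem_coe.2 hg.2⟩, ?_⟩
      intro hgc
      rw [Set.mem_singleton_iff] at hgc
      exact hcF (hgc ▸ hg.1.1)
    have hsR : inR (c.1 - R') (c.1 + R') (c.2.1 - R') (c.2.1 + R') (src c) := by
      unfold inR
      rw [s1, s2]
      omega
    have htR : inR (c.1 - R') (c.1 + R') (c.2.1 - R') (c.2.1 + R') (tgt c) := by
      unfold inR
      omega
    refine ⟨?_, ?_, ?_⟩
    · obtain ⟨w, k1, k2, k3⟩ := first_exit hsR hsu (hout u hu)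
      exact ⟨w, ⟨k1, k2⟩, k3.mono hsub⟩
    · obtain ⟨w, k1, k2, k3⟩ := first_exit htR htv (hout v hv)
      exact ⟨w, ⟨k1, k2⟩, k3.mono hsub⟩
    · intro h5
      apply h.2.2.2
      refine ⟨src c, rfl, tgt c, rfl, h5.mono ?_⟩
      rintro g ⟨⟨g1, g2⟩, g3⟩
      rw [Finset.mem_coe] at g1 g2
      rw [Finset.mem_coe, Finset.mem_erase, Finset.mem_erase]
      obtain ⟨⟨p1, p2⟩, p3, p4⟩ := NP.RE_weak g2
      refine ⟨?_, ?_, g1⟩
      · rintro rfl
        omega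
      · rintro rfl
        omega

theorem b2_c_notin {c b : Edg} {R R' : ℕ} (hd : (R:ℤ) + R' + 2 ≤ dst c b) :
    c ∉ blk (bp b) R := by
  intro h
  have hf := b2_far hd
  unfold blk bp at h
  obtain ⟨⟨p1, p2⟩, p3, p4⟩ := NP.RE_weak h
  simp only at p1 p2 p3 p4
  omega

theorem b2_disj {c b : Edg} {R R' : ℕ} (hd : (R:ℤ) + R' + 2 ≤ dst c b) {g : Edg}
    (h : g ∈ blk (bp b) R) (h' : g ∈ blk (bp c) R') : False := by
  have hf := b2_far hd
  unfold blk bp at h h'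
  obtain ⟨⟨p1, p2⟩, p3, p4⟩ := NP.RE_weak h
  obtain ⟨⟨r1, r2⟩, r3, r4⟩ := NP.RE_weak h'
  simp only at p1 p2 p3 p4 r1 r2 r3 r4
  omega

/-- The two far events are independent. -/
theorem b2_two {q : ℝ} (h0 : 0 ≤ q) (h1 : q ≤ 1) {Λ : Finset Edg} {c b : Edg} {ρ R R' : ℕ}
    (hd : (R:ℤ) + R' + 2 ≤ dst c b) (hS : blk (bp b) R ⊆ Λ) (hS' : blk (bp c) R' ⊆ Λ) :
    PQ q (Λ.erase c) (fun F => X4 (bp b) ρ R ↑F ∧ L4 R' c ↑F) ≤
      PQ q (Λ.erase c) (fun F => X4 (bp b) ρ R ↑F) * a4 q R' := by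
  have hOk : Ok (fun _ : Edg => q) := fun _ => ⟨h0, h1⟩
  have hi : PQ q (Λ.erase c) (fun F => X4 (bp b) ρ R ↑F ∧ L4 R' c ↑F) =
      PQ q (Λ.erase c) (fun F => X4 (bp b) ρ R ↑F) * PQ q (Λ.erase c) (fun F => L4 R' c ↑F) := by
    refine Pr_indep (S := blk (bp b) R) (T := (blk (bp c) R').erase c) ?_ ?_ ?_ ?_ ?_
    · intro g hg
      rw [Finset.mem_erase]
      exact ⟨fun h => b2_c_notin hd (h ▸ hg), hS hg⟩
    · exact Finset.erase_subset_erase c hS'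
    · rw [Finset.disjoint_left]
      intro g hg hg'
      exact b2_disj hd hg (Finset.mem_of_mem_erase hg')
    · intro F _
      apply b2_X4_congr
      intro g hg _
      rw [Finset.mem_inter]
      exact ⟨fun h => ⟨h, hg⟩, fun h => h.1⟩
    · intro F _
      apply NP.L4_congr'
      intro g hg hne
      rw [Finset.mem_inter, Finset.mem_erase]
      exact ⟨fun h => ⟨h, hne, hg⟩, fun h => h.1⟩
  rw [hi]
  apply mul_le_mul_of_nonneg_left _ (Pr_nonneg hOk _ _)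
  have e1 : PQ q (Λ.erase c) (fun F => L4 R' c ↑F) =
      PQ q ((blk (bp c) R').erase c) (fun F => L4 R' c ↑F) := by
    refine Pr_local (Finset.erase_subset_erase c hS') ?_
    intro F _
    apply NP.L4_congr'
    intro g hg hne
    rw [Finset.mem_inter, Finset.mem_erase]
    exact ⟨fun h => ⟨h, hne, hg⟩, fun h => h.1⟩
  have e2 : PQ q Λ (fun F => L4 R' c ↑F) =
      PQ q ((blk (bp c) R').erase c) (fun F => L4 R' c ↑F) := by
    refine Pr_local ((Finset.erase_subset c _).trans hS') ?_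
    intro F _
    apply NP.L4_congr'
    intro g hg hne
    rw [Finset.mem_inter, Finset.mem_erase]
    exact ⟨fun h => ⟨h, hne, hg⟩, fun h => h.1⟩
  rw [e1, ← e2]
  exact pr_L4 h0 h1 hS'

/-- B2 : a pair at distance `> R + R'` of `c`, without local events. -/
theorem far1 {q : ℝ} (h0 : 0 ≤ q) (h1 : q ≤ 1) {Λ : Finset Edg} {c b z : Edg} {ρ R R' : ℕ}
    (hbz : b ≠ z) (hρ : dst b z + 1 ≤ ρ) (hρR : ρ ≤ R) (hR' : 1 ≤ R')
    (hd : (R:ℤ) + R' + 2 ≤ dst c b) (hS : blk (bp b) R ⊆ Λ) (hS' : blk (bp c) R' ⊆ Λ) :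
    t3 q Λ c b z ≤ PQ q (Λ.erase c) (fun F => X4 (bp b) ρ R ↑F) * a4 q R' := by
  have hOk : Ok (fun _ : Edg => q) := fun _ => ⟨h0, h1⟩
  unfold t3
  refine le_trans ?_ (b2_two h0 h1 hd hS hS')
  refine Pr_mono hOk ?_
  intro F hF h
  exact b2_ev hρ hρR hR' hd hF h

/-- B2 : with local events. -/
theorem far2 {q : ℝ} (h0 : 0 ≤ q) (h1 : q ≤ 1) {Λ : Finset Edg} {c b z : Edg} {k ρ R R' : ℕ}
    (hk : 1 ≤ k) (hbz : 2 * (k:ℤ) < dst b z) (hρ : dst b z + k ≤ ρ) (hρR : ρ ≤ R) (hR' : 1 ≤ R')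
    (hd : (R:ℤ) + R' + 2 ≤ dst c b) (hS : blk (bp b) R ⊆ Λ) (hS' : blk (bp c) R' ⊆ Λ) :
    t3 q Λ c b z ≤ a4 q k ^ 2 * (PQ q (Λ.erase c) (fun F => X4 (bp b) ρ R ↑F) * a4 q R') := by
  have hOk : Ok (fun _ : Edg => q) := fun _ => ⟨h0, h1⟩
  have hk1 : (1:ℤ) ≤ k := by exact_mod_cast hk
  have hρR1 : (ρ:ℤ) ≤ R := by exact_mod_cast hρR
  have hdst0 : dst b z ≤ dst b z := le_rfl
  obtain ⟨⟨z1, z2⟩, z3, z4⟩ := NP.dst_le hdst0
  have hf := b2_far hd
  obtain ⟨⟨t1, t2⟩, t3', t4⟩ := b2_ends c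
  obtain ⟨s1, s2⟩ := b2_src c
  -- inclusions of the blocks
  have hbρ : blk (bp b) k ⊆ blk (bp b) ρ := by
    unfold blk bp
    apply RE_subset <;> simp only <;> linarith
  have hzρ : blk (bp z) k ⊆ blk (bp b) ρ := by
    unfold blk bp
    apply RE_subset <;> simp only <;> linarith
  have hρR' : blk (bp b) ρ ⊆ blk (bp b) R := by
    unfold blk bp
    apply RE_subset <;> simp only <;> linarith
  have hsub : blk (bp b) R ⊆ Λ.erase c := by
    intro g hg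
    rw [Finset.mem_erase]
    exact ⟨fun h => b2_c_notin hd (h ▸ hg), hS hg⟩
  have hbz' : ∀ x ∈ blk (bp z) k, x ∉ blk (bp b) k := by
    intro x hx hx'
    unfold blk bp at hx hx'
    obtain ⟨⟨p1, p2⟩, p3, p4⟩ := NP.RE_weak hx
    obtain ⟨⟨r1, r2⟩, r3, r4⟩ := NP.RE_weak hx'
    simp only at p1 p2 p3 p4 r1 r2 r3 r4
    have : dst b z ≤ 2 * k := by
      unfold dst
      apply max_le <;> rw [abs_le] <;> constructor <;> linarith
    linarith
  have hball : ∀ x : Edg, x ∈ blk (bp x) k := by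
    intro x
    unfold blk bp
    apply NP.RE_strong
    refine ⟨⟨?_, ?_⟩, ?_, ?_⟩ <;> simp only <;> linarith
  have hz1 : z ∉ blk (bp b) k := hbz' z (hball z)
  have hb1 : b ∉ blk (bp z) k := fun h => hbz' b h (hball b)
  have hOb : Off (b.1 - k) (b.1 + k) (b.2.1 - k) (b.2.1 + k) {src c} {tgt c} := by
    rintro v (hv | hv)
    · rw [Set.mem_singleton_iff] at hv
      subst hv
      rw [s1, s2]
      omega
    · rw [Set.mem_singleton_iff] at hv
      subst hv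
      omega
  have hOz : Off (z.1 - k) (z.1 + k) (z.2.1 - k) (z.2.1 + k) {src c} {tgt c} := by
    rintro v (hv | hv)
    · rw [Set.mem_singleton_iff] at hv
      subst hv
      rw [s1, s2]
      omega
    · rw [Set.mem_singleton_iff] at hv
      subst hv
      omega
  have hdR : ∀ g, g ∈ blk (bp b) R → g ∉ blk (bp c) R' := fun g hg hg' => b2_disj hd hg hg'
  have ha : 0 ≤ a4 q k := (Pr_nonneg hOk _ _).trans (pr_L4 h0 h1 (hbρ.trans (hρR'.trans hsub)))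
  -- locality of the far events
  have hX : ∀ (x : Edg), blk (bp x) k ⊆ blk (bp b) ρ → ∀ F, F ⊆ Λ.erase c →
      ((X4 (bp b) ρ R ↑F ∧ L4 R' c ↑F) ↔
        (X4 (bp b) ρ R ↑(F ∩ (Λ.erase c \ blk (bp x) k)) ∧
          L4 R' c ↑(F ∩ (Λ.erase c \ blk (bp x) k)))) := by
    intro x hx F hF
    apply and_congr
    · apply b2_X4_congr
      intro g hg hg'
      rw [Finset.mem_inter, Finset.mem_sdiff]
      exact ⟨fun h => ⟨h, hF h, fun h' => hg' (hx h')⟩, fun h => h.1⟩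
    · apply NP.L4_congr'
      intro g hg hne
      rw [Finset.mem_inter, Finset.mem_sdiff]
      exact ⟨fun h => ⟨h, hF h, fun h' => hdR g (hρR' (hx h')) hg⟩, fun h => h.1⟩
  have step1 : t3 q Λ c b z ≤ PQ q (Λ.erase c) (fun F => L4 k b ↑F ∧ (L4 k z ↑F ∧
      (X4 (bp b) ρ R ↑F ∧ L4 R' c ↑F))) := by
    unfold t3
    refine Pr_mono hOk ?_
    intro F hF h
    refine ⟨NP.SD_L4_aux hk hOb hz1 h.1, NP.SD_L4_aux hk hOz hb1 h.2.1,
      b2_ev (by linarith) hρR hR' hd hF h⟩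
  refine step1.trans ?_
  refine (NP.indep_L4 h0 h1 (hbρ.trans (hρR'.trans hsub)) ?_).trans ?_
  · intro F hF
    rw [← hX b hbρ F hF]
    apply and_congr_left
    intro _
    apply NP.L4_congr'
    intro x hx _
    rw [Finset.mem_inter, Finset.mem_sdiff]
    exact ⟨fun h => ⟨h, hF h, hbz' x hx⟩, fun h => h.1⟩
  · rw [sq, mul_assoc]
    apply mul_le_mul_of_nonneg_left _ ha
    refine (NP.indep_L4 h0 h1 (hzρ.trans (hρR'.trans hsub)) (hX z hzρ)).trans ?_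
    exact mul_le_mul_of_nonneg_left (b2_two h0 h1 hd hS hS') ha

end H31A
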