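import Pool.Agent.H31R4.Alp.B4
import Pool.Agent.H973R3.NC.NP

/-! Task B3: three local events. -/

set_option maxHeartbeats 400000

namespace H31A

open H974 H12S H973N H973N.NP Finset

theorem b3_disj {a b : Edg} {k : ℕ} (h : 2 * (k:ℤ) < dst a b) {x : Edg}
    (hx : x ∈ blk (bp a) k) : x ∉ blk (bp b) k := by
  intro hx'
  unfold blk bp at hx hx'
  obtain ⟨⟨p1, p2⟩, p3, p4⟩ := RE_weak hx
  obtain ⟨⟨r1, r2⟩, r3, r4⟩ := RE_weak hx'
  simp only at p1 p2 p3 p4 r1 r2 r3 r4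
  have : dst a b ≤ 2 * k := by
    unfold dst
    apply max_le <;> rw [abs_le] <;> constructor <;> linarith
  linarith

/-- B3 -/
theorem three_loc {q : ℝ} (h0 : 0 ≤ q) (h1 : q ≤ 1) {Λ : Finset Edg} {c b z : Edg} {k : ℕ}
    (hk : 1 ≤ k) (h2 : 2 * (k:ℤ) < dst c b) (h3 : 2 * (k:ℤ) < dst c z) (h4 : 2 * (k:ℤ) < dst b z)
    (hc : blk (bp c) k ⊆ Λ) (hb : blk (bp b) k ⊆ Λ) (hz : blk (bp z) k ⊆ Λ) :
    t3 q Λ c b z ≤ a4 q k ^ 3 := by
  have hok : Ok (fun _ : Edg => q) := fun _ => ⟨h0, h1⟩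
  have hself : ∀ x : Edg, x ∈ blk (bp x) k := fun x => b4_blk (by
    have : dst x x = 0 := by simp [dst]
    omega)
  have hcb : c ∉ blk (bp b) k := b3_disj h2 (hself c)
  have hcz : c ∉ blk (bp z) k := b3_disj h3 (hself c)
  have hbz : b ∉ blk (bp z) k := b3_disj h4 (hself b)
  have hzb : z ∉ blk (bp b) k := b3_disj (by rw [b4_comm]; exact h4) (hself z)
  -- the three local events
  have step1 : t3 q Λ c b z ≤ PQ q (Λ.erase c)
      (fun F => L4 k c ↑F ∧ (L4 k b ↑F ∧ L4 k z ↑F)) := by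
    unfold t3
    refine Pr_mono hok fun F hF h => ?_
    have hcF : c ∉ F := fun h' => (Finset.mem_erase.mp (hF h')).1 rfl
    obtain ⟨k1, k2⟩ := outer_L4 hk h2 (by omega) (by omega) hcF h
    refine ⟨k1, k2, SD_L4_aux hk (b4_Off (by rw [b4_comm]; omega)) hbz h.2.1⟩
  have hL : ∀ (x : Edg) (F F' : Finset Edg), (∀ g ∈ blk (bp x) k, g ≠ x → (g ∈ F ↔ g ∈ F')) →
      (L4 k x (↑F : Set Edg) ↔ L4 k x (↑F' : Set Edg)) := fun x F F' h => L4_congr' h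
  have step2 : PQ q (Λ.erase c) (fun F => L4 k c ↑F ∧ (L4 k b ↑F ∧ L4 k z ↑F)) =
      PQ q Λ (fun F => L4 k c ↑F ∧ (L4 k b ↑F ∧ L4 k z ↑F)) := by
    symm
    refine Pr_local (Finset.erase_subset _ _) fun F hF => ?_
    refine and_congr (hL c _ _ ?_) (and_congr (hL b _ _ ?_) (hL z _ _ ?_))
    · intro g hg hne
      rw [Finset.mem_inter, Finset.mem_erase]
      exact ⟨fun h => ⟨h, hne, hF h⟩, fun h => h.1⟩
    · intro g hg hne
      rw [Finset.mem_inter, Finset.mem_erase]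
      exact ⟨fun h => ⟨h, fun h' => hcb (h' ▸ hg), hF h⟩, fun h => h.1⟩
    · intro g hg hne
      rw [Finset.mem_inter, Finset.mem_erase]
      exact ⟨fun h => ⟨h, fun h' => hcz (h' ▸ hg), hF h⟩, fun h => h.1⟩
  rw [step2] at step1
  refine step1.trans ?_
  have ha : 0 ≤ a4 q k := (Pr_nonneg hok _ _).trans (pr_L4 h0 h1 hb)
  have s3 : PQ q Λ (fun F => L4 k c ↑F ∧ (L4 k b ↑F ∧ L4 k z ↑F)) ≤
      a4 q k * PQ q Λ (fun F => L4 k b ↑F ∧ L4 k z ↑F) := by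
    refine indep_L4 h0 h1 hc fun F hF => ?_
    refine and_congr (hL b _ _ ?_) (hL z _ _ ?_)
    · intro g hg _
      rw [Finset.mem_inter, Finset.mem_sdiff]
      exact ⟨fun h => ⟨h, hF h, b3_disj (by rw [b4_comm]; exact h2) hg⟩, fun h => h.1⟩
    · intro g hg _
      rw [Finset.mem_inter, Finset.mem_sdiff]
      exact ⟨fun h => ⟨h, hF h, b3_disj (by rw [b4_comm]; exact h3) hg⟩, fun h => h.1⟩
  have s4 : PQ q Λ (fun F => L4 k b ↑F ∧ L4 k z ↑F) ≤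
      a4 q k * PQ q Λ (fun F => L4 k z ↑F) := by
    refine indep_L4 h0 h1 hb fun F hF => hL z _ _ ?_
    intro g hg _
    rw [Finset.mem_inter, Finset.mem_sdiff]
    exact ⟨fun h => ⟨h, hF h, b3_disj (by rw [b4_comm]; exact h4) hg⟩, fun h => h.1⟩
  have s5 := pr_L4 (q := q) h0 h1 hz
  calc PQ q Λ (fun F => L4 k c ↑F ∧ (L4 k b ↑F ∧ L4 k z ↑F))
      ≤ a4 q k * PQ q Λ (fun F => L4 k b ↑F ∧ L4 k z ↑F) := s3
    _ ≤ a4 q k * (a4 q k * PQ q Λ (fun F => L4 k z ↑F)) := mul_le_mul_of_nonneg_left s4 ha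
    _ ≤ a4 q k * (a4 q k * a4 q k) :=
        mul_le_mul_of_nonneg_left (mul_le_mul_of_nonneg_left s5 ha) ha
    _ = a4 q k ^ 3 := by ring

end H31A
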