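import Pool.Agent.H31R4.Alp.B1
import Pool.Agent.H973R3.NC.NP

/-! Task B4: inner event for the outer sum. -/

set_option maxHeartbeats 400000

namespace H31A

open H974 H12S H973N H973N.NP Finset

/-- First visit of the block. -/
theorem b4_first {H : Set Edg} {c : ℤ × ℤ} {m : ℕ} {s w : Vtx}
    (hw : Reach (H ∪ ↑(blk c m)) s w) : Reach H s w ∨
      ∃ x, inR (c.1 - m) (c.1 + m) (c.2 - m) (c.2 + m) x ∧ Reach H s x := by
  induction hw with
  | refl => exact Or.inl (Reach.refl _ _)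
  | @tail w w' _ hs ih =>
    rcases ih with ih | ih
    · obtain ⟨e, he, hc⟩ := hs
      rcases he with he | he
      · exact Or.inl (ih.trans (Adj.reach ⟨e, he, hc⟩))
      · right
        have hb := BS_adj_box (Finset.mem_coe.mp he)
        refine ⟨w, ?_, ih⟩
        rcases hc with ⟨h1, h2⟩ | ⟨h1, h2⟩
        · rw [← h1]; exact hb.1
        · rw [← h2]; exact hb.2
    · exact Or.inr ih

/-- Two vertices which are connected only through the block. -/
theorem b4_two {G : Set Edg} {c : ℤ × ℤ} {m : ℕ} {s t : Vtx}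
    (h1 : Reach (G ∪ ↑(blk c m)) s t) (h2 : ¬ Reach (G \ ↑(blk c m)) s t) :
    ∃ u v, inR (c.1 - m) (c.1 + m) (c.2 - m) (c.2 + m) u ∧
      inR (c.1 - m) (c.1 + m) (c.2 - m) (c.2 + m) v ∧ Reach (G \ ↑(blk c m)) s u ∧
      Reach (G \ ↑(blk c m)) t v ∧ ¬ Reach (G \ ↑(blk c m)) u v := by
  have e : G ∪ ↑(blk c m) = (G \ ↑(blk c m)) ∪ ↑(blk c m) := by
    ext x; simp
  rw [e] at h1
  rcases b4_first h1 with h3 | ⟨u, hu, h3⟩
  · exact absurd h3 h2
  · rcases b4_first h1.symm with h4 | ⟨v, hv, h4⟩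
    · exact absurd h4.symm h2
    · exact ⟨u, v, hu, hv, h3, h4, fun h5 => h2 (h3.trans (h5.trans h4.symm))⟩

/-- `X4` from two vertices which are connected only through the block. -/
theorem b4_X4 {G : Set Edg} {c : ℤ × ℤ} {m R : ℕ} (hmR : m ≤ R) {s t : Vtx}
    (h1 : Reach (G ∪ ↑(blk c m)) s t) (h2 : ¬ Reach (G \ ↑(blk c m)) s t)
    (hs : s.1 ≤ c.1 - R ∨ c.1 + R ≤ s.1 ∨ s.2 ≤ c.2 - R ∨ c.2 + R ≤ s.2)
    (ht : t.1 ≤ c.1 - R ∨ c.1 + R ≤ t.1 ∨ t.2 ≤ c.2 - R ∨ c.2 + R ≤ t.2) : X4 c m R G := by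
  obtain ⟨u, v, hu, hv, h3, h4, h5⟩ := b4_two h1 h2
  have e : (G \ ↑(blk c m)) ∩ ↑(RE (c.1 - R) (c.1 + R) (c.2 - R) (c.2 + R)) =
      G ∩ ↑(blk c R \ blk c m) := by
    ext x
    simp only [Set.mem_inter_iff, Set.mem_sdiff, Finset.mem_coe, Finset.coe_sdiff]
    unfold blk
    tauto
  have hin : ∀ x : Vtx, inR (c.1 - m) (c.1 + m) (c.2 - m) (c.2 + m) x →
      inR (c.1 - R) (c.1 + R) (c.2 - R) (c.2 + R) x := by
    intro x hx
    unfold inR at hx ⊢
    omega
  obtain ⟨w, k1, k2, k3⟩ := first_exit (hin u hu) h3.symm hs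
  obtain ⟨w', k1', k2', k3'⟩ := first_exit (hin v hv) h4.symm ht
  rw [e] at k3 k3'
  refine ⟨u, v, hu, hv, ⟨w, ⟨k1, k2⟩, k3⟩, ⟨w', ⟨k1', k2'⟩, k3'⟩, fun h6 => h5 (h6.mono ?_)⟩
  intro x hx
  simp only [Set.mem_inter_iff, Finset.coe_sdiff, Set.mem_sdiff, Finset.mem_coe] at hx ⊢
  exact ⟨hx.1, hx.2.2⟩

/-- The second difference does not depend on the two edges. -/
theorem b4_SD {f : Finset Edg → Prop} {b z : Edg} (hbz : b ≠ z) {F : Finset Edg} :
    SD f b z F ↔ SD f b z ((F.erase b).erase z) := by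
  have k1 : ((F.erase b).erase z).erase z = (F.erase b).erase z := Finset.erase_idem
  have k2 : ((F.erase b).erase z).erase b = (F.erase b).erase z := by
    rw [Finset.erase_right_comm, Finset.erase_idem]
  have k3 : insert b ((F.erase b).erase z) = insert b (F.erase z) := by
    ext x; simp only [Finset.mem_insert, Finset.mem_erase]; tauto
  have k4 : insert b (insert z ((F.erase b).erase z)) = insert b (insert z F) := by
    ext x; simp only [Finset.mem_insert, Finset.mem_erase]; tauto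
  have k5 : (insert z ((F.erase b).erase z)).erase b = (insert z F).erase b := by
    ext x; simp only [Finset.mem_insert, Finset.mem_erase]; tauto
  have k6 : insert z ((F.erase b).erase z) = insert z (F.erase b) := by
    ext x; simp only [Finset.mem_insert, Finset.mem_erase]; tauto
  have k7 : insert z (insert b ((F.erase b).erase z)) = insert z (insert b F) := by
    ext x; simp only [Finset.mem_insert, Finset.mem_erase]; tauto
  have k8 : (insert b ((F.erase b).erase z)).erase z = (insert b F).erase z := by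
    ext x; simp only [Finset.mem_insert, Finset.mem_erase]; tauto
  have k9 : (F.erase z).erase b = (F.erase b).erase z := Finset.erase_right_comm
  have k10 : ((F.erase b).erase z).erase z = (F.erase b).erase z := Finset.erase_idem
  unfold SD Pf
  rw [k7, k8, k4, k5, k1, k2, k3, k6, k9, k10]

theorem b4_blk {a b : Edg} {ρ : ℕ} (h : dst a b + 1 ≤ ρ) : b ∈ blk (bp a) ρ := by
  unfold dst at h
  have h1 := (le_max_left |a.1 - b.1| |a.2.1 - b.2.1|)
  have h2 := (le_max_right |a.1 - b.1| |a.2.1 - b.2.1|)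
  have h3 := abs_le.mp (show |a.1 - b.1| ≤ (ρ:ℤ) - 1 by omega)
  have h4 := abs_le.mp (show |a.2.1 - b.2.1| ≤ (ρ:ℤ) - 1 by omega)
  unfold blk bp
  obtain ⟨x, y, _ | _⟩ := b
  · rw [mem_RE_false]; simp only at h3 h4 ⊢; omega
  · rw [mem_RE_true]; simp only at h3 h4 ⊢; omega

/-- An edge at distance `> R` is not in the block, and its ends are not in the interior. -/
theorem b4_far {a z : Edg} {R : ℕ} (h : (R:ℤ) < dst a z) : z ∉ blk (bp a) R ∧
    (∀ s : Vtx, s = src z ∨ s = tgt z → s.1 ≤ (bp a).1 - R ∨ (bp a).1 + R ≤ s.1 ∨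
      s.2 ≤ (bp a).2 - R ∨ (bp a).2 + R ≤ s.2) := by
  have key : z.1 < a.1 - R ∨ a.1 + R < z.1 ∨ z.2.1 < a.2.1 - R ∨ a.2.1 + R < z.2.1 := by
    by_contra hc
    push Not at hc
    have h1 : |a.1 - z.1| ≤ (R:ℤ) := abs_le.mpr (by omega)
    have h2 : |a.2.1 - z.2.1| ≤ (R:ℤ) := abs_le.mpr (by omega)
    have : dst a z ≤ R := max_le h1 h2
    omega
  unfold bp
  constructor
  · intro hz
    unfold blk at hz
    obtain ⟨x, y, _ | _⟩ := z
    · rw [mem_RE_false] at hz; simp only at hz key; omega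
    · rw [mem_RE_true] at hz; simp only at hz key; omega
  · rintro s (rfl | rfl)
    · obtain ⟨x, y, be⟩ := z
      simp only [src_mk] at key ⊢
      omega
    · obtain ⟨x, y, _ | _⟩ := z
      · simp only [tgt_false] at key ⊢; omega
      · simp only [tgt_true] at key ⊢; omega

/-- B4 : the inner event when `z` is far from `a` and `b`. -/
theorem outer_X4 {a b z : Edg} {ρ R : ℕ} (hab : a ≠ b) (hρ : dst a b + 1 ≤ ρ) (hρR : ρ ≤ R)
    (hR : (R:ℤ) < dst a z) {F : Finset Edg} (haF : a ∉ F)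
    (h : SD (fun F => Cn {src a} {tgt a} (↑F : Set Edg)) b z F) : X4 (bp a) ρ R ↑F := by
  have hd0 : 0 ≤ dst a b := le_max_of_le_left (abs_nonneg _)
  have hb : b ∈ blk (bp a) ρ := b4_blk hρ
  have ha : a ∈ blk (bp a) ρ := b4_blk (by
    have : dst a a = 0 := by simp [dst]
    omega)
  obtain ⟨hz1, hz2⟩ := b4_far hR
  have hsub : blk (bp a) ρ ⊆ blk (bp a) R := by
    unfold blk; apply RE_subset <;> omega
  have hbz : b ≠ z := fun h' => hz1 (h' ▸ hsub hb)
  have haz : a ≠ z := fun h' => hz1 (h' ▸ hsub ha)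
  rw [b4_SD hbz] at h
  set F' := (F.erase b).erase z with hF'
  have ha' : a ∉ F' := fun h' => haF (Finset.mem_of_mem_erase (Finset.mem_of_mem_erase h'))
  have hb' : b ∉ F' := fun h' => (Finset.mem_erase.mp (Finset.mem_of_mem_erase h')).1 rfl
  have hz' : z ∉ F' := fun h' => (Finset.mem_erase.mp h').1 rfl
  rw [SD_sym hab haz hbz ha' hb' hz'] at h
  obtain ⟨k1, k2⟩ := SD_Bf ha hb h
  obtain ⟨s, hs, t, ht, hst⟩ := k1
  rw [Set.mem_singleton_iff] at hs ht
  subst hs
  subst ht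
  have k3 : ¬ Reach ((↑F' : Set Edg) \ ↑(blk (bp a) ρ)) (src z) (tgt z) := by
    intro h'
    apply k2
    refine ⟨src z, rfl, tgt z, rfl, ?_⟩
    rw [Finset.coe_sdiff]
    exact h'
  rw [Finset.coe_union] at hst
  have k4 := b4_X4 hρR hst k3 (hz2 _ (Or.inl rfl)) (hz2 _ (Or.inr rfl))
  have e : (↑F' : Set Edg) ∩ ↑(blk (bp a) R \ blk (bp a) ρ) =
      (↑F : Set Edg) ∩ ↑(blk (bp a) R \ blk (bp a) ρ) := by
    ext x
    simp only [Set.mem_inter_iff, Finset.coe_sdiff, Set.mem_sdiff, Finset.mem_coe, hF',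
      Finset.mem_erase]
    constructor
    · rintro ⟨⟨_, _, h1⟩, h2⟩
      exact ⟨h1, h2⟩
    · rintro ⟨h1, h2, h3⟩
      exact ⟨⟨fun h' => hz1 (h' ▸ h2), fun h' => h3 (h' ▸ hb), h1⟩, h2, h3⟩
  unfold X4 at k4 ⊢
  rw [e] at k4
  exact k4

theorem b4_Off {a z : Edg} {k : ℕ} (h : (k:ℤ) < dst a z) :
    Off (a.1 - k) (a.1 + k) (a.2.1 - k) (a.2.1 + k) {src z} {tgt z} := by
  obtain ⟨_, h2⟩ := b4_far h
  intro v hv hin
  have h3 := h2 v (by
    rcases hv with hv | hv
    · exact Or.inl hv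
    · exact Or.inr hv)
  unfold bp at h3
  simp only at h3
  omega

theorem b4_comm (e g : Edg) : dst e g = dst g e := by
  unfold dst
  rw [abs_sub_comm e.1, abs_sub_comm e.2.1]

/-- B4 -/
theorem outer_L4 {a b z : Edg} {k : ℕ} (hk : 1 ≤ k) (hab : 2 * (k:ℤ) < dst a b)
    (haz : (k:ℤ) < dst a z) (hbz : (k:ℤ) < dst b z) {F : Finset Edg} (haF : a ∉ F)
    (h : SD (fun F => Cn {src a} {tgt a} (↑F : Set Edg)) b z F) :
    L4 k a ↑F ∧ L4 k b ↑F := by
  have hz_b : z ∉ blk (bp b) k := (b4_far hbz).1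
  have hz_a : z ∉ blk (bp a) k := (b4_far haz).1
  have hb_a : b ∉ blk (bp a) k := (b4_far (by omega)).1
  have hself : ∀ x : Edg, x ∈ blk (bp x) k := fun x => b4_blk (by
    have : dst x x = 0 := by simp [dst]
    omega)
  have hne1 : b ≠ z := fun h' => hz_b (h' ▸ hself b)
  have hne2 : a ≠ z := fun h' => hz_a (h' ▸ hself a)
  have hne3 : a ≠ b := fun h' => hb_a (h' ▸ hself a)
  refine ⟨?_, ?_⟩
  · have h' := h
    rw [b4_SD hne1] at h'
    set F' := (F.erase b).erase z with hF'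
    have ha' : a ∉ F' := fun h' => haF (Finset.mem_of_mem_erase (Finset.mem_of_mem_erase h'))
    have hb' : b ∉ F' := fun h' => (Finset.mem_erase.mp (Finset.mem_of_mem_erase h')).1 rfl
    have hz' : z ∉ F' := fun h' => (Finset.mem_erase.mp h').1 rfl
    rw [SD_sym hne3 hne2 hne1 ha' hb' hz'] at h'
    have k1 := SD_L4_aux hk (b4_Off haz) hb_a h'.1
    refine (L4_congr' ?_).1 k1
    intro x hx _
    rw [hF', Finset.mem_erase, Finset.mem_erase]
    constructor
    · exact fun h => h.2.2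
    · exact fun h => ⟨fun h' => hz_a (h' ▸ hx), fun h' => hb_a (h' ▸ hx), h⟩
  · exact SD_L4_aux hk (b4_Off (by rw [b4_comm]; omega)) hz_b h.1

end H31A
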