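import Pool.Agent.H31R4.Alp.Defs

/-! Task C1: counting, one sum. -/

set_option maxHeartbeats 400000

namespace H31A

open H974 H12S H973N Finset

theorem c1_card (a : Edg) (n d : ℕ) :
    ((boxE n).filter (fun b => (dst a b).natAbs = d)).card ≤ 16 * (d + 1) := by
  classical
  set S : Finset Edg := (({a.1 - d, a.1 + d} : Finset ℤ) ×ˢ (Icc (a.2.1 - d) (a.2.1 + d) ×ˢ
    (Finset.univ : Finset Bool))) ∪ (Icc (a.1 - d) (a.1 + d) ×ˢ
    (({a.2.1 - d, a.2.1 + d} : Finset ℤ) ×ˢ (Finset.univ : Finset Bool))) with hS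
  have hsub : (boxE n).filter (fun b => (dst a b).natAbs = d) ⊆ S := by
    rintro ⟨x, y, β⟩ hb
    rw [mem_filter] at hb
    have h := hb.2
    obtain ⟨a1, a2, a3⟩ := a
    simp only [dst] at h
    simp only [hS, mem_union, mem_product, mem_insert, mem_singleton, mem_Icc, mem_univ, and_true]
    rcases abs_cases (a1 - x) with h1 | h1 <;> rcases abs_cases (a2 - y) with h2 | h2 <;>
      rcases max_cases (|a1 - x|) (|a2 - y|) with h3 | h3 <;> omega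
  refine (card_le_card hsub).trans ?_
  refine (card_union_le _ _).trans ?_
  rw [card_product, card_product, card_product, card_product, Int.card_Icc, Int.card_Icc]
  have h1 : ({a.1 - d, a.1 + d} : Finset ℤ).card ≤ 2 := card_le_two
  have h2 : ({a.2.1 - d, a.2.1 + d} : Finset ℤ).card ≤ 2 := card_le_two
  have h3 : (Finset.univ : Finset Bool).card = 2 := rfl
  have h4 : (a.2.1 + (d:ℤ) + 1 - (a.2.1 - d)).toNat = 2 * d + 1 := by omega
  have h5 : (a.1 + (d:ℤ) + 1 - (a.1 - d)).toNat = 2 * d + 1 := by omega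
  rw [h3, h4, h5]
  nlinarith

theorem c1_dst_nonneg (a b : Edg) : 0 ≤ dst a b := (abs_nonneg _).trans (le_max_left _ _)

theorem c1_dst_cast (a b : Edg) : (dst a b : ℝ) = (((dst a b).natAbs : ℕ) : ℝ) := by
  have h := Int.natAbs_of_nonneg (c1_dst_nonneg a b)
  have h2 : ((((dst a b).natAbs : ℕ) : ℤ) : ℝ) = (dst a b : ℝ) := by rw [h]
  rw [← h2, Int.cast_natCast]

theorem c1_dst_le {a b : Edg} {n : ℕ} (ha : a ∈ boxE n) (hb : b ∈ boxE n) :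
    (dst a b).natAbs ≤ 2 * n := by
  obtain ⟨a1, a2, a3⟩ := a
  obtain ⟨b1, b2, b3⟩ := b
  simp only [boxE, RE, mem_filter, mem_product, mem_Icc] at ha hb
  simp only [dst]
  rcases abs_cases (a1 - b1) with h1 | h1 <;> rcases abs_cases (a2 - b2) with h2 | h2 <;>
    rcases max_cases (|a1 - b1|) (|a2 - b2|) with h3 | h3 <;> omega

/-- sum over rings -/
theorem c1_ring {a : Edg} {n : ℕ} (ha : a ∈ boxE n) (g : ℕ → ℝ) (hg : ∀ d, 0 ≤ g d) :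
    ∑ b ∈ boxE n, g (dst a b).natAbs ≤
      16 * ∑ d ∈ range (2 * n + 1), ((d : ℝ) + 1) * g d := by
  classical
  rw [← sum_fiberwise_of_maps_to (s := boxE n) (t := range (2 * n + 1))
    (g := fun b => (dst a b).natAbs) (fun b hb => by
      rw [mem_range]
      exact Nat.lt_succ_of_le (c1_dst_le ha hb)), mul_sum]
  refine sum_le_sum fun d _ => ?_
  have h1 : ∑ b ∈ (boxE n).filter (fun b => (dst a b).natAbs = d), g (dst a b).natAbs =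
      (((boxE n).filter (fun b => (dst a b).natAbs = d)).card : ℝ) * g d := by
    rw [sum_congr rfl (fun b hb => by rw [(mem_filter.1 hb).2] : ∀ b ∈ (boxE n).filter
      (fun b => (dst a b).natAbs = d), g (dst a b).natAbs = g d), sum_const, nsmul_eq_mul]
  rw [h1, ← mul_assoc]
  refine mul_le_mul_of_nonneg_right ?_ (hg d)
  exact_mod_cast c1_card a n d

/-- `s (N+1)^(s-1) ≤ (N+1)^s - N^s` -/
theorem c1_step_lt {s : ℝ} (h0 : 0 < s) (h1 : s ≤ 1) (N : ℕ) :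
    s * ((N:ℝ) + 1)^(s - 1) ≤ ((N:ℝ) + 1)^s - (N:ℝ)^s := by
  have hN : (0:ℝ) < (N:ℝ) + 1 := by positivity
  have h2 : (N:ℝ) = ((N:ℝ) + 1) * (1 + -(1 / ((N:ℝ) + 1))) := by field_simp; ring
  have h3 : -1 ≤ -(1 / ((N:ℝ) + 1)) := by
    rw [neg_le_neg_iff, div_le_one hN]
    have : (0:ℝ) ≤ N := Nat.cast_nonneg N
    linarith
  have h4 : (1 + -(1 / ((N:ℝ) + 1)))^s ≤ 1 + s * -(1 / ((N:ℝ) + 1)) :=
    rpow_one_add_le_one_add_mul_self h3 h0.le h1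
  have h5 : (N:ℝ)^s = ((N:ℝ) + 1)^s * (1 + -(1 / ((N:ℝ) + 1)))^s := by
    conv_lhs => rw [h2]
    rw [Real.mul_rpow hN.le (by linarith)]
  have h6 : ((N:ℝ) + 1)^(s - 1) = ((N:ℝ) + 1)^s / ((N:ℝ) + 1) := by
    rw [Real.rpow_sub hN, Real.rpow_one]
  have h7 : 0 < ((N:ℝ) + 1)^s := Real.rpow_pos_of_pos hN s
  have h8 : ((N:ℝ) + 1)^s * (1 + -(1 / ((N:ℝ) + 1)))^s ≤
      ((N:ℝ) + 1)^s * (1 + s * -(1 / ((N:ℝ) + 1))) := mul_le_mul_of_nonneg_left h4 h7.le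
  rw [h5, h6]
  have h9 : s * (((N:ℝ) + 1)^s / ((N:ℝ) + 1)) =
      ((N:ℝ) + 1)^s - ((N:ℝ) + 1)^s * (1 + s * -(1 / ((N:ℝ) + 1))) := by ring
  rw [h9]
  linarith

theorem c1_pow_lt {s : ℝ} (h0 : 0 < s) (h1 : s ≤ 1) : ∃ C : ℝ, 0 < C ∧ ∀ N : ℕ,
    ∑ d ∈ range N, ((d:ℝ) + 1)^(s - 1) ≤ C * (N:ℝ)^s := by
  refine ⟨1 / s, by positivity, fun N => ?_⟩
  induction N with
  | zero =>
    rw [sum_range_zero]
    have := Real.rpow_nonneg (Nat.cast_nonneg 0 : (0:ℝ) ≤ ((0:ℕ):ℝ)) s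
    positivity
  | succ N ih =>
    rw [sum_range_succ]
    have h2 := c1_step_lt h0 h1 N
    have h3 : ((N:ℝ) + 1)^(s - 1) ≤ 1 / s * (((N:ℝ) + 1)^s - (N:ℝ)^s) := by
      rw [one_div, ← div_eq_inv_mul, le_div_iff₀ h0]
      linarith
    push_cast
    linarith

/-- `s (N+1)^(-1-s) ≤ N^(-s) - (N+1)^(-s)` -/
theorem c1_step_gt {s : ℝ} (h0 : 0 < s) {N : ℕ} (hN1 : 1 ≤ N) :
    s * ((N:ℝ) + 1)^(-1 - s) ≤ (N:ℝ)^(-s) - ((N:ℝ) + 1)^(-s) := by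
  have hN0 : (0:ℝ) < N := by exact_mod_cast hN1
  have hN : (0:ℝ) < (N:ℝ) + 1 := by positivity
  have h1 : (N:ℝ)^(-s) = ((N:ℝ) + 1)^(-s) * Real.exp (s * Real.log (((N:ℝ) + 1) / N)) := by
    rw [Real.rpow_def_of_pos hN0, Real.rpow_def_of_pos hN, ← Real.exp_add,
      Real.log_div hN.ne' hN0.ne']
    congr 1
    ring
  have h2 : 1 / ((N:ℝ) + 1) ≤ Real.log (((N:ℝ) + 1) / N) := by
    have h3 := Real.log_le_sub_one_of_pos (show (0:ℝ) < (N:ℝ) / ((N:ℝ) + 1) by positivity)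
    have h4 : Real.log (((N:ℝ) + 1) / N) = - Real.log ((N:ℝ) / ((N:ℝ) + 1)) := by
      rw [← Real.log_inv, inv_div]
    rw [h4]
    have h5 : (N:ℝ) / ((N:ℝ) + 1) - 1 = -(1 / ((N:ℝ) + 1)) := by field_simp; ring
    rw [h5] at h3
    linarith
  have h3 : 1 + s * (1 / ((N:ℝ) + 1)) ≤ Real.exp (s * Real.log (((N:ℝ) + 1) / N)) := by
    have h4 := Real.add_one_le_exp (s * Real.log (((N:ℝ) + 1) / N))
    have h5 := mul_le_mul_of_nonneg_left h2 h0.le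
    linarith
  have h4 : ((N:ℝ) + 1)^(-1 - s) = ((N:ℝ) + 1)^(-s) / ((N:ℝ) + 1) := by
    rw [show (-1 - s : ℝ) = -s - 1 by ring, Real.rpow_sub hN, Real.rpow_one]
  have h5 : 0 < ((N:ℝ) + 1)^(-s) := Real.rpow_pos_of_pos hN _
  rw [h1, h4]
  have h6 := mul_le_mul_of_nonneg_left h3 h5.le
  have h7 : s * (((N:ℝ) + 1)^(-s) / ((N:ℝ) + 1)) =
      ((N:ℝ) + 1)^(-s) * (1 + s * (1 / ((N:ℝ) + 1))) - ((N:ℝ) + 1)^(-s) := by ring
  rw [h7]
  linarith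

theorem c1_pow_gt {s : ℝ} (h0 : 0 < s) : ∃ C : ℝ, 0 < C ∧ ∀ m N : ℕ,
    ∑ d ∈ range N, (if m ≤ d then ((d:ℝ) + 1)^(-1 - s) else 0) ≤ C * ((m:ℝ) + 1)^(-s) := by
  refine ⟨1 + 1 / s, by positivity, fun m N => ?_⟩
  have hm : (0:ℝ) < (m:ℝ) + 1 := by positivity
  have hm2 : 0 < ((m:ℝ) + 1)^(-s) := Real.rpow_pos_of_pos hm _
  have key : (N ≤ m → ∑ d ∈ range N, (if m ≤ d then ((d:ℝ) + 1)^(-1 - s) else 0) = 0) ∧
      (m + 1 ≤ N → ∑ d ∈ range N, (if m ≤ d then ((d:ℝ) + 1)^(-1 - s) else 0) ≤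
        (1 + 1 / s) * ((m:ℝ) + 1)^(-s) - 1 / s * (N:ℝ)^(-s)) := by
    induction N with
    | zero => exact ⟨fun _ => by simp, fun h => by omega⟩
    | succ N ih =>
      refine ⟨fun h => ?_, fun h => ?_⟩
      · rw [sum_range_succ, ih.1 (by omega), if_neg (by omega), add_zero]
      · rw [sum_range_succ, if_pos (by omega)]
        rcases Nat.lt_or_ge m N with h2 | h2
        · have h3 := ih.2 h2
          have h4 := c1_step_gt h0 (N := N) (by omega)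
          have h5 : ((N:ℝ) + 1)^(-1 - s) ≤ 1 / s * ((N:ℝ)^(-s) - ((N:ℝ) + 1)^(-s)) := by
            rw [one_div, ← div_eq_inv_mul, le_div_iff₀ h0]
            linarith
          push_cast
          linarith
        · have h3 : N = m := by omega
          subst h3
          rw [ih.1 le_rfl]
          have h4 : ((N:ℝ) + 1)^(-1 - s) ≤ ((N:ℝ) + 1)^(-s) := by
            apply Real.rpow_le_rpow_of_exponent_le _ (by linarith)
            have : (0:ℝ) ≤ N := Nat.cast_nonneg N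
            linarith
          push_cast
          linarith
  rcases Nat.lt_or_ge m N with h2 | h2
  · have h3 := key.2 h2
    have h4 : 0 ≤ 1 / s * (N:ℝ)^(-s) := by
      have := Real.rpow_nonneg (Nat.cast_nonneg N : (0:ℝ) ≤ (N:ℝ)) (-s)
      positivity
    linarith
  · rw [key.1 h2]
    positivity

/-- C1 -/
theorem count1 {ε : ℝ} (h0 : 0 < ε) (h1 : ε ≤ 1/40) : ∃ C : ℝ, 0 < C ∧ ∀ n : ℕ, 1 ≤ n →
    ∀ a ∈ boxE n, ∑ b ∈ boxE n, ((dst a b : ℝ) + 1)^(-(3/2) + 2 * ε) ≤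
      C * (n:ℝ)^(1/2 + 2 * ε) := by
  obtain ⟨C, hC, hsum⟩ := c1_pow_lt (s := 1/2 + 2 * ε) (by linarith) (by linarith)
  refine ⟨16 * (C * (3:ℝ)^(1/2 + 2 * ε)), by positivity, fun n hn a ha => ?_⟩
  have h2 : ∑ b ∈ boxE n, ((dst a b : ℝ) + 1)^(-(3/2) + 2 * ε) =
      ∑ b ∈ boxE n, (fun d : ℕ => ((d:ℝ) + 1)^(-(3/2) + 2 * ε)) (dst a b).natAbs :=
    sum_congr rfl fun b _ => by rw [c1_dst_cast]
  rw [h2]
  refine (c1_ring ha (fun d : ℕ => ((d:ℝ) + 1)^(-(3/2) + 2 * ε)) (fun d =>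
    Real.rpow_nonneg (by positivity) _)).trans ?_
  have h3 : ∀ d : ℕ, ((d:ℝ) + 1) * ((d:ℝ) + 1)^(-(3/2) + 2 * ε) =
      ((d:ℝ) + 1)^((1/2 + 2 * ε) - 1) := by
    intro d
    have hd : (0:ℝ) < (d:ℝ) + 1 := by positivity
    rw [show (1/2 + 2 * ε) - 1 = 1 + (-(3/2) + 2 * ε) by ring,
      Real.rpow_add hd 1 (-(3/2) + 2 * ε), Real.rpow_one]
  simp only [h3]
  have h4 := hsum (2 * n + 1)
  have h5 : ((2 * n + 1 : ℕ) : ℝ)^(1/2 + 2 * ε) ≤ (3:ℝ)^(1/2 + 2 * ε) * (n:ℝ)^(1/2 + 2 * ε) := by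
    rw [← Real.mul_rpow (by norm_num) (Nat.cast_nonneg n)]
    apply Real.rpow_le_rpow (Nat.cast_nonneg _) _ (by linarith)
    have : (1:ℝ) ≤ n := by exact_mod_cast hn
    push_cast
    linarith
  calc 16 * ∑ d ∈ range (2 * n + 1), ((d:ℝ) + 1)^((1/2 + 2 * ε) - 1)
      ≤ 16 * (C * ((2 * n + 1 : ℕ) : ℝ)^(1/2 + 2 * ε)) := by linarith
    _ ≤ 16 * (C * ((3:ℝ)^(1/2 + 2 * ε) * (n:ℝ)^(1/2 + 2 * ε))) := by
        have := mul_le_mul_of_nonneg_left h5 hC.le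
        linarith
    _ = _ := by ring

end H31A
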