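import Pool.Agent.H31R4.Alp.C1

/-! Task C3: counting, double sum. -/

set_option maxHeartbeats 400000

namespace H31A

open H974 H12S H973N Finset

theorem c3_one {σ : ℝ} (h0 : 0 < σ) (h1 : σ ≤ 1) : ∃ C : ℝ, 0 < C ∧ ∀ n : ℕ, 1 ≤ n →
    ∀ a ∈ boxE n, ∑ b ∈ boxE n, ((dst a b : ℝ) + 1)^(σ - 2) ≤ C * (n:ℝ)^σ := by
  obtain ⟨C, hC, hsum⟩ := c1_pow_lt (s := σ) h0 h1
  refine ⟨16 * (C * (3:ℝ)^σ), by positivity, fun n hn a ha => ?_⟩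
  have hr := c1_ring ha (fun d => ((d:ℝ) + 1)^(σ - 2)) (fun d => by positivity)
  have e1 : ∑ b ∈ boxE n, ((dst a b : ℝ) + 1)^(σ - 2) =
      ∑ b ∈ boxE n, (((dst a b).natAbs : ℝ) + 1)^(σ - 2) := by
    refine sum_congr rfl fun b _ => ?_
    rw [c1_dst_cast]
  rw [e1]
  refine hr.trans ?_
  have e2 : ∑ d ∈ range (2 * n + 1), ((d : ℝ) + 1) * ((d:ℝ) + 1)^(σ - 2) =
      ∑ d ∈ range (2 * n + 1), ((d:ℝ) + 1)^(σ - 1) := by
    refine sum_congr rfl fun d _ => ?_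
    have hd : (0:ℝ) < (d:ℝ) + 1 := by positivity
    have h2 : ((d:ℝ) + 1) * ((d:ℝ) + 1)^(σ - 2) = ((d:ℝ) + 1)^(1:ℝ) * ((d:ℝ) + 1)^(σ - 2) := by
      rw [Real.rpow_one]
    rw [h2, ← Real.rpow_add hd]
    congr 1
    ring
  rw [e2]
  have h3 := hsum (2 * n + 1)
  have hn' : (1:ℝ) ≤ n := by exact_mod_cast hn
  have h4 : (((2 * n + 1 : ℕ) : ℝ))^σ ≤ (3:ℝ)^σ * (n:ℝ)^σ := by
    rw [← Real.mul_rpow (by norm_num) (by positivity)]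
    refine Real.rpow_le_rpow (by positivity) ?_ h0.le
    push_cast
    linarith
  have h5 : C * (((2 * n + 1 : ℕ) : ℝ))^σ ≤ C * ((3:ℝ)^σ * (n:ℝ)^σ) :=
    mul_le_mul_of_nonneg_left h4 hC.le
  nlinarith [h3, h5]

theorem c3_mul {x : ℝ} (hx : 0 ≤ x) {a b c : ℝ} (h : a + b = c) :
    (x + 1)^a * (x + 1)^b = (x + 1)^c := by
  rw [← Real.rpow_add (by linarith), h]

/-- pointwise bound -/
theorem c3_pt {ε : ℝ} (h0 : 0 < ε) (h1 : ε ≤ 1/40) {x y w : ℝ} (hx : 0 ≤ x) (hy : 0 ≤ y)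
    (hw : 0 ≤ w) (ht : w ≤ x + y) :
    (min x (min y w) + 1)^(-(3/2) + 2 * ε) * (max x y + 1)^(-(9/4) + ε) ≤
      (x + 1)^(1/8 + 2 * ε - 2) * (y + 1)^(1/8 + ε - 2) +
      (y + 1)^(1/8 + 2 * ε - 2) * (x + 1)^(1/8 + ε - 2) +
      2 * ((x + 1)^(1/8 + ε - 2) * (w + 1)^(1/8 + 2 * ε - 2)) := by
  have hM : 0 ≤ max x y := le_max_of_le_left hx
  have hMx : x ≤ max x y := le_max_left _ _
  have hMy : y ≤ max x y := le_max_right _ _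
  have hMw : (w + 1) / 2 ≤ max x y + 1 := by linarith
  have px : ∀ e : ℝ, 0 ≤ (x + 1)^e := fun e => Real.rpow_nonneg (by linarith) _
  have py : ∀ e : ℝ, 0 ≤ (y + 1)^e := fun e => Real.rpow_nonneg (by linarith) _
  have pw : ∀ e : ℝ, 0 ≤ (w + 1)^e := fun e => Real.rpow_nonneg (by linarith) _
  have pM : ∀ e : ℝ, 0 ≤ (max x y + 1)^e := fun e => Real.rpow_nonneg (by linarith) _
  have hsplit : (max x y + 1)^(-(9/4) + ε) =
      (max x y + 1)^(-(3/8) : ℝ) * (max x y + 1)^(1/8 + ε - 2) := by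
    rw [c3_mul hM]
    ring
  have a1 : (max x y + 1)^(-(3/8) : ℝ) ≤ (x + 1)^(-(3/8) : ℝ) :=
    Real.rpow_le_rpow_of_nonpos (by linarith) (by linarith) (by norm_num)
  have a2 : (max x y + 1)^(-(3/8) : ℝ) ≤ (y + 1)^(-(3/8) : ℝ) :=
    Real.rpow_le_rpow_of_nonpos (by linarith) (by linarith) (by norm_num)
  have a3 : (max x y + 1)^(1/8 + ε - 2) ≤ (x + 1)^(1/8 + ε - 2) :=
    Real.rpow_le_rpow_of_nonpos (by linarith) (by linarith) (by linarith)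
  have a4 : (max x y + 1)^(1/8 + ε - 2) ≤ (y + 1)^(1/8 + ε - 2) :=
    Real.rpow_le_rpow_of_nonpos (by linarith) (by linarith) (by linarith)
  have a5 : (max x y + 1)^(-(3/8) : ℝ) ≤ 2 * (w + 1)^(-(3/8) : ℝ) := by
    have b1 : (max x y + 1)^(-(3/8) : ℝ) ≤ ((w + 1) / 2)^(-(3/8) : ℝ) :=
      Real.rpow_le_rpow_of_nonpos (by linarith) hMw (by norm_num)
    have b2 : ((w + 1) / 2)^(-(3/8) : ℝ) = (2:ℝ)^(3/8 : ℝ) * (w + 1)^(-(3/8) : ℝ) := by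
      rw [Real.div_rpow (by linarith) (by norm_num), Real.rpow_neg (by norm_num : (0:ℝ) ≤ 2),
        div_inv_eq_mul, mul_comm]
    have b3 : (2:ℝ)^(3/8 : ℝ) ≤ 2 := by
      have := Real.rpow_le_rpow_of_exponent_le (by norm_num : (1:ℝ) ≤ 2)
        (by norm_num : (3/8 : ℝ) ≤ 1)
      rwa [Real.rpow_one] at this
    rw [b2] at b1
    exact b1.trans (mul_le_mul_of_nonneg_right b3 (pw _))
  have t1 : 0 ≤ (x + 1)^(1/8 + 2 * ε - 2) * (y + 1)^(1/8 + ε - 2) := mul_nonneg (px _) (py _)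
  have t2 : 0 ≤ (y + 1)^(1/8 + 2 * ε - 2) * (x + 1)^(1/8 + ε - 2) := mul_nonneg (py _) (px _)
  have t3 : 0 ≤ (x + 1)^(1/8 + ε - 2) * (w + 1)^(1/8 + 2 * ε - 2) := mul_nonneg (px _) (pw _)
  rw [hsplit]
  rcases min_choice x (min y w) with hm | hm
  · rw [hm]
    have : (x + 1)^(-(3/2) + 2 * ε) * ((max x y + 1)^(-(3/8) : ℝ) * (max x y + 1)^(1/8 + ε - 2)) ≤
        (x + 1)^(1/8 + 2 * ε - 2) * (y + 1)^(1/8 + ε - 2) := by
      have e : (x + 1)^(1/8 + 2 * ε - 2) = (x + 1)^(-(3/2) + 2 * ε) * (x + 1)^(-(3/8) : ℝ) := by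
        rw [c3_mul hx]; ring
      rw [e, mul_assoc]
      exact mul_le_mul_of_nonneg_left (mul_le_mul a1 a4 (pM _) (px _)) (px _)
    linarith
  · rcases min_choice y w with hm' | hm'
    · rw [hm, hm']
      have : (y + 1)^(-(3/2) + 2 * ε) * ((max x y + 1)^(-(3/8) : ℝ) *
          (max x y + 1)^(1/8 + ε - 2)) ≤
          (y + 1)^(1/8 + 2 * ε - 2) * (x + 1)^(1/8 + ε - 2) := by
        have e : (y + 1)^(1/8 + 2 * ε - 2) = (y + 1)^(-(3/2) + 2 * ε) * (y + 1)^(-(3/8) : ℝ) := by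
          rw [c3_mul hy]; ring
        rw [e, mul_assoc]
        exact mul_le_mul_of_nonneg_left (mul_le_mul a2 a3 (pM _) (py _)) (py _)
      linarith
    · rw [hm, hm']
      have : (w + 1)^(-(3/2) + 2 * ε) * ((max x y + 1)^(-(3/8) : ℝ) *
          (max x y + 1)^(1/8 + ε - 2)) ≤
          2 * ((x + 1)^(1/8 + ε - 2) * (w + 1)^(1/8 + 2 * ε - 2)) := by
        have e : (w + 1)^(1/8 + 2 * ε - 2) = (w + 1)^(-(3/2) + 2 * ε) * (w + 1)^(-(3/8) : ℝ) := by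
          rw [c3_mul hw]; ring
        have e2 : 2 * ((x + 1)^(1/8 + ε - 2) * (w + 1)^(1/8 + 2 * ε - 2)) =
            (w + 1)^(-(3/2) + 2 * ε) * ((2 * (w + 1)^(-(3/8) : ℝ)) * (x + 1)^(1/8 + ε - 2)) := by
          rw [e]; ring
        rw [e2]
        exact mul_le_mul_of_nonneg_left (mul_le_mul a5 a3 (pM _) (by have := pw (-(3/8)); linarith))
          (pw _)
      linarith

theorem c3_dst_comm (e g : Edg) : dst e g = dst g e := by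
  unfold dst
  rw [abs_sub_comm e.1, abs_sub_comm e.2.1]

theorem c3_dst_tri (e f g : Edg) : dst e g ≤ dst e f + dst f g := by
  unfold dst
  have h1 := abs_sub_le e.1 f.1 g.1
  have h2 := abs_sub_le e.2.1 f.2.1 g.2.1
  refine max_le ?_ ?_
  · have := le_max_left |e.1 - f.1| |e.2.1 - f.2.1|
    have := le_max_left |f.1 - g.1| |f.2.1 - g.2.1|
    linarith
  · have := le_max_right |e.1 - f.1| |e.2.1 - f.2.1|
    have := le_max_right |f.1 - g.1| |f.2.1 - g.2.1|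
    linarith

theorem c3_e0 (β : Bool) {n : ℕ} (hn : 1 ≤ n) : e0 β ∈ boxE n := by
  have h2 : (1:ℤ) ≤ n := by exact_mod_cast hn
  cases β <;> simp only [e0, boxE, RE, mem_filter, mem_product, mem_Icc, mem_univ] <;>
    simp <;> omega

/-- C3 -/
theorem count3 {ε : ℝ} (h0 : 0 < ε) (h1 : ε ≤ 1/40) : ∃ C : ℝ, 0 < C ∧ ∀ n : ℕ, 1 ≤ n →
    ∀ β : Bool, ∑ b ∈ boxE n, ∑ z ∈ boxE n, ((dmin (e0 β) b z : ℝ) + 1)^(-(3/2) + 2 * ε) *
      ((dmax (e0 β) b z : ℝ) + 1)^(-(9/4) + ε) ≤ C * (n:ℝ)^(1/4 + 3 * ε) := by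
  obtain ⟨C₁, hC₁, k1⟩ := c3_one (σ := 1/8 + 2 * ε) (by linarith) (by linarith)
  obtain ⟨C₂, hC₂, k2⟩ := c3_one (σ := 1/8 + ε) (by linarith) (by linarith)
  refine ⟨4 * (C₁ * C₂), by positivity, fun n hn β => ?_⟩
  have ha := c3_e0 β hn
  set a := e0 β with hadef
  have hn' : (0:ℝ) < n := by exact_mod_cast hn
  have hpow : (n:ℝ)^(1/8 + 2 * ε) * (n:ℝ)^(1/8 + ε) = (n:ℝ)^(1/4 + 3 * ε) := by
    rw [← Real.rpow_add hn']
    congr 1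
    ring
  have hpt : ∀ b ∈ boxE n, ∀ z ∈ boxE n, ((dmin a b z : ℝ) + 1)^(-(3/2) + 2 * ε) *
      ((dmax a b z : ℝ) + 1)^(-(9/4) + ε) ≤
      ((dst a b : ℝ) + 1)^(1/8 + 2 * ε - 2) * ((dst a z : ℝ) + 1)^(1/8 + ε - 2) +
      ((dst a z : ℝ) + 1)^(1/8 + 2 * ε - 2) * ((dst a b : ℝ) + 1)^(1/8 + ε - 2) +
      2 * (((dst a b : ℝ) + 1)^(1/8 + ε - 2) * ((dst b z : ℝ) + 1)^(1/8 + 2 * ε - 2)) := by
    intro b _ z _
    have x0 : (0:ℝ) ≤ (dst a b : ℝ) := by exact_mod_cast c1_dst_nonneg a b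
    have y0 : (0:ℝ) ≤ (dst a z : ℝ) := by exact_mod_cast c1_dst_nonneg a z
    have w0 : (0:ℝ) ≤ (dst b z : ℝ) := by exact_mod_cast c1_dst_nonneg b z
    have tr : (dst b z : ℝ) ≤ (dst a b : ℝ) + (dst a z : ℝ) := by
      have h2 : dst b z ≤ dst b a + dst a z := c3_dst_tri b a z
      rw [c3_dst_comm b a] at h2
      exact_mod_cast h2
    have h3 := c3_pt h0 h1 x0 y0 w0 tr
    unfold dmin dmax
    rw [Int.cast_min, Int.cast_min, Int.cast_max]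
    exact h3
  calc _ ≤ ∑ b ∈ boxE n, ∑ z ∈ boxE n,
      (((dst a b : ℝ) + 1)^(1/8 + 2 * ε - 2) * ((dst a z : ℝ) + 1)^(1/8 + ε - 2) +
      ((dst a z : ℝ) + 1)^(1/8 + 2 * ε - 2) * ((dst a b : ℝ) + 1)^(1/8 + ε - 2) +
      2 * (((dst a b : ℝ) + 1)^(1/8 + ε - 2) * ((dst b z : ℝ) + 1)^(1/8 + 2 * ε - 2))) :=
        sum_le_sum fun b hb => sum_le_sum fun z hz => hpt b hb z hz
    _ ≤ ∑ b ∈ boxE n,
      (((dst a b : ℝ) + 1)^(1/8 + 2 * ε - 2) * (C₂ * (n:ℝ)^(1/8 + ε)) +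
      (C₁ * (n:ℝ)^(1/8 + 2 * ε)) * ((dst a b : ℝ) + 1)^(1/8 + ε - 2) +
      2 * (((dst a b : ℝ) + 1)^(1/8 + ε - 2) * (C₁ * (n:ℝ)^(1/8 + 2 * ε)))) := by
        refine sum_le_sum fun b hb => ?_
        have x0 : (0:ℝ) ≤ (dst a b : ℝ) := by exact_mod_cast c1_dst_nonneg a b
        have px : ∀ e : ℝ, 0 ≤ ((dst a b : ℝ) + 1)^e := fun e => Real.rpow_nonneg (by linarith) _
        rw [sum_add_distrib, sum_add_distrib, ← mul_sum, ← sum_mul, ← mul_sum, ← mul_sum]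
        have q1 := mul_le_mul_of_nonneg_left (k2 n hn a ha) (px (1/8 + 2 * ε - 2))
        have q2 := mul_le_mul_of_nonneg_right (k1 n hn a ha) (px (1/8 + ε - 2))
        have q3 := mul_le_mul_of_nonneg_left (k1 n hn b hb) (px (1/8 + ε - 2))
        linarith
    _ = (∑ b ∈ boxE n, ((dst a b : ℝ) + 1)^(1/8 + 2 * ε - 2)) * (C₂ * (n:ℝ)^(1/8 + ε)) +
        3 * ((C₁ * (n:ℝ)^(1/8 + 2 * ε)) * ∑ b ∈ boxE n, ((dst a b : ℝ) + 1)^(1/8 + ε - 2)) := by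
        rw [sum_mul, mul_sum, mul_sum, ← sum_add_distrib]
        refine sum_congr rfl fun b _ => ?_
        ring
    _ ≤ (C₁ * (n:ℝ)^(1/8 + 2 * ε)) * (C₂ * (n:ℝ)^(1/8 + ε)) +
        3 * ((C₁ * (n:ℝ)^(1/8 + 2 * ε)) * (C₂ * (n:ℝ)^(1/8 + ε))) := by
        have q1 := mul_le_mul_of_nonneg_right (k1 n hn a ha)
          (by positivity : 0 ≤ C₂ * (n:ℝ)^(1/8 + ε))
        have q2 := mul_le_mul_of_nonneg_left (k2 n hn a ha)
          (by positivity : 0 ≤ C₁ * (n:ℝ)^(1/8 + 2 * ε))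
        linarith
    _ = 4 * (C₁ * C₂) * (n:ℝ)^(1/4 + 3 * ε) := by
        rw [← hpow]
        ring

end H31A
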