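import Pool.Agent.H973R3.NC.Defs
import Pool.Agent.H974R2.Count
import Pool.Agent.H31R3.Kes.Inputs

/-!
Upper bound on the singular part of the number of clusters per vertex (exponent `α`), bond
percolation on `ℤ²`: definitions.
-/

set_option maxHeartbeats 400000

namespace H31A

open H974 H12S H973N Finset

/-- Two distinct clusters of the annulus `blk c R \ blk c r` join the inner box to the boundary of
the outer box. -/
def X4 (c : ℤ × ℤ) (r R : ℕ) (F : Set Edg) : Prop :=
  ∃ u v : Vtx, inR (c.1 - r) (c.1 + r) (c.2 - r) (c.2 + r) u ∧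
    inR (c.1 - r) (c.1 + r) (c.2 - r) (c.2 + r) v ∧
    (∃ w ∈ bdR (c.1 - R) (c.1 + R) (c.2 - R) (c.2 + R), Reach (F ∩ ↑(blk c R \ blk c r)) u w) ∧
    (∃ w ∈ bdR (c.1 - R) (c.1 + R) (c.2 - R) (c.2 + R), Reach (F ∩ ↑(blk c R \ blk c r)) v w) ∧
    ¬ Reach (F ∩ ↑(blk c R \ blk c r)) u v

/-- The ends of `a` are connected by `F`. -/
def fa (a : Edg) (F : Finset Edg) : Prop := Cn {src a} {tgt a} (↑F : Set Edg)

/-- Probability that the third difference for the edges `a`, `b`, `z` does not vanish. -/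
noncomputable def t3 (q : ℝ) (Λ : Finset Edg) (a b z : Edg) : ℝ :=
  PQ q (Λ.erase a) (SD (fun F => Cn {src a} {tgt a} ↑F) b z)

/-- Probability that the ends of the central edge are connected in the box, without that edge. -/
noncomputable def Dn (β : Bool) (n : ℕ) (q : ℝ) : ℝ :=
  PQ q ((boxE n).erase (e0 β)) (fun F => Cn {src (e0 β)} {tgt (e0 β)} ↑F)

/-- Sum of the influences of the edges near the centre. -/
noncomputable def Sn (β : Bool) (n : ℕ) (q : ℝ) : ℝ :=
  ∑ b ∈ ((boxE n).erase (e0 β)).filter (fun b => 4 * dst (e0 β) b ≤ n),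
    PQ q ((boxE n).erase (e0 β)) (Pf (fun F => Cn {src (e0 β)} {tgt (e0 β)} ↑F) b)

/-- Near-critical inputs: RSW and the four-arm bound. -/
def Near : Prop := ∀ ε : ℝ, 0 < ε → ∃ κ B : ℝ, 0 < κ ∧ 0 < B ∧ ∀ n : ℕ, 1 ≤ n → ∀ q : ℝ,
    |q - 1/2| ≤ κ * (n:ℝ)^(-(3/4) - ε) → H12S.Win q κ n ∧
      ∀ m : ℕ, 1 ≤ m → m ≤ n → H12S.a4 q m ≤ B * (m:ℝ)^(-(5/4) + ε)

/-- Infinite-volume probability that the ends of a horizontal (`β = true`) or vertical edge are
connected without this edge. -/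
noncomputable def cc (β : Bool) (q : ℝ) : ℝ := ⨆ n : ℕ, Dn β n q

/-- Edges of the `n × n` box of vertices. -/
noncomputable def BK (n : ℕ) : Finset Edg := RE 0 ((n:ℤ) - 1) 0 ((n:ℤ) - 1)

/-- Vertices of the `n × n` box. -/
noncomputable def VK (n : ℕ) : Finset Vtx := Icc 0 ((n:ℤ) - 1) ×ˢ Icc 0 ((n:ℤ) - 1)

/-- Expected number of clusters in the `n × n` box. -/
noncomputable def EN (n : ℕ) (p : ℝ) : ℝ :=
  Ex (fun _ => p) (BK n) (fun F => (NC src tgt (VK n) Set.univ (↑F : Set Edg) : ℝ))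

/-- Number of clusters per vertex. -/
noncomputable def kp (p : ℝ) : ℝ :=
  1 - ∫ s in (0:ℝ)..p, ((1 - cc true s) + (1 - cc false s))

/-- The smallest distance. -/
def dmin (a b z : Edg) : ℤ := min (dst a b) (min (dst a z) (dst b z))

/-- The largest distance from `a`. -/
def dmax (a b z : Edg) : ℤ := max (dst a b) (dst a z)

/-- The `n × n` box of the square lattice. -/
def gridG (n : ℕ) : SimpleGraph (Fin n × Fin n) where
  Adj u v := |(u.1:ℤ) - v.1| + |(u.2:ℤ) - v.2| = 1
  symm := ⟨fun u v h => by rw [abs_sub_comm (v.1:ℤ), abs_sub_comm (v.2:ℤ)]; exact h⟩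
  loopless := ⟨fun u h => by simp at h⟩

open Classical in
/-- Expected number of open clusters of bond percolation on the `n × n` box: the sum over all sets
`ω` of open edges. -/
noncomputable def meanClusters (n : ℕ) (p : ℝ) : ℝ :=
  ∑ ω ∈ (gridG n).edgeFinset.powerset,
    p ^ ω.card * (1 - p) ^ ((gridG n).edgeFinset.card - ω.card) *
      (Nat.card (SimpleGraph.fromEdgeSet (↑ω : Set (Sym2 (Fin n × Fin n)))).ConnectedComponent : ℝ)

end H31A
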