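import Pool.Agent.H31R4.Alp.A3
import Pool.Agent.H31R4.Alp.B1
import Pool.Agent.H31R4.Alp.B2
import Pool.Agent.H31R4.Alp.B3

/-! Task T5: bound for triples. -/

set_option maxHeartbeats 400000

namespace H31A

open H974 H12S H973N Finset

theorem t5_dst_comm (e g : Edg) : dst e g = dst g e := by
  unfold dst
  rw [abs_sub_comm, abs_sub_comm e.2.1]

theorem t5_dst_tri (e f g : Edg) : dst e g ≤ dst e f + dst f g := by
  unfold dst
  apply max_le
  · calc |e.1 - g.1| ≤ |e.1 - f.1| + |f.1 - g.1| := abs_sub_le _ _ _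
      _ ≤ _ := add_le_add (le_max_left _ _) (le_max_left _ _)
  · calc |e.2.1 - g.2.1| ≤ |e.2.1 - f.2.1| + |f.2.1 - g.2.1| := abs_sub_le _ _ _
      _ ≤ _ := add_le_add (le_max_right _ _) (le_max_right _ _)

theorem t5_dst_nonneg (e g : Edg) : 0 ≤ dst e g := by
  unfold dst
  exact (abs_nonneg _).trans (le_max_left _ _)

/-- both coordinates are bounded by the distance from the centre -/
theorem t5_coord (β : Bool) (e : Edg) :
    (-dst (e0 β) e ≤ e.1 ∧ e.1 ≤ dst (e0 β) e) ∧ (-dst (e0 β) e ≤ e.2.1 ∧ e.2.1 ≤ dst (e0 β) e) := by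
  have h1 : |(e0 β).1 - e.1| ≤ dst (e0 β) e := le_max_left _ _
  have h2 : |(e0 β).2.1 - e.2.1| ≤ dst (e0 β) e := le_max_right _ _
  have h3 : (e0 β).1 = 0 := rfl
  have h4 : (e0 β).2.1 = 0 := rfl
  rw [h3, abs_le] at h1
  rw [h4, abs_le] at h2
  omega

theorem t5_blk (β : Bool) {e : Edg} {n r : ℕ} (h : dst (e0 β) e + r ≤ n) :
    blk (bp e) r ⊆ boxE n := by
  have h1 := t5_coord β e
  unfold blk boxE bp
  apply RE_subset <;> simp only <;> omega

theorem t5_mem (β : Bool) {e : Edg} {n : ℕ} (h : dst (e0 β) e < n) : e ∈ boxE n := by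
  have h1 := t5_coord β e
  unfold boxE
  obtain ⟨x, y, _ | _⟩ := e
  · simp only at h1
    rw [mem_RE_false]; omega
  · simp only at h1
    rw [mem_RE_true]; omega

theorem t5_not_mem {c b : Edg} {R : ℕ} (h : (R:ℤ) < dst c b) : c ∉ blk (bp b) R := by
  intro hm
  have h2 : dst c b ≤ R := by
    unfold dst
    rw [max_le_iff, abs_le, abs_le]
    unfold blk bp at hm
    obtain ⟨x, y, _ | _⟩ := c
    · simp only [mem_RE_false] at hm
      simp only
      omega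
    · simp only [mem_RE_true] at hm
      simp only
      omega
  omega

theorem t5_pow {x y K s M : ℝ} (hx : 0 < x) (hy : 0 < y) (hK : 1 ≤ K) (h : x ≤ K * y)
    (hs : -M ≤ s) (hs0 : s ≤ 0) : y^s ≤ K^M * x^s := by
  have hK0 : 0 < K := by linarith
  have h1 : (K * y)^s ≤ x^s := Real.rpow_le_rpow_of_nonpos hx h hs0
  rw [Real.mul_rpow hK0.le hy.le] at h1
  have h2 : K^(-s) * (K^s * y^s) ≤ K^(-s) * x^s :=
    mul_le_mul_of_nonneg_left h1 (Real.rpow_nonneg hK0.le _)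
  rw [← mul_assoc, ← Real.rpow_add hK0] at h2
  simp only [neg_add_cancel, Real.rpow_zero, one_mul] at h2
  refine h2.trans ?_
  exact mul_le_mul_of_nonneg_right (Real.rpow_le_rpow_of_exponent_le hK (by linarith))
    (Real.rpow_nonneg hx.le _)

/-- the case of one edge far from the other two -/
theorem t5_far (κ : ℝ) (hκ : 0 < κ) {ε : ℝ} (h0 : 0 < ε) (h1 : ε ≤ 1/40) : ∃ C : ℝ, 0 < C ∧
    ∀ (q : ℝ) (n : ℕ) (A : ℝ), Win q κ n → 1 ≤ A →
    (∀ m : ℕ, 1 ≤ m → m ≤ n → a4 q m ≤ A * (m:ℝ)^(-(5/4) + ε)) →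
    ∀ (β : Bool) (c b z : Edg) (δ D : ℤ), b ≠ z → 2 * dst (e0 β) b ≤ n →
      2 * dst (e0 β) c ≤ n → dst b z = δ → 400 ≤ D → 100 * (δ + 1) < D → D - δ ≤ dst c b →
      2 * D ≤ n →
      t3 q (boxE n) c b z ≤ C * A^3 * (((δ : ℝ) + 1)^(-(3/2) + 2 * ε) *
        ((D : ℝ) + 1)^(-(9/4) + ε)) := by
  obtain ⟨C₀, hC₀, hann⟩ := ann κ hκ
  refine ⟨12 * 6^((5:ℝ)/4) * C₀ * (3 * 3^((3:ℝ)/2) + 8^((5:ℝ)/2)), by positivity, ?_⟩
  intro q n A hW hA ha4 β c b z δ D hbz hb hc hδ hD hδD hcb hn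
  have hq0 : 0 ≤ q := by have := hW.lo; linarith
  have hq1 : q ≤ 1 := by have := hW.hi; linarith
  have hδ0 : 0 ≤ δ := hδ ▸ t5_dst_nonneg b z
  set R : ℕ := (D / 4 - 1).toNat with hRdef
  have hR : (R:ℤ) = D / 4 - 1 := by rw [hRdef]; omega
  set ρ : ℕ := (2 * δ + 2).toNat with hρdef
  have hρ : (ρ:ℤ) = 2 * δ + 2 := by rw [hρdef]; omega
  have hR1 : 1 ≤ R := by omega
  have hρ1 : 1 ≤ ρ := by omega
  have hρR : ρ ≤ R := by omega
  have hRn : R ≤ n := by omega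
  have hcb2 : (R:ℤ) + R + 2 ≤ dst c b := by omega
  have hS : blk (bp b) R ⊆ boxE n := t5_blk β (by omega)
  have hS' : blk (bp c) R ⊆ boxE n := t5_blk β (by omega)
  have hX : PQ q ((boxE n).erase c) (fun F => X4 (bp b) ρ R ↑F) ≤ C₀ * ((ρ:ℝ) / R) := by
    refine hann q n hW (bp b) ρ R _ hρ1 hρR hRn ?_
    intro e he
    rw [Finset.mem_sdiff] at he
    refine Finset.mem_erase.2 ⟨?_, hS he.1⟩
    rintro rfl
    exact t5_not_mem (by omega) he.1
  have hX0 : 0 ≤ PQ q ((boxE n).erase c) (fun F => X4 (bp b) ρ R ↑F) :=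
    Pr_nonneg (fun _ => ⟨hq0, hq1⟩) _ _
  have ha4R := ha4 R hR1 hRn
  have ha4nn : ∀ m, 0 ≤ a4 q m := fun m => by
    unfold a4
    exact add_nonneg (Pr_nonneg (fun _ => ⟨hq0, hq1⟩) _ _) (Pr_nonneg (fun _ => ⟨hq0, hq1⟩) _ _)
  have hRpos : (0:ℝ) < R := by exact_mod_cast hR1
  have hDpos : (0:ℝ) < (D:ℝ) + 1 := by
    have : (400:ℝ) ≤ D := by exact_mod_cast hD
    linarith
  have hδpos : (1:ℝ) ≤ (δ:ℝ) + 1 := by
    have : (0:ℝ) ≤ δ := by exact_mod_cast hδ0
    linarith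
  have hδpos' : (0:ℝ) < (δ:ℝ) + 1 := by linarith
  have hA0 : 0 < A := by linarith
  have hR6 : (D:ℝ) + 1 ≤ 6 * R := by
    have : D + 1 ≤ 6 * R := by omega
    exact_mod_cast this
  -- the annulus event times the four-arm probability of the third edge
  have hkey : PQ q ((boxE n).erase c) (fun F => X4 (bp b) ρ R ↑F) * a4 q R ≤
      12 * 6^((5:ℝ)/4) * C₀ * A * (((δ:ℝ) + 1) * ((D : ℝ) + 1)^(-(9/4) + ε)) := by
    have hr1 : (ρ:ℝ) / R ≤ 12 * (((δ:ℝ) + 1) / ((D:ℝ) + 1)) := by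
      have hρr : (ρ:ℝ) = 2 * ((δ:ℝ) + 1) := by
        have : ((ρ:ℤ):ℝ) = ((2 * δ + 2 : ℤ) : ℝ) := by rw [hρ]
        push_cast at this
        linarith
      rw [hρr, ← mul_div_assoc, div_le_div_iff₀ hRpos hDpos]
      nlinarith
    have hr2 : (R:ℝ)^(-(5/4) + ε) ≤ 6^((5:ℝ)/4) * ((D:ℝ) + 1)^(-(5/4) + ε) :=
      t5_pow hDpos hRpos (by norm_num) hR6 (by linarith) (by linarith)
    calc PQ q ((boxE n).erase c) (fun F => X4 (bp b) ρ R ↑F) * a4 q R
        ≤ (C₀ * (12 * (((δ:ℝ) + 1) / ((D:ℝ) + 1)))) *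
          (A * (6^((5:ℝ)/4) * ((D:ℝ) + 1)^(-(5/4) + ε))) := by
          apply mul_le_mul _ _ (ha4nn R) (by positivity)
          · exact hX.trans (mul_le_mul_of_nonneg_left hr1 hC₀.le)
          · exact ha4R.trans (mul_le_mul_of_nonneg_left hr2 hA0.le)
      _ = 12 * 6^((5:ℝ)/4) * C₀ * A * (((δ:ℝ) + 1) * (((D : ℝ) + 1)^(-(5/4) + ε) / ((D:ℝ) + 1))) := by
          ring
      _ = _ := by
          congr 2
          rw [← Real.rpow_sub_one hDpos.ne']
          congr 1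
          ring
  set Dp : ℝ := ((D : ℝ) + 1)^(-(9/4) + ε) with hDp
  have hDp0 : 0 ≤ Dp := Real.rpow_nonneg hDpos.le _
  have hδp0 : 0 ≤ ((δ : ℝ) + 1)^(-(3/2) + 2 * ε) := Real.rpow_nonneg hδpos'.le _
  by_cases h3 : 3 ≤ δ
  · -- with local events
    set k : ℕ := ((δ - 1) / 2).toNat with hkdef
    have hk : (k:ℤ) = (δ - 1) / 2 := by rw [hkdef]; omega
    have hk1 : 1 ≤ k := by omega
    have hkn : k ≤ n := by omega
    have hfar := far2 (q := q) hq0 hq1 (Λ := boxE n) (c := c) (b := b) (z := z) (k := k) (ρ := ρ)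
      (R := R) (R' := R) hk1 (by omega) (by omega) hρR hR1 hcb2 hS hS'
    refine hfar.trans ?_
    have hkpos : (0:ℝ) < k := by exact_mod_cast hk1
    have hk8 : (δ:ℝ) + 1 ≤ 8 * k := by
      have : δ + 1 ≤ 8 * k := by omega
      exact_mod_cast this
    have hkp : (k:ℝ)^(-(5/4) + ε) ≤ 8^((5:ℝ)/4) * ((δ:ℝ) + 1)^(-(5/4) + ε) :=
      t5_pow hδpos' hkpos (by norm_num) hk8 (by linarith) (by linarith)
    have hak : a4 q k ≤ A * (8^((5:ℝ)/4) * ((δ:ℝ) + 1)^(-(5/4) + ε)) :=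
      (ha4 k hk1 hkn).trans (mul_le_mul_of_nonneg_left hkp hA0.le)
    have hak2 : a4 q k ^ 2 ≤ (A * (8^((5:ℝ)/4) * ((δ:ℝ) + 1)^(-(5/4) + ε)))^2 :=
      pow_le_pow_left₀ (ha4nn k) hak 2
    have hpow : (((δ:ℝ) + 1)^(-(5/4) + ε))^2 * ((δ:ℝ) + 1) = ((δ : ℝ) + 1)^(-(3/2) + 2 * ε) := by
      rw [← Real.rpow_natCast, ← Real.rpow_mul hδpos'.le, ← Real.rpow_add_one hδpos'.ne']
      congr 1
      push_cast
      ring
    have h8 : (8^((5:ℝ)/4))^2 = (8:ℝ)^((5:ℝ)/2) := by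
      rw [← Real.rpow_natCast, ← Real.rpow_mul (by norm_num)]
      norm_num
    calc a4 q k ^ 2 * (PQ q ((boxE n).erase c) (fun F => X4 (bp b) ρ R ↑F) * a4 q R)
        ≤ (A * (8^((5:ℝ)/4) * ((δ:ℝ) + 1)^(-(5/4) + ε)))^2 *
          (12 * 6^((5:ℝ)/4) * C₀ * A * (((δ:ℝ) + 1) * Dp)) := by
          apply mul_le_mul hak2 hkey (mul_nonneg hX0 (ha4nn R)) (by positivity)
      _ = 12 * 6^((5:ℝ)/4) * C₀ * (8^((5:ℝ)/4))^2 * A^3 *
          ((((δ:ℝ) + 1)^(-(5/4) + ε))^2 * ((δ:ℝ) + 1) * Dp) := by ring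
      _ = 12 * 6^((5:ℝ)/4) * C₀ * 8^((5:ℝ)/2) * A^3 *
          (((δ : ℝ) + 1)^(-(3/2) + 2 * ε) * Dp) := by rw [hpow, h8]
      _ ≤ _ := by
          apply mul_le_mul_of_nonneg_right _ (by positivity)
          apply mul_le_mul_of_nonneg_right _ (by positivity)
          apply mul_le_mul_of_nonneg_left _ (by positivity)
          have : (0:ℝ) ≤ 3 * 3^((3:ℝ)/2) := by positivity
          linarith
  · -- without local events
    have hfar := far1 (q := q) hq0 hq1 (Λ := boxE n) (c := c) (b := b) (z := z) (ρ := ρ)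
      (R := R) (R' := R) hbz (by omega) hρR hR1 hcb2 hS hS'
    refine hfar.trans (hkey.trans ?_)
    have hδ3 : (δ:ℝ) + 1 ≤ 3 := by
      have : δ + 1 ≤ 3 := by omega
      exact_mod_cast this
    have h4 : (1:ℝ)^(-(3/2) + 2 * ε) ≤ 3^((3:ℝ)/2) * ((δ : ℝ) + 1)^(-(3/2) + 2 * ε) :=
      t5_pow hδpos' one_pos (by norm_num) (by linarith) (by linarith) (by linarith)
    rw [Real.one_rpow] at h4
    have h5 : (δ:ℝ) + 1 ≤ 3 * 3^((3:ℝ)/2) * ((δ : ℝ) + 1)^(-(3/2) + 2 * ε) := by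
      calc (δ:ℝ) + 1 ≤ 3 * 1 := by linarith
        _ ≤ 3 * (3^((3:ℝ)/2) * ((δ : ℝ) + 1)^(-(3/2) + 2 * ε)) :=
          mul_le_mul_of_nonneg_left h4 (by norm_num)
        _ = _ := by ring
    have hA3 : A ≤ A^3 := by
      have : 1 ≤ A^2 := one_le_pow₀ hA
      nlinarith
    calc 12 * 6^((5:ℝ)/4) * C₀ * A * (((δ:ℝ) + 1) * Dp)
        ≤ 12 * 6^((5:ℝ)/4) * C₀ * A^3 *
          ((3 * 3^((3:ℝ)/2) * ((δ : ℝ) + 1)^(-(3/2) + 2 * ε)) * Dp) := by
          apply mul_le_mul _ _ (by positivity) (by positivity)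
          · exact mul_le_mul_of_nonneg_left hA3 (by positivity)
          · exact mul_le_mul_of_nonneg_right h5 hDp0
      _ = 12 * 6^((5:ℝ)/4) * C₀ * (3 * 3^((3:ℝ)/2)) * A^3 *
          (((δ : ℝ) + 1)^(-(3/2) + 2 * ε) * Dp) := by ring
      _ ≤ _ := by
          apply mul_le_mul_of_nonneg_right _ (by positivity)
          apply mul_le_mul_of_nonneg_right _ (by positivity)
          apply mul_le_mul_of_nonneg_left _ (by positivity)
          have : (0:ℝ) ≤ 8^((5:ℝ)/2) := by positivity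
          linarith

/-- T5 -/
theorem triple (κ : ℝ) (hκ : 0 < κ) {ε : ℝ} (h0 : 0 < ε) (h1 : ε ≤ 1/40) : ∃ C : ℝ, 0 < C ∧
    ∀ (q : ℝ) (n : ℕ) (A : ℝ), Win q κ n → 1 ≤ A →
    (∀ m : ℕ, 1 ≤ m → m ≤ n → a4 q m ≤ A * (m:ℝ)^(-(5/4) + ε)) →
    ∀ (β : Bool) (b z : Edg), b ≠ e0 β → z ≠ e0 β → b ≠ z → 2 * dst (e0 β) b ≤ n →
      2 * dst (e0 β) z ≤ n →
      t3 q (boxE n) (e0 β) b z ≤ C * A^3 * (((dmin (e0 β) b z : ℝ) + 1)^(-(3/2) + 2 * ε) *
        ((dmax (e0 β) b z : ℝ) + 1)^(-(9/4) + ε)) := by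
  obtain ⟨C₁, hC₁, hfar⟩ := t5_far κ hκ h0 h1
  refine ⟨C₁ + 400^((3:ℝ)/2) * 400^((9:ℝ)/4) + 8^((15:ℝ)/4) * 101^((9:ℝ)/4), by positivity, ?_⟩
  intro q n A hW hA ha4 β b z hb0 hz0 hbz hb hz
  have hq0 : 0 ≤ q := by have := hW.lo; linarith
  have hq1 : q ≤ 1 := by have := hW.hi; linarith
  have ha4nn : ∀ m, 0 ≤ a4 q m := fun m => by
    unfold a4
    exact add_nonneg (Pr_nonneg (fun _ => ⟨hq0, hq1⟩) _ _) (Pr_nonneg (fun _ => ⟨hq0, hq1⟩) _ _)
  have hA0 : 0 < A := by linarith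
  have hA3 : 1 ≤ A^3 := one_le_pow₀ hA
  set a : Edg := e0 β with ha
  set δ : ℤ := dmin a b z with hδdef
  set D : ℤ := dmax a b z with hDdef
  have hδ0 : 0 ≤ δ := by
    rw [hδdef]; unfold dmin
    exact le_min (t5_dst_nonneg _ _) (le_min (t5_dst_nonneg _ _) (t5_dst_nonneg _ _))
  have hδ1 : δ ≤ dst a b := min_le_left _ _
  have hδ2 : δ ≤ dst a z := (min_le_right _ _).trans (min_le_left _ _)
  have hδ3 : δ ≤ dst b z := (min_le_right _ _).trans (min_le_right _ _)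
  have hD1 : dst a b ≤ D := le_max_left _ _
  have hD2 : dst a z ≤ D := le_max_right _ _
  have hDcase : D = dst a b ∨ D = dst a z := by
    rw [hDdef]; unfold dmax
    rcases le_total (dst a b) (dst a z) with h | h
    · right; exact max_eq_right h
    · left; exact max_eq_left h
  have hδcase : δ = dst a b ∨ δ = dst a z ∨ δ = dst b z := by
    rw [hδdef]; unfold dmin
    rcases min_choice (dst a b) (min (dst a z) (dst b z)) with h | h
    · left; exact h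
    · right
      rcases min_choice (dst a z) (dst b z) with h' | h'
      · left; rw [h, h']
      · right; rw [h, h']
  have hDn : 2 * D ≤ n := by rcases hDcase with h | h <;> rw [h] <;> assumption
  have hδpos : (1:ℝ) ≤ (δ:ℝ) + 1 := by
    have : (0:ℝ) ≤ δ := by exact_mod_cast hδ0
    linarith
  have hδpos' : (0:ℝ) < (δ:ℝ) + 1 := by linarith
  have hD0 : 0 ≤ D := (t5_dst_nonneg a b).trans hD1
  have hDpos : (0:ℝ) < (D:ℝ) + 1 := by
    have : (0:ℝ) ≤ D := by exact_mod_cast hD0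
    linarith
  set dp : ℝ := ((δ : ℝ) + 1)^(-(3/2) + 2 * ε) with hdp
  set Dp : ℝ := ((D : ℝ) + 1)^(-(9/4) + ε) with hDp
  have hdp0 : 0 ≤ dp := Real.rpow_nonneg hδpos'.le _
  have hDp0 : 0 ≤ Dp := Real.rpow_nonneg hDpos.le _
  have hfin1 : C₁ * A^3 * (dp * Dp) ≤ (C₁ + 400^((3:ℝ)/2) * 400^((9:ℝ)/4) +
      8^((15:ℝ)/4) * 101^((9:ℝ)/4)) * A^3 * (dp * Dp) := by
    apply mul_le_mul_of_nonneg_right _ (by positivity)
    apply mul_le_mul_of_nonneg_right _ (by positivity)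
    have h2 : (0:ℝ) ≤ 400^((3:ℝ)/2) * 400^((9:ℝ)/4) := by positivity
    have h3 : (0:ℝ) ≤ 8^((15:ℝ)/4) * 101^((9:ℝ)/4) := by positivity
    linarith
  by_cases hD400 : D < 400
  · -- small distances
    have h2 : t3 q (boxE n) a b z ≤ 1 := Pr_le_one (fun _ => ⟨hq0, hq1⟩) _ _
    have h3 : (1:ℝ)^(-(3/2) + 2 * ε) ≤ 400^((3:ℝ)/2) * dp := by
      refine t5_pow hδpos' one_pos (by norm_num) ?_ (by linarith) (by linarith)
      have : δ + 1 ≤ 400 := by omega
      have : (δ:ℝ) + 1 ≤ 400 := by exact_mod_cast this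
      linarith
    have h4 : (1:ℝ)^(-(9/4) + ε) ≤ 400^((9:ℝ)/4) * Dp := by
      refine t5_pow hDpos one_pos (by norm_num) ?_ (by linarith) (by linarith)
      have : D + 1 ≤ 400 := by omega
      have : (D:ℝ) + 1 ≤ 400 := by exact_mod_cast this
      linarith
    rw [Real.one_rpow] at h3 h4
    calc t3 q (boxE n) a b z ≤ 1 * 1 := by rw [one_mul]; exact h2
      _ ≤ (400^((3:ℝ)/2) * dp) * (400^((9:ℝ)/4) * Dp) :=
          mul_le_mul h3 h4 (by norm_num) (by linarith)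
      _ = (400^((3:ℝ)/2) * 400^((9:ℝ)/4)) * 1 * (dp * Dp) := by ring
      _ ≤ (C₁ + 400^((3:ℝ)/2) * 400^((9:ℝ)/4) + 8^((15:ℝ)/4) * 101^((9:ℝ)/4)) * A^3 *
          (dp * Dp) := by
          apply mul_le_mul_of_nonneg_right _ (by positivity)
          apply mul_le_mul _ hA3 (by norm_num) (by positivity)
          have h6 : (0:ℝ) ≤ 8^((15:ℝ)/4) * 101^((9:ℝ)/4) := by positivity
          linarith
  · have hD400' : 400 ≤ D := not_lt.1 hD400
    by_cases hcmp : D ≤ 100 * (δ + 1)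
    · -- all distances comparable
      set k : ℕ := ((δ - 1) / 2).toNat with hkdef
      have hk : (k:ℤ) = (δ - 1) / 2 := by rw [hkdef]; omega
      have hk1 : 1 ≤ k := by omega
      have hkn : k ≤ n := by omega
      have hself : dst a a = 0 := by simp [dst]
      have hloc := three_loc (q := q) hq0 hq1 (Λ := boxE n) (c := a) (b := b) (z := z) (k := k)
        hk1 (by omega) (by omega) (by omega) (t5_blk β (by rw [← ha, hself]; omega))
        (t5_blk β (by rw [← ha]; omega)) (t5_blk β (by rw [← ha]; omega))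
      refine hloc.trans ?_
      have hkpos : (0:ℝ) < k := by exact_mod_cast hk1
      have hk8 : (δ:ℝ) + 1 ≤ 8 * k := by
        have : δ + 1 ≤ 8 * k := by omega
        exact_mod_cast this
      have hkp : (k:ℝ)^(-(5/4) + ε) ≤ 8^((5:ℝ)/4) * ((δ:ℝ) + 1)^(-(5/4) + ε) :=
        t5_pow hδpos' hkpos (by norm_num) hk8 (by linarith) (by linarith)
      have hak : a4 q k ≤ A * (8^((5:ℝ)/4) * ((δ:ℝ) + 1)^(-(5/4) + ε)) :=
        (ha4 k hk1 hkn).trans (mul_le_mul_of_nonneg_left hkp hA0.le)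
      have hak3 : a4 q k ^ 3 ≤ (A * (8^((5:ℝ)/4) * ((δ:ℝ) + 1)^(-(5/4) + ε)))^3 :=
        pow_le_pow_left₀ (ha4nn k) hak 3
      have hpow : (((δ:ℝ) + 1)^(-(5/4) + ε))^3 = dp * ((δ : ℝ) + 1)^(-(9/4) + ε) := by
        rw [← Real.rpow_natCast, ← Real.rpow_mul hδpos'.le, hdp, ← Real.rpow_add hδpos']
        congr 1
        push_cast
        ring
      have h8 : (8^((5:ℝ)/4))^3 = (8:ℝ)^((15:ℝ)/4) := by
        rw [← Real.rpow_natCast, ← Real.rpow_mul (by norm_num)]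
        norm_num
      have hδD : ((δ : ℝ) + 1)^(-(9/4) + ε) ≤ 101^((9:ℝ)/4) * Dp := by
        refine t5_pow hDpos hδpos' (by norm_num) ?_ (by linarith) (by linarith)
        have : D + 1 ≤ 101 * (δ + 1) := by omega
        exact_mod_cast this
      calc a4 q k ^ 3 ≤ (A * (8^((5:ℝ)/4) * ((δ:ℝ) + 1)^(-(5/4) + ε)))^3 := hak3
        _ = (8^((5:ℝ)/4))^3 * A^3 * (((δ:ℝ) + 1)^(-(5/4) + ε))^3 := by ring
        _ = 8^((15:ℝ)/4) * A^3 * (dp * ((δ : ℝ) + 1)^(-(9/4) + ε)) := by rw [hpow, h8]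
        _ ≤ 8^((15:ℝ)/4) * A^3 * (dp * (101^((9:ℝ)/4) * Dp)) := by
            apply mul_le_mul_of_nonneg_left _ (by positivity)
            exact mul_le_mul_of_nonneg_left hδD hdp0
        _ = (8^((15:ℝ)/4) * 101^((9:ℝ)/4)) * A^3 * (dp * Dp) := by ring
        _ ≤ _ := by
            apply mul_le_mul_of_nonneg_right _ (by positivity)
            apply mul_le_mul_of_nonneg_right _ (by positivity)
            have h6 : (0:ℝ) ≤ 400^((3:ℝ)/2) * 400^((9:ℝ)/4) := by positivity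
            linarith
    · -- one edge far from the two others
      have hcmp' : 100 * (δ + 1) < D := not_le.1 hcmp
      refine le_trans ?_ hfin1
      have hself : dst a a = 0 := by simp [dst]
      have hab : a ≠ b := fun h => hb0 h.symm
      have haz : a ≠ z := fun h => hz0 h.symm
      have hma : a ∈ boxE n := t5_mem β (by rw [← ha, hself]; omega)
      have hmb : b ∈ boxE n := t5_mem β (by rw [← ha]; omega)
      have hmz : z ∈ boxE n := t5_mem β (by rw [← ha]; omega)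
      rcases hδcase with h | h | h
      · -- pair `a, b`, far edge `z`
        have hDz : D = dst a z := by
          rcases hDcase with h' | h'
          · omega
          · exact h'
        rw [t3_sym q hab haz hbz hma hmb hmz]
        have hza : dst z a = dst a z := t5_dst_comm z a
        exact hfar q n A hW hA ha4 β z a b δ D hab (by rw [← ha, hself]; omega) (by omega)
          h.symm hD400' hcmp' (by omega) hDn
      · -- pair `a, z`, far edge `b`
        have hDb : D = dst a b := by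
          rcases hDcase with h' | h'
          · exact h'
          · omega
        rw [t3_comm q (boxE n) a b z, t3_sym q haz hab (Ne.symm hbz) hma hmz hmb]
        have hba : dst b a = dst a b := t5_dst_comm b a
        exact hfar q n A hW hA ha4 β b a z δ D haz (by rw [← ha, hself]; omega) (by omega)
          h.symm hD400' hcmp' (by omega) hDn
      · -- pair `b, z`, far edge `a`
        have htri := t5_dst_tri a b z
        exact hfar q n A hW hA ha4 β a b z δ D hbz (by omega) (by rw [← ha, hself]; omega)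
          h.symm hD400' hcmp' (by rcases hDcase with h' | h' <;> omega) hDn

end H31A
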