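import Pool.Agent.H31R4.Alp.Defs
import Pool.Agent.H973R3.NC.FP
import Pool.Agent.H973R3.NC.AR

/-! Influences outside a block for the connection of the ends of the central edge (tools for the
tasks T7, T8). -/

set_option maxHeartbeats 400000

namespace H31A

open H974 H12S H973N H973N.FPX Finset

theorem oi_dst (β : Bool) (z : Edg) : dst (e0 β) z = max |z.1| |z.2.1| := by
  unfold dst e0
  simp

theorem oi_union (f : Edg → ℝ) (hf : ∀ z, 0 ≤ f z) (S T : Finset Edg) :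
    ∑ z ∈ S ∪ T, f z ≤ ∑ z ∈ S, f z + ∑ z ∈ T, f z := by
  have h1 := Finset.sum_union_inter (s₁ := S) (s₂ := T) (f := f)
  have h2 : 0 ≤ ∑ z ∈ S ∩ T, f z := Finset.sum_nonneg (fun z _ => hf z)
  linarith

/-- A rectangle away from the centre. -/
theorem oi_rect {κ C : ℝ} (hW : ∀ (q : ℝ) (n : ℕ), Win q κ n →
    ∀ (a b c d : ℤ) (K Λ : ℕ), 1 ≤ Λ → 4 * 2^K ≤ n → b - a ≤ Λ * 2^K → d - c ≤ Λ * 2^K →
    ∀ (S : Finset Edg) (I J : Set Vtx) (O : Set Edg), Disjoint O ↑S → Off a b c d I J →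
    ∀ G : Finset Edg, G ⊆ S → G ⊆ RE a b c d →
    (∀ g ∈ G, ∀ e ∈ RE (a + 1) (b - 1) (c + 1) (d - 1), dst e g ≤ 8 * 2^K → e ∈ S) →
    ∑ g ∈ G, PQ q S (Pf (CO I J O) g) ≤ C * Λ * W1s q K)
    {q : ℝ} {n : ℕ} (h : Win q κ n) {K : ℕ} (hK : 4 * 2^K ≤ n) (hK' : n < 8 * 2^K)
    {r0 : ℕ} {β : Bool} {O : Finset Edg} (hO : O ⊆ blk (0,0) r0)
    {a b c d : ℤ} (ha : -(n:ℤ) ≤ a) (hb : b ≤ n) (hc : -(n:ℤ) ≤ c) (hd : d ≤ n)
    (hout : (r0:ℤ) < a ∨ b < -(r0:ℤ) ∨ (r0:ℤ) < c ∨ d < -(r0:ℤ)) (hr : 1 ≤ r0)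
    {G : Finset Edg} (hG : G ⊆ RE a b c d) :
    ∑ g ∈ G, PQ q (boxE n \ blk (0,0) r0) (Pf (CO {src (e0 β)} {tgt (e0 β)} ↑O) g) ≤
      16 * C * W1s q K := by
  have hsub : RE a b c d ⊆ boxE n \ blk (0,0) r0 := by
    rintro ⟨x, y, _ | _⟩ hx
    · unfold boxE blk
      rw [Finset.mem_sdiff, mem_RE_false, mem_RE_false]
      rw [mem_RE_false] at hx
      simp only
      omega
    · unfold boxE blk
      rw [Finset.mem_sdiff, mem_RE_true, mem_RE_true]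
      rw [mem_RE_true] at hx
      simp only
      omega
  have hKZ : (n:ℤ) < 8 * 2^K := by exact_mod_cast hK'
  have k := hW q n h a b c d K 16 (by norm_num) hK (by push_cast; linarith)
    (by push_cast; linarith) (boxE n \ blk (0,0) r0) {src (e0 β)} {tgt (e0 β)} (↑O) ?_ ?_ G
    (hG.trans hsub) hG ?_
  · refine k.trans (le_of_eq ?_)
    push_cast
    ring
  · rw [Finset.disjoint_coe, Finset.disjoint_left]
    intro x hx hx'
    exact (Finset.mem_sdiff.mp hx').2 (hO hx)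
  · intro v hv hv'
    have hv2 : (0 ≤ v.1 ∧ v.1 ≤ 1) ∧ (0 ≤ v.2 ∧ v.2 ≤ 1) := by
      rcases hv with hv | hv
      · rw [Set.mem_singleton_iff] at hv
        subst hv
        unfold e0
        simp
      · rw [Set.mem_singleton_iff] at hv
        subst hv
        unfold e0
        cases β <;> simp
    omega
  · intro g _ e he _
    exact hsub (RE_subset (by omega) (by omega) (by omega) (by omega) he)

/-- Influences outside a block. -/
theorem outer_infl (κ : ℝ) (hκ : 0 < κ) {ε : ℝ} (h0 : 0 < ε) (h1 : ε ≤ 1/40) : ∃ C : ℝ, 0 < C ∧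
    ∀ (q : ℝ) (n : ℕ) (A : ℝ), 64 ≤ n → Win q κ n → 1 ≤ A →
    (∀ m : ℕ, 1 ≤ m → m ≤ n → a4 q m ≤ A * (m:ℝ)^(-(5/4) + ε)) →
    ∀ (r0 s : ℕ) (β : Bool), 1 ≤ r0 → r0 < s → ∀ O : Finset Edg, O ⊆ blk (0,0) r0 →
      ∀ G : Finset Edg, G ⊆ boxE n → (∀ z ∈ G, (s:ℤ) < dst (e0 β) z) →
      ∑ z ∈ G, PQ q (boxE n \ blk (0,0) r0) (Pf (CO {src (e0 β)} {tgt (e0 β)} ↑O) z) ≤
        C * A * (n:ℝ)^((3/4 : ℝ) + ε) := by
  classical
  obtain ⟨C1, hC1, hW⟩ := whitney_sum κ hκ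
  obtain ⟨C2, hC2, hB⟩ := W_bounds h0 (show ε < 1/4 by linarith)
  refine ⟨64 * C1 * C2, by positivity, ?_⟩
  intro q n A hn hw hA ha4 r0 s β hr0 hs O hO G hG hGd
  have hq0 : 0 ≤ q := by linarith [hw.lo]
  have hq1 : q ≤ 1 := by linarith [hw.hi]
  have hok : Ok (fun _ : Edg => q) := fun _ => ⟨hq0, hq1⟩
  obtain ⟨K, hK, hK'⟩ : ∃ K : ℕ, 4 * 2^K ≤ n ∧ n < 8 * 2^K := by
    have e1 : 2 ^ Nat.log 2 n ≤ n := Nat.pow_log_le_self 2 (by omega)
    have e2 : n < 2 ^ (Nat.log 2 n + 1) := Nat.lt_pow_succ_log_self (by norm_num) n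
    have e3 : 2 ≤ Nat.log 2 n := by
      have : Nat.log 2 4 ≤ Nat.log 2 n := Nat.log_mono_right (by omega)
      have h4 : Nat.log 2 4 = 2 := by
        rw [show (4:ℕ) = 2^2 by norm_num, Nat.log_pow (by norm_num)]
      omega
    obtain ⟨L, hL⟩ : ∃ L, Nat.log 2 n = L + 2 := ⟨Nat.log 2 n - 2, by omega⟩
    rw [hL] at e1 e2
    refine ⟨L, ?_, ?_⟩
    · calc 4 * 2^L = 2^(L+2) := by ring
        _ ≤ n := e1
    · calc n < 2^(L+2+1) := e2
        _ = 8 * 2^L := by ring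
  have hW1 : W1s q K ≤ C2 * A * (n:ℝ)^((3/4 : ℝ) + ε) := by
    have k1 := (hB q A K hq0 hq1 hA ?_).1
    · refine k1.trans ?_
      apply mul_le_mul_of_nonneg_left _ (by positivity)
      apply Real.rpow_le_rpow (by positivity) _ (by linarith)
      have : 2^K ≤ n := by omega
      exact_mod_cast this
    · intro k hk
      have h2 : 2^k ≤ 2^K := Nat.pow_le_pow_right (by norm_num) hk
      have := ha4 (2^k) Nat.one_le_two_pow (by omega)
      push_cast at this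
      exact this
  set f : Edg → ℝ := fun z => PQ q (boxE n \ blk (0,0) r0)
    (Pf (CO {src (e0 β)} {tgt (e0 β)} ↑O) z) with hf
  have hf0 : ∀ z, 0 ≤ f z := fun z => Pr_nonneg hok _ _
  have hcov : ∀ z ∈ G, z ∈ RE (s:ℤ) n (-n) n ∨ z ∈ RE (-n:ℤ) (-s) (-n) n ∨
      z ∈ RE (-n:ℤ) n s n ∨ z ∈ RE (-n:ℤ) n (-n) (-s) := by
    intro z hz
    have k1 := hG hz
    have k2 := hGd z hz
    rw [oi_dst, lt_max_iff, lt_abs, lt_abs] at k2
    obtain ⟨x, y, _ | _⟩ := z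
    · unfold boxE at k1
      rw [mem_RE_false] at k1 ⊢
      rw [mem_RE_false, mem_RE_false, mem_RE_false]
      simp only at k2
      omega
    · unfold boxE at k1
      rw [mem_RE_true] at k1 ⊢
      rw [mem_RE_true, mem_RE_true, mem_RE_true]
      simp only at k2
      omega
  have hsplit : ∑ z ∈ G, f z ≤ ∑ z ∈ G ∩ RE (s:ℤ) n (-n) n, f z +
      (∑ z ∈ G ∩ RE (-n:ℤ) (-s) (-n) n, f z + (∑ z ∈ G ∩ RE (-n:ℤ) n s n, f z +
        ∑ z ∈ G ∩ RE (-n:ℤ) n (-n) (-s), f z)) := by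
    have hsub : G ⊆ (G ∩ RE (s:ℤ) n (-n) n) ∪ ((G ∩ RE (-n:ℤ) (-s) (-n) n) ∪
        ((G ∩ RE (-n:ℤ) n s n) ∪ (G ∩ RE (-n:ℤ) n (-n) (-s)))) := by
      intro z hz
      rw [Finset.mem_union, Finset.mem_union, Finset.mem_union, Finset.mem_inter,
        Finset.mem_inter, Finset.mem_inter, Finset.mem_inter]
      rcases hcov z hz with h | h | h | h
      · exact Or.inl ⟨hz, h⟩
      · exact Or.inr (Or.inl ⟨hz, h⟩)
      · exact Or.inr (Or.inr (Or.inl ⟨hz, h⟩))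
      · exact Or.inr (Or.inr (Or.inr ⟨hz, h⟩))
    refine (Finset.sum_le_sum_of_subset_of_nonneg hsub (fun z _ _ => hf0 z)).trans ?_
    refine (oi_union f hf0 _ _).trans (add_le_add le_rfl ?_)
    refine (oi_union f hf0 _ _).trans (add_le_add le_rfl ?_)
    exact oi_union f hf0 _ _
  have b1 := oi_rect hW hw hK hK' (β := β) hO (a := s) (b := n) (c := -n) (d := n) (by omega)
    le_rfl le_rfl le_rfl (Or.inl (by omega)) hr0 (G := G ∩ RE (s:ℤ) n (-n) n)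
    Finset.inter_subset_right
  have b2 := oi_rect hW hw hK hK' (β := β) hO (a := -n) (b := -s) (c := -n) (d := n) le_rfl
    (by omega) le_rfl le_rfl (Or.inr (Or.inl (by omega))) hr0 (G := G ∩ RE (-n:ℤ) (-s) (-n) n)
    Finset.inter_subset_right
  have b3 := oi_rect hW hw hK hK' (β := β) hO (a := -n) (b := n) (c := s) (d := n) le_rfl
    le_rfl (by omega) le_rfl (Or.inr (Or.inr (Or.inl (by omega)))) hr0
    (G := G ∩ RE (-n:ℤ) n s n) Finset.inter_subset_right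
  have b4 := oi_rect hW hw hK hK' (β := β) hO (a := -n) (b := n) (c := -n) (d := -s) le_rfl
    le_rfl le_rfl (by omega) (Or.inr (Or.inr (Or.inr (by omega)))) hr0
    (G := G ∩ RE (-n:ℤ) n (-n) (-s)) Finset.inter_subset_right
  calc ∑ z ∈ G, f z ≤ 16 * C1 * W1s q K + (16 * C1 * W1s q K + (16 * C1 * W1s q K +
        16 * C1 * W1s q K)) :=
        hsplit.trans (add_le_add b1 (add_le_add b2 (add_le_add b3 b4)))
    _ = 64 * C1 * W1s q K := by ring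
    _ ≤ 64 * C1 * (C2 * A * (n:ℝ)^((3/4 : ℝ) + ε)) :=
        mul_le_mul_of_nonneg_left hW1 (by positivity)
    _ = 64 * C1 * C2 * A * (n:ℝ)^((3/4 : ℝ) + ε) := by ring

end H31A
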