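import Pool.Agent.H31R4.Alp.A3
import Pool.Agent.H31R4.Alp.B4
import Pool.Agent.H31R4.Alp.OI

/-! Task T7: sum over the outer edges. -/

set_option maxHeartbeats 400000

namespace H31A

open H974 H12S H973N H973N.FPX H973N.NP Finset

/-- The second difference with an edge outside the block. -/
theorem t7_key {I J : Set Vtx} {b z : Edg} {In : Finset Edg} (hbz : z ≠ b) (hz : z ∉ In)
    {w F : Finset Edg} (hw : w ⊆ In) (hbF : b ∉ F)
    (h : SD (fun F => Cn I J (↑F : Set Edg)) b z (w ∪ F)) :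
    Pf (CO I J ↑(w.erase b)) z F ∨ Pf (CO I J ↑(insert b w)) z F := by
  have hzw : z ∉ w := fun h => hz (hw h)
  rcases h.2.1 with h' | h'
  · left
    have s1 : (↑(insert z ((w ∪ F).erase b)) : Set Edg) =
        ↑(insert z F) ∪ ↑(w.erase b) := by
      ext x
      simp only [Finset.coe_insert, Finset.coe_erase, Finset.coe_union, Set.mem_insert_iff,
        Set.mem_sdiff, Set.mem_union, Finset.mem_coe, Set.mem_singleton_iff]
      constructor
      · rintro (h | ⟨h | h, h'⟩)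
        · exact Or.inl (Or.inl h)
        · exact Or.inr ⟨h, h'⟩
        · exact Or.inl (Or.inr h)
      · rintro ((h | h) | ⟨h, h'⟩)
        · exact Or.inl h
        · exact Or.inr ⟨Or.inr h, fun hxe => hbF (hxe ▸ h)⟩
        · exact Or.inr ⟨Or.inl h, h'⟩
    have s2 : (↑(((w ∪ F).erase b).erase z) : Set Edg) =
        ↑(F.erase z) ∪ ↑(w.erase b) := by
      ext x
      simp only [Finset.coe_erase, Finset.coe_union,
        Set.mem_sdiff, Set.mem_union, Finset.mem_coe, Set.mem_singleton_iff]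
      constructor
      · rintro ⟨⟨h | h, h'⟩, h''⟩
        · exact Or.inr ⟨h, h'⟩
        · exact Or.inl ⟨h, h''⟩
      · rintro (⟨h, h'⟩ | ⟨h, h'⟩)
        · exact ⟨⟨Or.inr h, fun hxe => hbF (hxe ▸ h)⟩, h'⟩
        · exact ⟨⟨Or.inl h, h'⟩, fun hxg => hzw (hxg ▸ h)⟩
    unfold Pf at h' ⊢
    unfold CO
    rw [← s1, ← s2]
    exact h'
  · right
    have s1 : (↑(insert z (insert b (w ∪ F))) : Set Edg) =
        ↑(insert z F) ∪ ↑(insert b w) := by
      ext x
      simp only [Finset.coe_insert, Finset.coe_union, Set.mem_insert_iff,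
        Set.mem_union, Finset.mem_coe]
      tauto
    have s2 : (↑((insert b (w ∪ F)).erase z) : Set Edg) =
        ↑(F.erase z) ∪ ↑(insert b w) := by
      ext x
      simp only [Finset.coe_insert, Finset.coe_erase, Finset.coe_union,
        Set.mem_sdiff, Set.mem_union, Set.mem_insert_iff, Finset.mem_coe,
        Set.mem_singleton_iff]
      constructor
      · rintro ⟨h | h | h, h'⟩
        · exact Or.inr (Or.inl h)
        · exact Or.inr (Or.inr h)
        · exact Or.inl ⟨h, h'⟩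
      · rintro (⟨h, h'⟩ | h | h)
        · exact ⟨Or.inr (Or.inr h), h'⟩
        · exact ⟨Or.inl h, fun hxg => hbz (hxg ▸ h)⟩
        · exact ⟨Or.inr (Or.inl h), fun hxg => hzw (hxg ▸ h)⟩
    unfold Pf at h' ⊢
    unfold CO
    rw [← s1, ← s2]
    exact h'

theorem t7_X4_congr {c : ℤ × ℤ} {r R : ℕ} {F F' : Set Edg}
    (h : ∀ x ∈ blk c R, x ∉ blk c r → (x ∈ F ↔ x ∈ F')) : X4 c r R F ↔ X4 c r R F' := by
  have e1 : F ∩ ↑(blk c R \ blk c r) = F' ∩ ↑(blk c R \ blk c r) := by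
    ext x
    simp only [Set.mem_inter_iff, Finset.mem_coe, Finset.mem_sdiff]
    constructor
    · rintro ⟨h1, h2, h3⟩
      exact ⟨(h x h2 h3).mp h1, h2, h3⟩
    · rintro ⟨h1, h2, h3⟩
      exact ⟨(h x h2 h3).mpr h1, h2, h3⟩
  unfold X4
  rw [e1]

theorem t7_blk {e : Edg} {k r : ℕ} (h : |e.1| + k ≤ r) (h' : |e.2.1| + k ≤ r) :
    blk (bp e) k ⊆ blk (0,0) r := by
  have h1 := le_abs_self e.1
  have h2 := neg_abs_le e.1
  have h3 := le_abs_self e.2.1
  have h4 := neg_abs_le e.2.1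
  unfold blk bp
  apply RE_subset <;> simp only <;> omega

/-- Two local four-arm events and an event outside. -/
theorem t7_two {q : ℝ} (h0 : 0 ≤ q) (h1 : q ≤ 1) {r0 k ρ : ℕ} {β : Bool} {b : Edg}
    (hk : 1 ≤ k) (h2k : 2 * (k:ℤ) < dst (e0 β) b) (hρ : dst (e0 β) b + k ≤ ρ)
    (hr : dst (e0 β) b + k ≤ r0) {B : Finset Edg → Prop}
    (hB : ∀ F F' : Finset Edg, (∀ x ∈ blk (0,0) r0, x ∉ blk (0,0) ρ → (x ∈ F ↔ x ∈ F')) →
      (B F ↔ B F')) :
    PQ q ((blk (0,0) r0).erase (e0 β)) (fun F => L4 k (e0 β) ↑F ∧ L4 k b ↑F ∧ B F) ≤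
      a4 q k * (a4 q k * PQ q (blk (0,0) r0) B) := by
  have hd1 : |b.1| ≤ dst (e0 β) b := by rw [oi_dst]; exact le_max_left _ _
  have hd2 : |b.2.1| ≤ dst (e0 β) b := by rw [oi_dst]; exact le_max_right _ _
  have hbr : blk (bp b) k ⊆ blk (0,0) r0 := t7_blk (by omega) (by omega)
  have hbρ : blk (bp b) k ⊆ blk (0,0) ρ := t7_blk (by omega) (by omega)
  have har : blk (bp (e0 β)) k ⊆ blk (0,0) r0 := by
    apply t7_blk <;> simp [e0] <;> omega
  have haρ : blk (bp (e0 β)) k ⊆ blk (0,0) ρ := by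
    apply t7_blk <;> simp [e0] <;> omega
  have hab : e0 β ∈ blk (bp (e0 β)) k := self_mem_blk hk
  have hdis : ∀ x ∈ blk (bp b) k, x ∉ blk (bp (e0 β)) k := by
    intro x hx hx'
    have k1 := mem_blk_dst hx
    have k2 := mem_blk_dst hx'
    have k3 := dst_tri (e0 β) x b
    rw [dst_comm x b] at k3
    omega
  have e1 : PQ q (blk (0,0) r0) (fun F => L4 k (e0 β) ↑F ∧ L4 k b ↑F ∧ B F) =
      PQ q ((blk (0,0) r0).erase (e0 β)) (fun F => L4 k (e0 β) ↑F ∧ L4 k b ↑F ∧ B F) := by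
    refine Pr_local (Finset.erase_subset _ _) ?_
    intro F hF
    have k1 : L4 k (e0 β) (↑F : Set Edg) ↔
        L4 k (e0 β) (↑(F ∩ (blk (0,0) r0).erase (e0 β)) : Set Edg) := by
      apply L4_congr'
      intro x hx hxe
      rw [Finset.mem_inter]
      exact ⟨fun h => ⟨h, Finset.mem_erase.mpr ⟨hxe, hF h⟩⟩, fun h => h.1⟩
    have k2 : L4 k b (↑F : Set Edg) ↔
        L4 k b (↑(F ∩ (blk (0,0) r0).erase (e0 β)) : Set Edg) := by
      apply L4_congr'
      intro x hx hxe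
      rw [Finset.mem_inter]
      exact ⟨fun h => ⟨h, Finset.mem_erase.mpr ⟨fun h' => hdis x hx (h' ▸ hab), hF h⟩⟩,
        fun h => h.1⟩
    have k3 : B F ↔ B (F ∩ (blk (0,0) r0).erase (e0 β)) := by
      apply hB
      intro x hx hxρ
      rw [Finset.mem_inter]
      exact ⟨fun h => ⟨h, Finset.mem_erase.mpr ⟨fun h' => hxρ (haρ (h' ▸ hab)), hF h⟩⟩,
        fun h => h.1⟩
    rw [k1, k2, k3]
  rw [← e1]
  have e2 := indep_L4 h0 h1 har (B := fun F => L4 k b (↑F : Set Edg) ∧ B F) (by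
    intro F hF
    have k2 : L4 k b (↑F : Set Edg) ↔
        L4 k b (↑(F ∩ (blk (0,0) r0 \ blk (bp (e0 β)) k)) : Set Edg) := by
      apply L4_congr'
      intro x hx hxe
      rw [Finset.mem_inter, Finset.mem_sdiff]
      exact ⟨fun h => ⟨h, hF h, hdis x hx⟩, fun h => h.1⟩
    have k3 : B F ↔ B (F ∩ (blk (0,0) r0 \ blk (bp (e0 β)) k)) := by
      apply hB
      intro x hx hxρ
      rw [Finset.mem_inter, Finset.mem_sdiff]
      exact ⟨fun h => ⟨h, hF h, fun h' => hxρ (haρ h')⟩, fun h => h.1⟩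
    show (L4 k b (↑F : Set Edg) ∧ B F) ↔ (L4 k b
      (↑(F ∩ (blk (0,0) r0 \ blk (bp (e0 β)) k)) : Set Edg) ∧
        B (F ∩ (blk (0,0) r0 \ blk (bp (e0 β)) k)))
    rw [k2, k3])
  have e3 := indep_L4 h0 h1 hbr (B := B) (by
    intro F hF
    apply hB
    intro x hx hxρ
    rw [Finset.mem_inter, Finset.mem_sdiff]
    exact ⟨fun h => ⟨h, hF h, fun h' => hxρ (hbρ h')⟩, fun h => h.1⟩)
  exact e2.trans (mul_le_mul_of_nonneg_left e3 (a4_nonneg h0 h1 k))

/-- The inner event. -/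
theorem t7_inner (κ : ℝ) (hκ : 0 < κ) {ε : ℝ} (h0 : 0 < ε) (h1 : ε ≤ 1/40) : ∃ C : ℝ, 0 < C ∧
    ∀ (q : ℝ) (n : ℕ) (A : ℝ), 64 ≤ n → Win q κ n → 1 ≤ A →
    (∀ m : ℕ, 1 ≤ m → m ≤ n → a4 q m ≤ A * (m:ℝ)^(-(5/4) + ε)) →
    ∀ (β : Bool) (b : Edg), b ≠ e0 β → 4 * dst (e0 β) b ≤ n →
      ∃ D : Finset Edg → Prop,
        (∀ w ⊆ (blk (0,0) (3 * n / 8)).erase (e0 β), ∀ F : Finset Edg,
          (∀ x ∈ F, x ∉ blk (0,0) (3 * n / 8)) → ∀ z : Edg, (n:ℤ) < 2 * dst (e0 β) z →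
          SD (fun F => Cn {src (e0 β)} {tgt (e0 β)} (↑F : Set Edg)) b z (w ∪ F) → D w) ∧
        PQ q ((blk (0,0) (3 * n / 8)).erase (e0 β)) D ≤
          C * A^2 * ((dst (e0 β) b : ℝ) + 1)^(-(3/2) + 2 * ε) / n := by
  obtain ⟨C, hC, hann⟩ := ann κ hκ
  refine ⟨2048 * C + 2048, by positivity, ?_⟩
  intro q n A hn hw hA ha4 β b hb hbn
  have hq0 : 0 ≤ q := by linarith [hw.lo]
  have hq1 : q ≤ 1 := by linarith [hw.hi]
  have hok : Ok (fun _ : Edg => q) := fun _ => ⟨hq0, hq1⟩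
  obtain ⟨r0, hr0⟩ : ∃ r0 : ℕ, r0 = 3 * n / 8 := ⟨_, rfl⟩
  rw [← hr0]
  have hdn : 0 ≤ dst (e0 β) b := (abs_nonneg _).trans (le_max_left _ _)
  obtain ⟨δ, hδ⟩ := Int.eq_ofNat_of_zero_le hdn
  have hδr : ((dst (e0 β) b : ℤ) : ℝ) = (δ : ℝ) := by rw [hδ]; simp
  rw [hδr]
  have hnr : (0:ℝ) < n := by
    have : 0 < n := by omega
    exact_mod_cast this
  obtain ⟨x, hx⟩ : ∃ x : ℝ, x = (δ:ℝ) + 1 := ⟨_, rfl⟩
  rw [← hx]
  have hx1 : 1 ≤ x := by
    have : (0:ℝ) ≤ δ := Nat.cast_nonneg _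
    linarith
  have hx0 : 0 < x := by linarith
  obtain ⟨X, hX⟩ : ∃ X : ℝ, X = x^(-(3/2) + 2 * ε) := ⟨_, rfl⟩
  obtain ⟨Y, hY⟩ : ∃ Y : ℝ, Y = x^(-(5/4) + ε) := ⟨_, rfl⟩
  rw [← hX]
  have hX0 : 0 < X := by rw [hX]; positivity
  have hY0 : 0 < Y := by rw [hY]; positivity
  have hYY : Y * Y * x = X := by
    rw [hY, hX]
    nth_rewrite 3 [← Real.rpow_one x]
    rw [← Real.rpow_add hx0, ← Real.rpow_add hx0]
    congr 1
    ring
  -- one-point bound
  obtain ⟨k, hk⟩ : ∃ k : ℕ, k = (δ - 1) / 2 := ⟨_, rfl⟩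
  have ha : 3 ≤ δ → a4 q k ≤ A * (16 * Y) := by
    intro h3
    refine (ha4 k (by omega) (by omega)).trans ?_
    apply mul_le_mul_of_nonneg_left _ (by linarith)
    have k1 : x / 8 ≤ k := by
      rw [div_le_iff₀ (by norm_num), hx]
      have : δ + 1 ≤ k * 8 := by omega
      exact_mod_cast this
    calc ((k:ℕ):ℝ)^(-(5/4 : ℝ) + ε) ≤ (x / 8)^(-(5/4 : ℝ) + ε) :=
          Real.rpow_le_rpow_of_nonpos (by positivity) k1 (by linarith)
      _ = (8:ℝ)^((5/4 : ℝ) - ε) * x^(-(5/4 : ℝ) + ε) := by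
          rw [Real.div_rpow hx0.le (by norm_num), div_eq_mul_inv, ← Real.rpow_neg (by norm_num),
            mul_comm]
          congr 2
          ring
      _ ≤ 16 * Y := by
          rw [hY]
          apply mul_le_mul_of_nonneg_right _ (by positivity)
          calc (8:ℝ)^((5/4 : ℝ) - ε) ≤ (8:ℝ)^(4/3 : ℝ) :=
                Real.rpow_le_rpow_of_exponent_le (by norm_num) (by linarith)
            _ = 16 := by
                rw [show (8:ℝ) = (2:ℝ)^(3:ℝ) by norm_num, ← Real.rpow_mul (by norm_num)]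
                norm_num
  have han : 0 ≤ a4 q k := a4_nonneg hq0 hq1 k
  have hbp : bp (e0 β) = (0, 0) := rfl
  -- the annulus
  obtain ⟨ρ, hρ⟩ : ∃ ρ : ℕ, ρ = 2 * δ + 2 := ⟨_, rfl⟩
  have hXa : ρ ≤ r0 → PQ q (blk (0,0) r0) (fun F => X4 (0,0) ρ r0 ↑F) ≤ C * (8 * x / n) := by
    intro hle
    refine (hann q n hw (0,0) ρ r0 (blk (0,0) r0) (by omega) hle (by omega)
      Finset.sdiff_subset).trans ?_
    apply mul_le_mul_of_nonneg_left _ hC.le
    have e1 : (ρ:ℝ) = 2 * x := by rw [hρ, hx]; push_cast; ring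
    have e2 : (n:ℝ) / 4 ≤ r0 := by
      rw [div_le_iff₀ (by norm_num)]
      have : n ≤ r0 * 4 := by omega
      exact_mod_cast this
    have e3 : (0:ℝ) < r0 := by linarith [show (0:ℝ) < (n:ℝ) / 4 by positivity]
    rw [e1, div_le_div_iff₀ e3 hnr]
    nlinarith
  have hcong : ∀ F F' : Finset Edg, (∀ x ∈ blk (0,0) r0, x ∉ blk (0,0) ρ → (x ∈ F ↔ x ∈ F')) →
      (X4 (0,0) ρ r0 (↑F : Set Edg) ↔ X4 (0,0) ρ r0 (↑F' : Set Edg)) := by
    intro F F' h
    apply t7_X4_congr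
    intro x hx hx'
    rw [Finset.mem_coe, Finset.mem_coe]
    exact h x hx hx'
  have hrest : ∀ w F : Finset Edg, (∀ x ∈ F, x ∉ blk (0,0) r0) → ∀ x ∈ blk (0,0) r0,
      (x ∈ w ∪ F ↔ x ∈ w) := by
    intro w F hF x hx
    rw [Finset.mem_union]
    exact ⟨fun h => h.resolve_right (fun h' => hF x h' hx), Or.inl⟩
  have haw : ∀ w ⊆ (blk (0,0) r0).erase (e0 β), ∀ F : Finset Edg,
      (∀ x ∈ F, x ∉ blk (0,0) r0) → e0 β ∉ w ∪ F := by
    intro w hw F hF h
    have h1 : e0 β ∈ blk (0,0) r0 := self_mem_blk (e := e0 β) (by omega)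
    rw [hrest w F hF _ h1] at h
    exact Finset.notMem_erase _ _ (hw h)
  have hX4 : ρ ≤ r0 → ∀ w ⊆ (blk (0,0) r0).erase (e0 β), ∀ F : Finset Edg,
      (∀ x ∈ F, x ∉ blk (0,0) r0) → ∀ z : Edg, (n:ℤ) < 2 * dst (e0 β) z →
      SD (fun F => Cn {src (e0 β)} {tgt (e0 β)} (↑F : Set Edg)) b z (w ∪ F) →
        X4 (0,0) ρ r0 (↑w : Set Edg) := by
    intro hle w hw F hF z hz hsd
    have k1 := outer_X4 (a := e0 β) (b := b) (z := z) (ρ := ρ) (R := r0) (Ne.symm hb)
      (by rw [hδ, hρ]; push_cast; omega) hle (by omega) (haw w hw F hF) hsd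
    rw [hbp] at k1
    refine (hcong _ _ ?_).mp k1
    intro x hx _
    exact hrest w F hF x hx
  have hL4 : 3 ≤ δ → ∀ w ⊆ (blk (0,0) r0).erase (e0 β), ∀ F : Finset Edg,
      (∀ x ∈ F, x ∉ blk (0,0) r0) → ∀ z : Edg, (n:ℤ) < 2 * dst (e0 β) z →
      SD (fun F => Cn {src (e0 β)} {tgt (e0 β)} (↑F : Set Edg)) b z (w ∪ F) →
        L4 k (e0 β) (↑w : Set Edg) ∧ L4 k b (↑w : Set Edg) := by
    intro h3 w hw F hF z hz hsd
    have ht := dst_tri (e0 β) b z
    have k1 := outer_L4 (a := e0 β) (b := b) (z := z) (k := k) (by omega)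
      (by rw [hδ]; omega) (by omega) (by omega) (haw w hw F hF) hsd
    have hd1 : |b.1| ≤ dst (e0 β) b := by rw [oi_dst]; exact le_max_left _ _
    have hd2 : |b.2.1| ≤ dst (e0 β) b := by rw [oi_dst]; exact le_max_right _ _
    have hbr : blk (bp b) k ⊆ blk (0,0) r0 := t7_blk (by omega) (by omega)
    have har : blk (bp (e0 β)) k ⊆ blk (0,0) r0 := by
      apply t7_blk <;> simp [e0] <;> omega
    refine ⟨(L4_congr' ?_).mp k1.1, (L4_congr' ?_).mp k1.2⟩
    · intro x hx _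
      exact hrest w F hF x (har hx)
    · intro x hx _
      exact hrest w F hF x (hbr hx)
  have hCA : 0 ≤ C * A^2 * X / n := by positivity
  have hCA' : 0 ≤ A^2 * X / n := by positivity
  by_cases hle : ρ ≤ r0
  · by_cases h3 : 3 ≤ δ
    · refine ⟨fun F => L4 k (e0 β) (↑F : Set Edg) ∧ L4 k b (↑F : Set Edg) ∧
        X4 (0,0) ρ r0 (↑F : Set Edg), ?_, ?_⟩
      · intro w hw F hF z hz hsd
        have k1 := hL4 h3 w hw F hF z hz hsd
        exact ⟨k1.1, k1.2, hX4 hle w hw F hF z hz hsd⟩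
      · have k1 := t7_two hq0 hq1 (r0 := r0) (k := k) (ρ := ρ) (β := β) (b := b) (by omega)
          (by rw [hδ]; omega) (by rw [hδ]; omega) (by rw [hδ]; omega)
          (B := fun F => X4 (0,0) ρ r0 (↑F : Set Edg)) hcong
        refine k1.trans ?_
        have k2 := hXa hle
        have k3 := ha h3
        have k4 : 0 ≤ PQ q (blk (0,0) r0) (fun F => X4 (0,0) ρ r0 ↑F) := Pr_nonneg hok _ _
        calc a4 q k * (a4 q k * PQ q (blk (0,0) r0) (fun F => X4 (0,0) ρ r0 ↑F))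
            ≤ (A * (16 * Y)) * ((A * (16 * Y)) * (C * (8 * x / n))) := by
              apply mul_le_mul k3 _ (mul_nonneg han k4) (by positivity)
              exact mul_le_mul k3 k2 k4 (by positivity)
          _ = 2048 * C * A^2 * (Y * Y * x) / n := by ring
          _ = 2048 * (C * A^2 * X / n) := by rw [hYY]; ring
          _ ≤ (2048 * C + 2048) * A^2 * X / n := by
              have : (2048 * C + 2048) * A^2 * X / n = 2048 * (C * A^2 * X / n) +
                2048 * (A^2 * X / n) := by ring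
              rw [this]
              linarith
    · refine ⟨fun F => X4 (0,0) ρ r0 (↑F : Set Edg), ?_, ?_⟩
      · intro w hw F hF z hz hsd
        exact hX4 hle w hw F hF z hz hsd
      · have e1 : PQ q (blk (0,0) r0) (fun F => X4 (0,0) ρ r0 (↑F : Set Edg)) =
            PQ q ((blk (0,0) r0).erase (e0 β)) (fun F => X4 (0,0) ρ r0 (↑F : Set Edg)) := by
          refine Pr_local (Finset.erase_subset _ _) ?_
          intro F hF
          apply hcong
          intro x hx hxρ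
          have hxa : x ≠ e0 β := by
            intro h'
            apply hxρ
            rw [h']
            exact self_mem_blk (e := e0 β) (by omega)
          rw [Finset.mem_inter]
          exact ⟨fun h => ⟨h, Finset.mem_erase.mpr ⟨hxa, hF h⟩⟩, fun h => h.1⟩
        rw [← e1]
        refine (hXa hle).trans ?_
        have hx3 : x ≤ 3 := by
          rw [hx]
          have : δ ≤ 2 := by omega
          have : (δ:ℝ) ≤ 2 := by exact_mod_cast this
          linarith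
        have k1 : x ≤ 27 * X := by
          have k2 : x^(-(2:ℝ)) ≤ X := by
            rw [hX]
            exact Real.rpow_le_rpow_of_exponent_le hx1 (by linarith)
          have k3 : x^(-(2:ℝ)) = 1 / x^2 := by
            rw [Real.rpow_neg hx0.le, one_div]
            norm_num
          have k4 : x ≤ 27 * (1 / x^2) := by
            rw [mul_one_div, le_div_iff₀ (by positivity)]
            have : x * x^2 = x^3 := by ring
            rw [this]
            calc x^3 ≤ 3^3 := pow_le_pow_left₀ hx0.le hx3 3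
              _ = 27 := by norm_num
          rw [k3] at k2
          linarith
        have hA2 : 1 ≤ A^2 := one_le_pow₀ hA
        have k5 : x ≤ 27 * (A^2 * X) := by nlinarith
        calc C * (8 * x / n) = (8 * C / n) * x := by ring
          _ ≤ (8 * C / n) * (27 * (A^2 * X)) := mul_le_mul_of_nonneg_left k5 (by positivity)
          _ = 216 * (C * A^2 * X / n) := by ring
          _ ≤ (2048 * C + 2048) * A^2 * X / n := by
              have : (2048 * C + 2048) * A^2 * X / n = 2048 * (C * A^2 * X / n) +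
                2048 * (A^2 * X / n) := by ring
              rw [this]
              linarith
  · have h3 : 3 ≤ δ := by omega
    refine ⟨fun F => L4 k (e0 β) (↑F : Set Edg) ∧ L4 k b (↑F : Set Edg) ∧ True, ?_, ?_⟩
    · intro w hw F hF z hz hsd
      have k1 := hL4 h3 w hw F hF z hz hsd
      exact ⟨k1.1, k1.2, trivial⟩
    · have k1 := t7_two hq0 hq1 (r0 := r0) (k := k) (ρ := ρ) (β := β) (b := b) (by omega)
        (by rw [hδ]; omega) (by rw [hδ]; omega) (by rw [hδ]; omega)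
        (B := fun _ => True) (fun _ _ _ => Iff.rfl)
      refine k1.trans ?_
      have k3 := ha h3
      have k4 : 0 ≤ PQ q (blk (0,0) r0) (fun _ => True) := Pr_nonneg hok _ _
      have k5 : PQ q (blk (0,0) r0) (fun _ => True) ≤ 1 := Pr_le_one hok _ _
      have k6 : 1 ≤ 8 * x / n := by
        rw [one_le_div₀ hnr, hx]
        have : n ≤ 8 * (δ + 1) := by omega
        exact_mod_cast this
      calc a4 q k * (a4 q k * PQ q (blk (0,0) r0) (fun _ => True))
          ≤ (A * (16 * Y)) * ((A * (16 * Y)) * (8 * x / n)) := by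
            apply mul_le_mul k3 _ (mul_nonneg han k4) (by positivity)
            exact mul_le_mul k3 (k5.trans k6) k4 (by positivity)
        _ = 2048 * A^2 * (Y * Y * x) / n := by ring
        _ = 2048 * (A^2 * X / n) := by rw [hYY]; ring
        _ ≤ (2048 * C + 2048) * A^2 * X / n := by
            have : (2048 * C + 2048) * A^2 * X / n = 2048 * (C * A^2 * X / n) +
              2048 * (A^2 * X / n) := by ring
            rw [this]
            linarith

/-- T7 -/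
theorem outer_sum (κ : ℝ) (hκ : 0 < κ) {ε : ℝ} (h0 : 0 < ε) (h1 : ε ≤ 1/40) : ∃ C : ℝ, 0 < C ∧
    ∀ (q : ℝ) (n : ℕ) (A : ℝ), 64 ≤ n → Win q κ n → 1 ≤ A →
    (∀ m : ℕ, 1 ≤ m → m ≤ n → a4 q m ≤ A * (m:ℝ)^(-(5/4) + ε)) →
    ∀ (β : Bool) (b : Edg), b ≠ e0 β → 4 * dst (e0 β) b ≤ n →
      ∑ z ∈ (boxE n).filter (fun z => (n:ℤ) < 2 * dst (e0 β) z), t3 q (boxE n) (e0 β) b z ≤
        C * A^3 * ((dst (e0 β) b : ℝ) + 1)^(-(3/2) + 2 * ε) * (n:ℝ)^(-(1/4) + ε) := by
  classical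
  obtain ⟨C1, hC1, hO⟩ := outer_infl κ hκ h0 h1
  obtain ⟨C2, hC2, hI⟩ := t7_inner κ hκ h0 h1
  refine ⟨2 * C1 * C2, by positivity, ?_⟩
  intro q n A hn hw hA ha4 β b hb hbn
  have hq0 : 0 ≤ q := by linarith [hw.lo]
  have hq1 : q ≤ 1 := by linarith [hw.hi]
  have hok : Ok (fun _ : Edg => q) := fun _ => ⟨hq0, hq1⟩
  obtain ⟨D, hD1, hD2⟩ := hI q n A hn hw hA ha4 β b hb hbn
  obtain ⟨r0, hr0⟩ : ∃ r0 : ℕ, r0 = 3 * n / 8 := ⟨_, rfl⟩
  rw [← hr0] at hD1 hD2
  obtain ⟨s, hs⟩ : ∃ s : ℕ, s = n / 2 := ⟨_, rfl⟩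
  have hr1 : 1 ≤ r0 := by omega
  have hrs : r0 < s := by omega
  set G := (boxE n).filter (fun z => (n:ℤ) < 2 * dst (e0 β) z) with hG
  set In := (blk (0,0) r0).erase (e0 β) with hIn
  set Out := boxE n \ blk (0,0) r0 with hOut
  have hblk : blk (0,0) r0 ⊆ boxE n := by
    unfold blk boxE
    apply RE_subset <;> simp only <;> omega
  have hab : e0 β ∈ blk (0,0) r0 := self_mem_blk (e := e0 β) hr1
  have hbb : b ∈ blk (0,0) r0 := by
    have hd1 : |b.1| ≤ dst (e0 β) b := by rw [oi_dst]; exact le_max_left _ _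
    have hd2 : |b.2.1| ≤ dst (e0 β) b := by rw [oi_dst]; exact le_max_right _ _
    exact t7_blk (k := 1) (by omega) (by omega) (self_mem_blk le_rfl)
  have hS : (boxE n).erase (e0 β) = In ∪ Out := by
    ext x
    rw [hIn, hOut, Finset.mem_erase, Finset.mem_union, Finset.mem_erase, Finset.mem_sdiff]
    constructor
    · rintro ⟨h, h'⟩
      by_cases hx : x ∈ blk (0,0) r0
      · exact Or.inl ⟨h, hx⟩
      · exact Or.inr ⟨h', hx⟩
    · rintro (⟨h, h'⟩ | ⟨h, h'⟩)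
      · exact ⟨h, hblk h'⟩
      · exact ⟨fun hx => h' (hx ▸ hab), h⟩
  have hd : Disjoint In Out := by
    rw [Finset.disjoint_left]
    intro x hx hx'
    exact (Finset.mem_sdiff.mp hx').2 (Finset.mem_of_mem_erase hx)
  have hGd : ∀ z ∈ G, (s:ℤ) < dst (e0 β) z := by
    intro z hz
    have := (Finset.mem_filter.mp hz).2
    omega
  have hGb : G ⊆ boxE n := Finset.filter_subset _ _
  have hGblk : ∀ z ∈ G, z ∉ blk (0,0) r0 := by
    intro z hz hz'
    have k1 := hGd z hz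
    have k2 : dst (e0 β) z ≤ r0 := mem_blk_dst (by unfold bp e0; exact hz')
    omega
  have hterm : ∀ z ∈ G, t3 q (boxE n) (e0 β) b z ≤
      Ex (fun _ => q) In (fun w => ind (D w) *
        (PQ q Out (Pf (CO {src (e0 β)} {tgt (e0 β)} ↑(w.erase b)) z) +
          PQ q Out (Pf (CO {src (e0 β)} {tgt (e0 β)} ↑(insert b w)) z))) := by
    intro z hz
    have hzb : z ≠ b := fun h => hGblk z hz (h ▸ hbb)
    have hzI : z ∉ In := fun h => hGblk z hz (Finset.mem_of_mem_erase h)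
    unfold t3 PQ Pr
    rw [hS, Ex_union hd]
    apply Ex_mono hok
    intro w hwI
    rw [← Ex_add, ← Ex_mul_left]
    apply Ex_mono hok
    intro F hF
    have hF' : ∀ x ∈ F, x ∉ blk (0,0) r0 := fun x hx => (Finset.mem_sdiff.mp (hF hx)).2
    calc ind (SD (fun F => Cn {src (e0 β)} {tgt (e0 β)} ↑F) b z (w ∪ F))
        ≤ ind (D w ∧ (Pf (CO {src (e0 β)} {tgt (e0 β)} ↑(w.erase b)) z F ∨
          Pf (CO {src (e0 β)} {tgt (e0 β)} ↑(insert b w)) z F)) := by
          apply ind_mono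
          intro h
          exact ⟨hD1 w hwI F hF' z (Finset.mem_filter.mp hz).2 h,
            t7_key hzb hzI hwI (fun h' => hF' b h' hbb) h⟩
      _ = ind (D w) * ind (Pf (CO {src (e0 β)} {tgt (e0 β)} ↑(w.erase b)) z F ∨
          Pf (CO {src (e0 β)} {tgt (e0 β)} ↑(insert b w)) z F) := ind_and _ _
      _ ≤ _ := mul_le_mul_of_nonneg_left (ind_or_le _ _) (ind_nonneg _)
  have hnr : (0:ℝ) < n := by
    have : 0 < n := by omega
    exact_mod_cast this
  have hP0 : 0 ≤ 2 * (C1 * A * (n:ℝ)^((3/4 : ℝ) + ε)) := by positivity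
  have hd0 : (0:ℝ) ≤ (dst (e0 β) b : ℝ) := by
    have : 0 ≤ dst (e0 β) b := (abs_nonneg _).trans (le_max_left _ _)
    exact_mod_cast this
  calc ∑ z ∈ G, t3 q (boxE n) (e0 β) b z
      ≤ ∑ z ∈ G, Ex (fun _ => q) In (fun w => ind (D w) *
        (PQ q Out (Pf (CO {src (e0 β)} {tgt (e0 β)} ↑(w.erase b)) z) +
          PQ q Out (Pf (CO {src (e0 β)} {tgt (e0 β)} ↑(insert b w)) z))) :=
        Finset.sum_le_sum hterm
    _ = Ex (fun _ => q) In (fun w => ind (D w) *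
        (∑ z ∈ G, PQ q Out (Pf (CO {src (e0 β)} {tgt (e0 β)} ↑(w.erase b)) z) +
          ∑ z ∈ G, PQ q Out (Pf (CO {src (e0 β)} {tgt (e0 β)} ↑(insert b w)) z))) := by
        rw [← Ex_sum]
        apply Ex_congr
        intro w _
        rw [← Finset.mul_sum, Finset.sum_add_distrib]
    _ ≤ Ex (fun _ => q) In (fun w => ind (D w) * (2 * (C1 * A * (n:ℝ)^((3/4 : ℝ) + ε)))) := by
        apply Ex_mono hok
        intro w hwI
        apply mul_le_mul_of_nonneg_left _ (ind_nonneg _)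
        have hwb : w ⊆ blk (0,0) r0 := hwI.trans (Finset.erase_subset _ _)
        have k1 := hO q n A hn hw hA ha4 r0 s β hr1 hrs (w.erase b)
          ((Finset.erase_subset _ _).trans hwb) G hGb hGd
        have k2 := hO q n A hn hw hA ha4 r0 s β hr1 hrs (insert b w)
          (Finset.insert_subset hbb hwb) G hGb hGd
        linarith
    _ = PQ q In D * (2 * (C1 * A * (n:ℝ)^((3/4 : ℝ) + ε))) := by
        rw [Ex_mul_right]
        rfl
    _ ≤ (C2 * A^2 * ((dst (e0 β) b : ℝ) + 1)^(-(3/2) + 2 * ε) / n) *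
        (2 * (C1 * A * (n:ℝ)^((3/4 : ℝ) + ε))) := mul_le_mul_of_nonneg_right hD2 hP0
    _ = 2 * C1 * C2 * A^3 * ((dst (e0 β) b : ℝ) + 1)^(-(3/2) + 2 * ε) *
        ((n:ℝ)^((3/4 : ℝ) + ε) / n) := by ring
    _ = 2 * C1 * C2 * A^3 * ((dst (e0 β) b : ℝ) + 1)^(-(3/2) + 2 * ε) *
        (n:ℝ)^(-(1/4) + ε) := by
        congr 1
        nth_rewrite 2 [← Real.rpow_one (n:ℝ)]
        rw [← Real.rpow_sub hnr]
        congr 1
        ring

end H31A
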