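import Pool.Agent.H31R4.Alp.OI

/-! Task T8: influences of the outer edges. -/

set_option maxHeartbeats 400000

namespace H31A

open H974 H12S H973N H973N.FPX Finset

/-- The pivotal event for an edge outside the block. -/
theorem t8_key {β : Bool} {r0 : ℕ} (hr : 1 ≤ r0) {b : Edg} (hb : b ∉ blk (0,0) r0)
    {w F : Finset Edg} (hw : w ⊆ (blk (0,0) r0).erase (e0 β)) (hF : ∀ x ∈ F, x ∉ blk (0,0) r0)
    (h : Pf (fun F => Cn {src (e0 β)} {tgt (e0 β)} (↑F : Set Edg)) b (w ∪ F)) :
    L4 r0 (e0 β) ↑w ∧ Pf (CO {src (e0 β)} {tgt (e0 β)} ↑w) b F := by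
  have hbw : b ∉ w := fun h' => hb (Finset.mem_of_mem_erase (hw h'))
  have haw : e0 β ∉ w := fun h' => Finset.notMem_erase _ _ (hw h')
  have hab : e0 β ∈ blk (0,0) r0 := by
    unfold blk e0
    cases β
    · rw [mem_RE_false]
      simp only
      omega
    · rw [mem_RE_true]
      simp only
      omega
  have haF : e0 β ∉ F := fun h' => hF _ h' hab
  obtain ⟨h1, h2⟩ := h
  refine ⟨?_, ?_, ?_⟩
  · obtain ⟨F', hF'⟩ : ∃ F' : Set Edg, F' = ↑((w ∪ F).erase b) := ⟨_, rfl⟩
    have e1 : (↑(insert b (w ∪ F)) : Set Edg) = insert b F' := by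
      rw [hF']
      ext x
      simp only [Finset.coe_insert, Finset.coe_erase, Set.mem_insert_iff, Set.mem_sdiff,
        Set.mem_singleton_iff]
      tauto
    have h1' : Reach (insert b F') (src (e0 β)) (tgt (e0 β)) := by
      obtain ⟨u, hu, v, hv, huv⟩ := h1
      rw [Set.mem_singleton_iff] at hu hv
      rw [e1, hu, hv] at huv
      exact huv
    have h2' : ¬ Reach F' (src (e0 β)) (tgt (e0 β)) := by
      intro h'
      rw [hF'] at h'
      exact h2 ⟨_, rfl, _, rfl, h'⟩
    have h3 : Reach F' (src (e0 β)) (tgt (e0 β)) ∨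
        (Reach F' (src (e0 β)) (src b) ∧ Reach F' (tgt b) (tgt (e0 β))) ∨
        (Reach F' (src (e0 β)) (tgt b) ∧ Reach F' (src b) (tgt (e0 β))) :=
      (GR_insert (s := src) (t := tgt) (F := F') (e := b) (x := src (e0 β))
        (y := tgt (e0 β))).mp h1'
    have h4 : Reach (insert (e0 β) F') (src b) (tgt b) := by
      refine (GR_insert (s := src) (t := tgt) (F := F') (e := e0 β) (x := src b)
        (y := tgt b)).mpr ?_
      rcases h3 with h3 | ⟨h3, h4⟩ | ⟨h3, h4⟩
      · exact absurd h3 h2'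
      · exact Or.inr (Or.inl ⟨h3.symm, h4.symm⟩)
      · exact Or.inr (Or.inr ⟨h4, h3⟩)
    have h5 : ¬ Reach (F' \ {e0 β}) (src b) (tgt b) := by
      intro h5
      have h6 : Reach F' (src b) (tgt b) := h5.mono Set.sdiff_subset
      rcases h3 with h3 | ⟨h3, h4⟩ | ⟨h3, h4⟩
      · exact absurd h3 h2'
      · exact h2' ((h3.trans h6).trans h4)
      · exact h2' ((h3.trans h6.symm).trans h4)
    have h6 : A4 (-r0) r0 (-r0) r0 (e0 β) F' := by
      refine piv_A4 (I := {src b}) (J := {tgt b}) ?_ ?_ ?_ ⟨_, rfl, _, rfl, h4⟩ ?_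
      · unfold inR e0
        simp only [src_mk]
        omega
      · unfold inR e0
        cases β
        · simp only [tgt_false]
          omega
        · simp only [tgt_true]
          omega
      · intro v hv hv'
        obtain ⟨x, y, _ | _⟩ := b
        · unfold blk at hb
          rw [mem_RE_false] at hb
          simp only [Set.mem_union, Set.mem_singleton_iff, src_mk, tgt_false] at hv
          rcases hv with hv | hv
          · subst hv
            simp only at hv' hb
            omega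
          · subst hv
            simp only at hv' hb
            omega
        · unfold blk at hb
          rw [mem_RE_true] at hb
          simp only [Set.mem_union, Set.mem_singleton_iff, src_mk, tgt_true] at hv
          rcases hv with hv | hv
          · subst hv
            simp only at hv' hb
            omega
          · subst hv
            simp only at hv' hb
            omega
      · rintro ⟨u, hu, v, hv, huv⟩
        rw [Set.mem_singleton_iff] at hu hv
        rw [hu, hv] at huv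
        exact h5 huv
    have h7 : L4 r0 (e0 β) F' := by
      unfold L4
      simpa [e0] using h6
    unfold L4 at h7 ⊢
    refine (A4_congr ?_).1 h7
    intro x hx _
    have hx' : x ∈ blk (0,0) r0 := by
      unfold blk
      unfold e0 at hx
      simpa using hx
    have hxF : x ∉ F := fun h' => hF x h' hx'
    have hxb : x ≠ b := fun h' => hb (h' ▸ hx')
    rw [hF', Finset.mem_coe, Finset.mem_coe, Finset.mem_erase, Finset.mem_union]
    tauto
  · unfold CO
    have e1 : (↑(insert b F) : Set Edg) ∪ ↑w = ↑(insert b (w ∪ F)) := by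
      ext x
      simp only [Finset.coe_insert, Finset.coe_union, Set.mem_insert_iff, Set.mem_union]
      tauto
    rw [e1]
    exact h1
  · unfold CO
    have e1 : (↑(F.erase b) : Set Edg) ∪ ↑w = ↑((w ∪ F).erase b) := by
      ext x
      simp only [Finset.coe_erase, Finset.coe_union, Set.mem_union, Set.mem_sdiff,
        Set.mem_singleton_iff, Finset.mem_coe]
      constructor
      · rintro (⟨h, h'⟩ | h)
        · exact ⟨Or.inr h, h'⟩
        · exact ⟨Or.inl h, fun h' => hbw (h' ▸ h)⟩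
      · rintro ⟨h | h, h'⟩
        · exact Or.inr h
        · exact Or.inl ⟨h, h'⟩
    rw [e1]
    exact h2

/-- T8 -/
theorem first_outer (κ : ℝ) (hκ : 0 < κ) {ε : ℝ} (h0 : 0 < ε) (h1 : ε ≤ 1/40) : ∃ C : ℝ, 0 < C ∧
    ∀ (q : ℝ) (n : ℕ) (A : ℝ), 64 ≤ n → Win q κ n → 1 ≤ A →
    (∀ m : ℕ, 1 ≤ m → m ≤ n → a4 q m ≤ A * (m:ℝ)^(-(5/4) + ε)) →
    ∀ β : Bool, ∑ b ∈ ((boxE n).erase (e0 β)).filter (fun b => (n:ℤ) < 4 * dst (e0 β) b),
      PQ q ((boxE n).erase (e0 β)) (Pf (fun F => Cn {src (e0 β)} {tgt (e0 β)} ↑F) b) ≤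
        C * A^2 * (n:ℝ)^(-(1/2) + 2 * ε) := by
  classical
  obtain ⟨C1, hC1, hO⟩ := outer_infl κ hκ h0 h1
  refine ⟨32 * C1, by positivity, ?_⟩
  intro q n A hn hw hA ha4 β
  have hq0 : 0 ≤ q := by linarith [hw.lo]
  have hq1 : q ≤ 1 := by linarith [hw.hi]
  have hok : Ok (fun _ : Edg => q) := fun _ => ⟨hq0, hq1⟩
  obtain ⟨r0, hr0⟩ : ∃ r0 : ℕ, r0 = n / 8 := ⟨_, rfl⟩
  obtain ⟨s, hs⟩ : ∃ s : ℕ, s = n / 4 := ⟨_, rfl⟩
  have hr1 : 1 ≤ r0 := by omega
  have hrs : r0 < s := by omega
  set G := ((boxE n).erase (e0 β)).filter (fun b => (n:ℤ) < 4 * dst (e0 β) b) with hG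
  set In := (blk (0,0) r0).erase (e0 β) with hIn
  set Out := boxE n \ blk (0,0) r0 with hOut
  have hblk : blk (0,0) r0 ⊆ boxE n := by
    unfold blk boxE
    apply RE_subset <;> simp only <;> omega
  have hab : e0 β ∈ blk (0,0) r0 := by
    unfold blk e0
    cases β
    · rw [mem_RE_false]
      simp only
      omega
    · rw [mem_RE_true]
      simp only
      omega
  have hS : (boxE n).erase (e0 β) = In ∪ Out := by
    ext x
    rw [hIn, hOut, Finset.mem_erase, Finset.mem_union, Finset.mem_erase, Finset.mem_sdiff]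
    constructor
    · rintro ⟨h, h'⟩
      by_cases hx : x ∈ blk (0,0) r0
      · exact Or.inl ⟨h, hx⟩
      · exact Or.inr ⟨h', hx⟩
    · rintro (⟨h, h'⟩ | ⟨h, h'⟩)
      · exact ⟨h, hblk h'⟩
      · exact ⟨fun hx => h' (hx ▸ hab), h⟩
  have hd : Disjoint In Out := by
    rw [Finset.disjoint_left]
    intro x hx hx'
    exact (Finset.mem_sdiff.mp hx').2 (Finset.mem_of_mem_erase hx)
  have hGd : ∀ z ∈ G, (s:ℤ) < dst (e0 β) z := by
    intro z hz
    have := (Finset.mem_filter.mp hz).2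
    omega
  have hGb : G ⊆ boxE n := (Finset.filter_subset _ _).trans (Finset.erase_subset _ _)
  have hGblk : ∀ z ∈ G, z ∉ blk (0,0) r0 := by
    intro z hz hz'
    have k1 := hGd z hz
    have k2 : dst (e0 β) z ≤ r0 := mem_blk_dst (by unfold bp e0; exact hz')
    omega
  have hterm : ∀ z ∈ G, PQ q ((boxE n).erase (e0 β))
      (Pf (fun F => Cn {src (e0 β)} {tgt (e0 β)} (↑F : Set Edg)) z) ≤
      Ex (fun _ => q) In (fun w => ind (L4 r0 (e0 β) (↑w : Set Edg)) *
        PQ q Out (Pf (CO {src (e0 β)} {tgt (e0 β)} ↑w) z)) := by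
    intro z hz
    unfold PQ Pr
    rw [hS, Ex_union hd]
    apply Ex_mono hok
    intro w hwI
    rw [← Ex_mul_left]
    apply Ex_mono hok
    intro F hF
    rw [← ind_and]
    apply ind_mono
    exact t8_key hr1 (hGblk z hz) hwI (fun x hx => (Finset.mem_sdiff.mp (hF hx)).2)
  have hL4 : PQ q In (fun w => L4 r0 (e0 β) (↑w : Set Edg)) ≤ a4 q r0 := by
    have e1 : PQ q (blk (0,0) r0) (fun w => L4 r0 (e0 β) (↑w : Set Edg)) =
        PQ q In (fun w => L4 r0 (e0 β) (↑w : Set Edg)) := by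
      refine Pr_local (Finset.erase_subset _ _) ?_
      intro F hF
      unfold L4
      refine A4_congr ?_
      intro x _ hxe
      rw [Finset.coe_inter]
      constructor
      · intro h
        exact ⟨h, Finset.mem_coe.mpr (Finset.mem_erase.mpr ⟨hxe, hF h⟩)⟩
      · intro h
        exact h.1
    rw [← e1]
    refine pr_L4 hq0 hq1 ?_
    unfold bp e0
    exact Finset.Subset.refl _
  have hnr : (0:ℝ) < n := by
    have : 0 < n := by omega
    exact_mod_cast this
  have hP0 : 0 ≤ C1 * A * (n:ℝ)^((3/4 : ℝ) + ε) := by positivity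
  have hr4 : a4 q r0 ≤ A * (32 * (n:ℝ)^(-(5/4 : ℝ) + ε)) := by
    refine (ha4 r0 hr1 (by omega)).trans ?_
    apply mul_le_mul_of_nonneg_left _ (by linarith)
    have k1 : (n:ℝ) / 16 ≤ r0 := by
      rw [div_le_iff₀ (by norm_num)]
      have : n ≤ r0 * 16 := by omega
      exact_mod_cast this
    calc ((r0:ℕ):ℝ)^(-(5/4 : ℝ) + ε) ≤ ((n:ℝ) / 16)^(-(5/4 : ℝ) + ε) :=
          Real.rpow_le_rpow_of_nonpos (by positivity) k1 (by linarith)
      _ = (16:ℝ)^((5/4 : ℝ) - ε) * (n:ℝ)^(-(5/4 : ℝ) + ε) := by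
          rw [Real.div_rpow hnr.le (by norm_num), div_eq_mul_inv, ← Real.rpow_neg (by norm_num),
            mul_comm]
          congr 2
          ring
      _ ≤ 32 * (n:ℝ)^(-(5/4 : ℝ) + ε) := by
          apply mul_le_mul_of_nonneg_right _ (by positivity)
          calc (16:ℝ)^((5/4 : ℝ) - ε) ≤ (16:ℝ)^(5/4 : ℝ) :=
                Real.rpow_le_rpow_of_exponent_le (by norm_num) (by linarith)
            _ = 32 := by
                rw [show (16:ℝ) = (2:ℝ)^(4:ℝ) by norm_num, ← Real.rpow_mul (by norm_num)]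
                norm_num
  calc ∑ b ∈ G, PQ q ((boxE n).erase (e0 β))
        (Pf (fun F => Cn {src (e0 β)} {tgt (e0 β)} ↑F) b)
      ≤ ∑ z ∈ G, Ex (fun _ => q) In (fun w => ind (L4 r0 (e0 β) (↑w : Set Edg)) *
        PQ q Out (Pf (CO {src (e0 β)} {tgt (e0 β)} ↑w) z)) := Finset.sum_le_sum hterm
    _ = Ex (fun _ => q) In (fun w => ind (L4 r0 (e0 β) (↑w : Set Edg)) *
        ∑ z ∈ G, PQ q Out (Pf (CO {src (e0 β)} {tgt (e0 β)} ↑w) z)) := by
        rw [← Ex_sum]
        apply Ex_congr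
        intro w _
        rw [← Finset.mul_sum]
    _ ≤ Ex (fun _ => q) In (fun w => ind (L4 r0 (e0 β) (↑w : Set Edg)) *
        (C1 * A * (n:ℝ)^((3/4 : ℝ) + ε))) := by
        apply Ex_mono hok
        intro w hwI
        apply mul_le_mul_of_nonneg_left _ (ind_nonneg _)
        exact hO q n A hn hw hA ha4 r0 s β hr1 hrs w (hwI.trans (Finset.erase_subset _ _)) G hGb
          hGd
    _ = PQ q In (fun w => L4 r0 (e0 β) (↑w : Set Edg)) *
        (C1 * A * (n:ℝ)^((3/4 : ℝ) + ε)) := by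
        rw [Ex_mul_right]
        rfl
    _ ≤ (A * (32 * (n:ℝ)^(-(5/4 : ℝ) + ε))) * (C1 * A * (n:ℝ)^((3/4 : ℝ) + ε)) :=
        mul_le_mul_of_nonneg_right (hL4.trans hr4) hP0
    _ = 32 * C1 * A^2 * ((n:ℝ)^(-(5/4 : ℝ) + ε) * (n:ℝ)^((3/4 : ℝ) + ε)) := by ring
    _ = 32 * C1 * A^2 * (n:ℝ)^(-(1/2) + 2 * ε) := by
        rw [← Real.rpow_add hnr]
        congr 2
        ring

end H31A
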