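import Pool.Agent.H31R4.Alp.C3
import Pool.Agent.H31R4.Alp.T5
import Pool.Agent.H31R4.Alp.T7
import Pool.Agent.H31R4.Alp.T8
import Pool.Agent.H973R3.NC.DV

/-! Task E1: estimates below the correlation length. -/

set_option maxHeartbeats 400000

namespace H31A

open H974 H12S H973N Finset

theorem e1_cn_mono {I J : Set Vtx} {F G : Finset Edg} (h : F ⊆ G)
    (hF : Cn I J (↑F : Set Edg)) : Cn I J (↑G : Set Edg) := by
  obtain ⟨u, hu, v, hv, huv⟩ := hF
  exact ⟨u, hu, v, hv, huv.mono (by exact_mod_cast h)⟩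

/-- E1 -/
theorem main_est (hN : Near) {ε : ℝ} (h0 : 0 < ε) (h1 : ε ≤ 1/40) :
    ∃ (κ C : ℝ) (n0 : ℕ), 0 < κ ∧ 0 < C ∧ 1 ≤ n0 ∧ ∀ n : ℕ, n0 ≤ n → ∀ (β : Bool) (q : ℝ),
      |q - 1/2| ≤ κ * (n:ℝ)^(-(3/4) - ε) →
      (∃ D' : ℝ, HasDerivAt (Dn β n) D' q ∧ |D' - Sn β n q| ≤ C * (n:ℝ)^(-(1/2) + 2 * ε)) ∧
      (∃ S' : ℝ, HasDerivAt (Sn β n) S' q ∧ |S'| ≤ C * (n:ℝ)^(1/4 + 3 * ε)) ∧
      0 ≤ q ∧ q ≤ 1 ∧ a4 q n ≤ C * (n:ℝ)^(-(5/4) + ε) := by
  obtain ⟨κ, B, hκ, hB, hN⟩ := hN ε h0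
  obtain ⟨C1, hC1, H1⟩ := count1 h0 h1
  obtain ⟨C3, hC3, H3⟩ := count3 h0 h1
  obtain ⟨C5, hC5, H5⟩ := triple κ hκ h0 h1
  obtain ⟨C7, hC7, H7⟩ := outer_sum κ hκ h0 h1
  obtain ⟨C8, hC8, H8⟩ := first_outer κ hκ h0 h1
  set A : ℝ := max B 1 with hA
  have hA1 : 1 ≤ A := le_max_right _ _
  have hA0 : 0 < A := by linarith
  set C : ℝ := C8 * A^2 + (C5 * A^3 * C3 + C7 * A^3 * C1) + A with hC
  have p1 : 0 < C8 * A^2 := by positivity
  have p2 : 0 < C5 * A^3 * C3 := by positivity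
  have p3 : 0 < C7 * A^3 * C1 := by positivity
  refine ⟨κ, C, 64, hκ, by positivity, by norm_num, fun n hn β q hq => ?_⟩
  have hn1 : 1 ≤ n := by omega
  have hnr : (1:ℝ) ≤ n := by exact_mod_cast hn1
  have hnp : (0:ℝ) < n := by linarith
  obtain ⟨hW, ha⟩ := hN n hn1 q hq
  have hq0 : 0 ≤ q := by linarith [hW.lo]
  have hq1 : q ≤ 1 := by linarith [hW.hi]
  have hok : Ok (fun _ : Edg => q) := fun _ => ⟨hq0, hq1⟩
  have haA : ∀ m : ℕ, 1 ≤ m → m ≤ n → a4 q m ≤ A * (m:ℝ)^(-(5/4) + ε) := by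
    intro m hm hmn
    refine (ha m hm hmn).trans ?_
    apply mul_le_mul_of_nonneg_right (le_max_left _ _)
    positivity
  set a : Edg := e0 β with haDef
  set S : Finset Edg := (boxE n).erase a with hS
  set f : Finset Edg → Prop := fun F => Cn {src a} {tgt a} (↑F : Set Edg) with hf
  have hfm : ∀ F G : Finset Edg, F ⊆ G → f F → f G := fun F G h hF => e1_cn_mono h hF
  have ha_box : a ∈ boxE n := by
    rw [haDef]
    unfold boxE e0
    cases β
    · rw [mem_RE_false]; omega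
    · rw [mem_RE_true]; omega
  refine ⟨?_, ?_, hq0, hq1, ?_⟩
  · refine ⟨_, deriv_f S f hfm q, ?_⟩
    have e : (∑ e ∈ S, Pr (fun _ => q) S (Pf f e)) - Sn β n q =
        ∑ b ∈ S.filter (fun b => (n:ℤ) < 4 * dst a b), PQ q S (Pf f b) := by
      unfold Sn
      rw [← Finset.sum_filter_add_sum_filter_not S (fun b => 4 * dst a b ≤ n)]
      have e2 : S.filter (fun b => (n:ℤ) < 4 * dst a b) =
          S.filter (fun b => ¬ 4 * dst a b ≤ n) := by
        apply Finset.filter_congr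
        intro b _
        exact not_le.symm
      rw [e2]
      exact add_sub_cancel_left _ _
    have h8 := H8 q n A (by omega) hW hA1 haA β
    rw [e, abs_of_nonneg (Finset.sum_nonneg (fun b _ => Pr_nonneg hok _ _))]
    refine h8.trans ?_
    apply mul_le_mul_of_nonneg_right _ (by positivity)
    rw [hC]; linarith
  · set core : Finset Edg := S.filter (fun b => 4 * dst a b ≤ n) with hcore
    obtain ⟨D, hD, hDle⟩ := deriv_T S core (Finset.filter_subset _ _) f hfm q hq0 hq1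
    refine ⟨D, hD, hDle.trans ?_⟩
    have t3nn : ∀ b z, 0 ≤ t3 q (boxE n) a b z := fun b z => Pr_nonneg hok _ _
    have hrow : ∀ b ∈ core, ∑ g ∈ S.erase b, Pr (fun _ => q) S (SD f b g) ≤
        (∑ z ∈ boxE n, C5 * A^3 * (((dmin a b z : ℝ) + 1)^(-(3/2) + 2 * ε) *
          ((dmax a b z : ℝ) + 1)^(-(9/4) + ε))) +
        C7 * A^3 * ((dst a b : ℝ) + 1)^(-(3/2) + 2 * ε) * (n:ℝ)^(-(1/4) + ε) := by
      intro b hb
      rw [hcore, Finset.mem_filter, hS, Finset.mem_erase] at hb
      obtain ⟨⟨hba, hbox⟩, hbd⟩ := hb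
      have hd0 : 0 ≤ dst a b := le_max_of_le_left (abs_nonneg _)
      rw [← Finset.sum_filter_add_sum_filter_not (S.erase b) (fun z => 2 * dst a z ≤ n)]
      apply add_le_add
      · refine (Finset.sum_le_sum (g := fun z => C5 * A^3 *
          (((dmin a b z : ℝ) + 1)^(-(3/2) + 2 * ε) * ((dmax a b z : ℝ) + 1)^(-(9/4) + ε)))
          ?_).trans ?_
        · intro z hz
          rw [Finset.mem_filter, Finset.mem_erase, hS, Finset.mem_erase] at hz
          have hb2 : 2 * dst a b ≤ n := by omega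
          exact H5 q n A hW hA1 haA β b z hba hz.1.2.1 (Ne.symm hz.1.1) hb2 hz.2
        · apply Finset.sum_le_sum_of_subset_of_nonneg
          · intro z hz
            rw [Finset.mem_filter, Finset.mem_erase, hS, Finset.mem_erase] at hz
            exact hz.1.2.2
          · intro z _ _
            have k1 : 0 ≤ dst a z := le_max_of_le_left (abs_nonneg _)
            have k2 : 0 ≤ dst b z := le_max_of_le_left (abs_nonneg _)
            have k3 : 0 ≤ dmin a b z := le_min hd0 (le_min k1 k2)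
            have k4 : 0 ≤ dmax a b z := le_max_of_le_left hd0
            have k3' : (0:ℝ) ≤ dmin a b z := by exact_mod_cast k3
            have k4' : (0:ℝ) ≤ dmax a b z := by exact_mod_cast k4
            positivity
      · refine le_trans ?_ (H7 q n A (by omega) hW hA1 haA β b hba hbd)
        refine (Finset.sum_le_sum_of_subset_of_nonneg ?_ (fun z _ _ => t3nn b z))
        intro z hz
        rw [Finset.mem_filter, Finset.mem_erase, hS, Finset.mem_erase] at hz
        rw [Finset.mem_filter]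
        exact ⟨hz.1.2.2, lt_of_not_ge hz.2⟩
    have hsum : ∑ b ∈ core, ((∑ z ∈ boxE n, C5 * A^3 * (((dmin a b z : ℝ) + 1)^(-(3/2) + 2 * ε) *
          ((dmax a b z : ℝ) + 1)^(-(9/4) + ε))) +
        C7 * A^3 * ((dst a b : ℝ) + 1)^(-(3/2) + 2 * ε) * (n:ℝ)^(-(1/4) + ε)) ≤
        C5 * A^3 * C3 * (n:ℝ)^(1/4 + 3 * ε) + C7 * A^3 * C1 * (n:ℝ)^(1/4 + 3 * ε) := by
      rw [Finset.sum_add_distrib]
      have hcs : core ⊆ boxE n := (Finset.filter_subset _ _).trans (Finset.erase_subset _ _)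
      apply add_le_add
      · have h3 := H3 n hn1 β
        have e3 : ∑ b ∈ core, ∑ z ∈ boxE n, C5 * A^3 *
            (((dmin a b z : ℝ) + 1)^(-(3/2) + 2 * ε) * ((dmax a b z : ℝ) + 1)^(-(9/4) + ε)) =
            C5 * A^3 * ∑ b ∈ core, ∑ z ∈ boxE n,
            (((dmin a b z : ℝ) + 1)^(-(3/2) + 2 * ε) * ((dmax a b z : ℝ) + 1)^(-(9/4) + ε)) := by
          rw [Finset.mul_sum]
          apply Finset.sum_congr rfl
          intro b _
          rw [Finset.mul_sum]
        rw [e3, mul_assoc (C5 * A^3) C3]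
        apply mul_le_mul_of_nonneg_left _ (by positivity)
        refine le_trans ?_ h3
        apply Finset.sum_le_sum_of_subset_of_nonneg hcs
        intro b _ _
        apply Finset.sum_nonneg
        intro z _
        have k0 : 0 ≤ dst a b := le_max_of_le_left (abs_nonneg _)
        have k1 : 0 ≤ dst a z := le_max_of_le_left (abs_nonneg _)
        have k2 : 0 ≤ dst b z := le_max_of_le_left (abs_nonneg _)
        have k3 : 0 ≤ dmin a b z := le_min k0 (le_min k1 k2)
        have k4 : 0 ≤ dmax a b z := le_max_of_le_left k0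
        have k3' : (0:ℝ) ≤ dmin a b z := by exact_mod_cast k3
        have k4' : (0:ℝ) ≤ dmax a b z := by exact_mod_cast k4
        positivity
      · have hc := H1 n hn1 a ha_box
        have e1 : ∑ b ∈ core, C7 * A^3 * ((dst a b : ℝ) + 1)^(-(3/2) + 2 * ε) *
            (n:ℝ)^(-(1/4) + ε) = C7 * A^3 * ((∑ b ∈ core, ((dst a b : ℝ) + 1)^(-(3/2) + 2 * ε)) *
            (n:ℝ)^(-(1/4) + ε)) := by
          rw [Finset.sum_mul, Finset.mul_sum]
          apply Finset.sum_congr rfl
          intro b _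
          ring
        rw [e1, mul_assoc (C7 * A^3) C1]
        apply mul_le_mul_of_nonneg_left _ (by positivity)
        have e2 : (n:ℝ)^(1/4 + 3 * ε) = (n:ℝ)^(1/2 + 2 * ε) * (n:ℝ)^(-(1/4) + ε) := by
          rw [← Real.rpow_add hnp]
          congr 1
          ring
        rw [e2, ← mul_assoc]
        apply mul_le_mul_of_nonneg_right _ (by positivity)
        refine le_trans ?_ hc
        apply Finset.sum_le_sum_of_subset_of_nonneg hcs
        intro b _ _
        have k0 : 0 ≤ dst a b := le_max_of_le_left (abs_nonneg _)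
        have k0' : (0:ℝ) ≤ dst a b := by exact_mod_cast k0
        positivity
    refine (Finset.sum_le_sum hrow).trans (hsum.trans ?_)
    rw [← add_mul]
    apply mul_le_mul_of_nonneg_right _ (by positivity)
    rw [hC]; linarith
  · refine (haA n hn1 le_rfl).trans ?_
    apply mul_le_mul_of_nonneg_right _ (by positivity)
    rw [hC]; linarith

end H31A
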