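import Pool.Agent.H31R4.Alp.Defs
import Pool.Agent.H973R3.NC.A4L

/-! Task F1: infinite-volume limit. -/

set_option maxHeartbeats 400000

namespace H31A

open H974 H12S H973N Finset

theorem f1_exit {G : Set Edg} {a b c d : ℤ} {u v : Vtx} (hu : inR a b c d u)
    (h : Reach G u v) :
    (∃ w ∈ bdR a b c d, Reach (G ∩ ↑(RE a b c d)) u w) ∨ Reach (G ∩ ↑(RE a b c d)) u v := by
  induction h with
  | refl => exact Or.inr (Reach.refl _ _)
  | @tail w w' hw hs ih =>
    rcases ih with ih | ih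
    · exact Or.inl ih
    · by_cases hout : w.1 ≤ a ∨ b ≤ w.1 ∨ w.2 ≤ c ∨ d ≤ w.2
      · obtain ⟨z, k1, k2, k3⟩ := first_exit (G := G) hu hw hout
        exact Or.inl ⟨z, ⟨k1, k2⟩, k3⟩
      · right
        push Not at hout
        obtain ⟨o1, o2, o3, o4⟩ := hout
        obtain ⟨⟨x0, y0, bo⟩, heG, hcase⟩ := hs
        have hmem : ((x0, y0, bo) : Edg) ∈ RE a b c d := by
          cases bo
          · simp only [src_mk, tgt_false] at hcase
            rw [mem_RE_false]
            rcases hcase with ⟨h3, h4⟩ | ⟨h3, h4⟩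
            · rw [← h3] at o1 o2 o3 o4; simp only at o1 o2 o3 o4; omega
            · rw [← h4] at o1 o2 o3 o4; simp only at o1 o2 o3 o4; omega
          · simp only [src_mk, tgt_true] at hcase
            rw [mem_RE_true]
            rcases hcase with ⟨h3, h4⟩ | ⟨h3, h4⟩
            · rw [← h3] at o1 o2 o3 o4; simp only at o1 o2 o3 o4; omega
            · rw [← h4] at o1 o2 o3 o4; simp only at o1 o2 o3 o4; omega
        have hadj : Adj (G ∩ ↑(RE a b c d)) w w' := ⟨_, ⟨heG, hmem⟩, hcase⟩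
        exact ih.trans hadj.reach

theorem f1_Cn_mono {I J : Set Vtx} {F G : Set Edg} (h : F ⊆ G) (hF : Cn I J F) : Cn I J G := by
  obtain ⟨u, hu, v, hv, hr⟩ := hF
  exact ⟨u, hu, v, hv, hr.mono h⟩

/-- F1 -/
theorem Dn_mono {q : ℝ} (h0 : 0 ≤ q) (h1 : q ≤ 1) (β : Bool) {m n : ℕ} (h : m ≤ n) :
    Dn β m q ≤ Dn β n q := by
  unfold Dn
  refine Pr_mono_set (okq h0 h1) (Finset.erase_subset_erase _ (boxE_mono h)) ?_
  intro F G hFG _ hF
  exact f1_Cn_mono (by exact_mod_cast hFG) hF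

theorem f1_Dn_nonneg {q : ℝ} (h0 : 0 ≤ q) (h1 : q ≤ 1) (β : Bool) (n : ℕ) : 0 ≤ Dn β n q :=
  Pr_nonneg (okq h0 h1) _ _

theorem f1_Dn_le_one {q : ℝ} (h0 : 0 ≤ q) (h1 : q ≤ 1) (β : Bool) (n : ℕ) : Dn β n q ≤ 1 :=
  Pr_le_one (okq h0 h1) _ _

theorem f1_a4_ge {q : ℝ} (h0 : 0 ≤ q) (h1 : q ≤ 1) (β : Bool) (m : ℕ) :
    PQ q (boxE m) (fun F => A4 (-m) m (-m) m (e0 β) ↑F) ≤ a4 q m := by
  unfold a4
  have k1 := Pr_nonneg (okq h0 h1) (boxE m)
    (fun F : Finset Edg => A4 (-m) m (-m) m (e0 true) (↑F : Set Edg))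
  have k2 := Pr_nonneg (okq h0 h1) (boxE m)
    (fun F : Finset Edg => A4 (-m) m (-m) m (e0 false) (↑F : Set Edg))
  cases β
  · simp only [PQ]; linarith
  · simp only [PQ]; linarith

/-- F1 -/
theorem Dn_diff {q : ℝ} (h0 : 0 ≤ q) (h1 : q ≤ 1) (β : Bool) {m n : ℕ} (hm : 1 ≤ m)
    (h : m ≤ n) : Dn β n q - Dn β m q ≤ a4 q m := by
  have ok := okq h0 h1
  have hm' : (1:ℤ) ≤ m := by exact_mod_cast hm
  set S := (boxE n).erase (e0 β) with hS
  set S' := (boxE m).erase (e0 β) with hS'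
  have hSS : S' ⊆ S := Finset.erase_subset_erase _ (boxE_mono h)
  -- the smaller box as an event in the larger box
  have e1 : Dn β m q = Pr (fun _ => q) S
      (fun F => Cn {src (e0 β)} {tgt (e0 β)} (↑(F ∩ S') : Set Edg)) := by
    have k1 : Pr (fun _ => q) S
        (fun F => Cn {src (e0 β)} {tgt (e0 β)} (↑(F ∩ S') : Set Edg)) =
        Pr (fun _ => q) S'
        (fun F => Cn {src (e0 β)} {tgt (e0 β)} (↑(F ∩ S') : Set Edg)) := by
      apply Pr_local hSS
      intro F _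
      rw [Finset.inter_assoc, Finset.inter_self]
    rw [k1]
    unfold Dn
    apply Pr_congr
    intro F hF
    rw [Finset.inter_eq_left.mpr hF]
  have e2 : Dn β n q ≤ Pr (fun _ => q) S (fun F =>
      Cn {src (e0 β)} {tgt (e0 β)} (↑(F ∩ S') : Set Edg) ∨
      A4 (-m) m (-m) m (e0 β) (↑F : Set Edg)) := by
    unfold Dn
    apply Pr_mono ok
    intro F hF hC
    by_cases hC' : Cn {src (e0 β)} {tgt (e0 β)} (↑(F ∩ S') : Set Edg)
    · exact Or.inl hC'
    · right
      have heF : e0 β ∉ (↑F : Set Edg) := fun h => (Finset.notMem_erase (e0 β) _) (hF h)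
      have hset : ((↑F : Set Edg) ∩ ↑(RE (-m) m (-m) m)) \ {e0 β} = (↑(F ∩ S') : Set Edg) := by
        ext g
        rw [hS']
        unfold boxE
        simp only [Set.mem_sdiff, Set.mem_inter_iff, Finset.mem_coe, Set.mem_singleton_iff,
          Finset.coe_inter, Finset.coe_erase]
        tauto
      have hset2 : ((↑F : Set Edg) ∩ ↑(RE (-m) m (-m) m)) \ {e0 β} =
          (↑F : Set Edg) ∩ ↑(RE (-m) m (-m) m) := by
        ext g
        simp only [Set.mem_sdiff, Set.mem_inter_iff, Finset.mem_coe, Set.mem_singleton_iff]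
        constructor
        · rintro ⟨k1, -⟩; exact k1
        · rintro ⟨k1, k2⟩
          refine ⟨⟨k1, k2⟩, ?_⟩
          rintro rfl
          exact heF (Finset.mem_coe.mpr k1)
      obtain ⟨u, hu, v, hv, huv⟩ := hC
      rw [Set.mem_singleton_iff] at hu hv
      subst hu; subst hv
      have hns : ¬ Reach (((↑F : Set Edg) ∩ ↑(RE (-m) m (-m) m)) \ {e0 β}) (src (e0 β))
          (tgt (e0 β)) := by
        rw [hset]
        intro hr
        exact hC' ⟨_, rfl, _, rfl, hr⟩
      have hin1 : inR (-m) m (-m) m (src (e0 β)) := by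
        unfold e0 inR
        simp only [src_mk]
        omega
      have hin2 : inR (-m) m (-m) m (tgt (e0 β)) := by
        unfold e0 inR
        cases β
        · simp only [tgt_false]
          omega
        · simp only [tgt_true]
          omega
      refine ⟨?_, ?_, hns⟩
      · rcases f1_exit hin1 huv with k | k
        · rw [hset2]; exact k
        · rw [← hset2] at k; exact absurd k hns
      · rcases f1_exit hin2 huv.symm with k | k
        · rw [hset2]; exact k
        · rw [← hset2] at k; exact absurd k.symm hns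
  have e3 := Pr_or_le ok S
    (fun F => Cn {src (e0 β)} {tgt (e0 β)} (↑(F ∩ S') : Set Edg))
    (fun F => A4 (-m) m (-m) m (e0 β) (↑F : Set Edg))
  have e4 : Pr (fun _ => q) S (fun F => A4 (-m) m (-m) m (e0 β) (↑F : Set Edg)) =
      Pr (fun _ => q) (boxE m) (fun F => A4 (-m) m (-m) m (e0 β) (↑F : Set Edg)) := by
    have k1 : Pr (fun _ => q) S (fun F => A4 (-m) m (-m) m (e0 β) (↑F : Set Edg)) =
        Pr (fun _ => q) S' (fun F => A4 (-m) m (-m) m (e0 β) (↑F : Set Edg)) := by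
      apply Pr_local hSS
      intro F hF
      apply A4_congr
      intro g hg hge
      have : g ∈ S' := by
        rw [hS']
        exact Finset.mem_erase.mpr ⟨hge, hg⟩
      rw [Finset.mem_coe, Finset.mem_coe, Finset.mem_inter]
      exact ⟨fun k => ⟨k, this⟩, fun k => k.1⟩
    have k2 : Pr (fun _ => q) (boxE m) (fun F => A4 (-m) m (-m) m (e0 β) (↑F : Set Edg)) =
        Pr (fun _ => q) S' (fun F => A4 (-m) m (-m) m (e0 β) (↑F : Set Edg)) := by
      apply Pr_local (Finset.erase_subset _ _)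
      intro F hF
      apply A4_congr
      intro g hg hge
      have : g ∈ S' := by
        rw [hS']
        exact Finset.mem_erase.mpr ⟨hge, hg⟩
      rw [Finset.mem_coe, Finset.mem_coe, Finset.mem_inter]
      exact ⟨fun k => ⟨k, this⟩, fun k => k.1⟩
    rw [k1, k2]
  have e5 := f1_a4_ge h0 h1 β m
  simp only [PQ] at e5
  rw [e4, ← e1] at e3
  linarith

/-- F1 -/
theorem cc_lim {q : ℝ} (h0 : 0 ≤ q) (h1 : q ≤ 1) (β : Bool) :
    Filter.Tendsto (fun n => Dn β n q) Filter.atTop (nhds (cc β q)) := by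
  apply tendsto_atTop_ciSup
  · intro m n h
    exact Dn_mono h0 h1 β h
  · refine ⟨1, ?_⟩
    rintro _ ⟨n, rfl⟩
    exact f1_Dn_le_one h0 h1 β n

/-- F1 -/
theorem cc_bounds {q : ℝ} (h0 : 0 ≤ q) (h1 : q ≤ 1) (β : Bool) {m : ℕ} (hm : 1 ≤ m) :
    Dn β m q ≤ cc β q ∧ cc β q - Dn β m q ≤ a4 q m ∧ 0 ≤ cc β q ∧ cc β q ≤ 1 := by
  have hb : BddAbove (Set.range fun n => Dn β n q) := by
    refine ⟨1, ?_⟩
    rintro _ ⟨n, rfl⟩
    exact f1_Dn_le_one h0 h1 β n
  have k1 : Dn β m q ≤ cc β q := le_ciSup hb m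
  have ha : 0 ≤ a4 q m := (Pr_nonneg (okq h0 h1) _ _).trans (f1_a4_ge h0 h1 β m)
  have k2 : cc β q ≤ Dn β m q + a4 q m := by
    apply ciSup_le
    intro n
    rcases le_total m n with h | h
    · have := Dn_diff h0 h1 β hm h
      linarith
    · have := Dn_mono h0 h1 β h
      linarith
  refine ⟨k1, by linarith, (f1_Dn_nonneg h0 h1 β m).trans k1, ?_⟩
  apply ciSup_le
  intro n
  exact f1_Dn_le_one h0 h1 β n

end H31A
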