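import Pool.Agent.H31R4.Alp.Defs
import Pool.Agent.H973R3.NC.A4L

/-! Task F2: a4 tends to 0 uniformly. -/

set_option maxHeartbeats 400000

namespace H31A

open H974 H12S H973N Finset

theorem f2_Lam (r : ℕ) : Lam 0 0 r = boxE (4 * r) := by
  unfold Lam boxE
  congr 1 <;> push_cast <;> ring

/-- Four arms force an open arm and a dual arm. -/
theorem f2_GG {r : ℕ} {e : Edg} (he : e ∈ Cor 0 0 r) {F : Finset Edg}
    (hF : F ⊆ (Lam 0 0 r).erase e) (h : F4 src tgt (BL 0 0 r) e F) :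
    GG src tgt dsrc dtgt (BL 0 0 r) (OL 0 0 r) (Lam 0 0 r) e F := by
  obtain ⟨⟨w, hw, hrw⟩, ⟨w', hw', hrw'⟩, huv⟩ := h
  set L := Lam 0 0 r with hL
  have heF : e ∉ (↑F : Set Edg) := fun h => (Finset.notMem_erase e L) (hF h)
  have hFL : (↑F : Set Edg) ⊆ ↑(RE ((0:ℤ) - 4 * r) (0 + 4 * r) (0 - 4 * r) (0 + 4 * r)) := by
    intro x hx
    exact Finset.mem_coe.mpr (Finset.mem_of_mem_erase (hF (Finset.mem_coe.mp hx)))
  have heL := Cor_sub 0 0 r he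
  have hset : (↑((L \ F).erase e) : Set Edg) =
      (↑(RE ((0:ℤ) - 4 * r) (0 + 4 * r) (0 - 4 * r) (0 + 4 * r)) \ ↑F) \ {e} := by
    rw [Finset.coe_erase, Finset.coe_sdiff]
    rfl
  refine ⟨?_, ?_⟩
  · rw [Finset.erase_eq_of_notMem (by exact_mod_cast heF)]
    exact ⟨w, hw, Or.inl hrw⟩
  · obtain ⟨g, hg, hrg⟩ := dual_arm hFL heL heF ⟨w, hw, hrw⟩ ⟨w', hw', hrw'⟩ huv
      (Or.inl ⟨rfl, rfl⟩)
    refine ⟨g, hg, Or.inl ?_⟩
    rw [hset]
    exact hrg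

theorem f2_one {p : ℝ} (h0 : 0 ≤ p) (h1 : p ≤ 1) (β : Bool) {r : ℕ} (hr : 1 ≤ r) :
    PQ p (boxE (4 * r)) (fun F => A4 (-((4 * r : ℕ) : ℤ)) ((4 * r : ℕ) : ℤ)
      (-((4 * r : ℕ) : ℤ)) ((4 * r : ℕ) : ℤ) (e0 β) ↑F) ≤ 4 * arm (1/2) r := by
  have ok := okq h0 h1
  have hr' : (1:ℤ) ≤ r := by exact_mod_cast hr
  have he : e0 β ∈ Cor 0 0 r := by
    unfold e0 Cor
    cases β
    · rw [mem_RE_false]; omega
    · rw [mem_RE_true]; omega
  have e1 : PQ p (boxE (4 * r)) (fun F => A4 (-((4 * r : ℕ) : ℤ)) ((4 * r : ℕ) : ℤ)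
      (-((4 * r : ℕ) : ℤ)) ((4 * r : ℕ) : ℤ) (e0 β) ↑F) =
      Pr (fun _ => p) ((Lam 0 0 r).erase (e0 β)) (fun F => A4 (-((4 * r : ℕ) : ℤ))
        ((4 * r : ℕ) : ℤ) (-((4 * r : ℕ) : ℤ)) ((4 * r : ℕ) : ℤ) (e0 β) ↑F) := by
    rw [f2_Lam]
    apply Pr_local (Finset.erase_subset _ _)
    intro F hF
    apply A4_congr
    intro g hg hge
    have : g ∈ (boxE (4 * r)).erase (e0 β) := Finset.mem_erase.mpr ⟨hge, hg⟩
    rw [Finset.mem_coe, Finset.mem_coe, Finset.mem_inter]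
    exact ⟨fun k => ⟨k, this⟩, fun k => k.1⟩
  rw [e1]
  have e2 : Pr (fun _ => p) ((Lam 0 0 r).erase (e0 β)) (fun F => A4 (-((4 * r : ℕ) : ℤ))
        ((4 * r : ℕ) : ℤ) (-((4 * r : ℕ) : ℤ)) ((4 * r : ℕ) : ℤ) (e0 β) ↑F) ≤
      Pr (fun _ => p) ((Lam 0 0 r).erase (e0 β)) (GG src tgt dsrc dtgt (BL 0 0 r) (OL 0 0 r)
        (Lam 0 0 r) (e0 β)) := by
    apply Pr_mono ok
    intro F hF hA
    apply f2_GG he hF
    have hBL : bdR (-((4 * r : ℕ) : ℤ)) ((4 * r : ℕ) : ℤ) (-((4 * r : ℕ) : ℤ))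
        ((4 * r : ℕ) : ℤ) = BL 0 0 r := by
      unfold BL
      congr 1 <;> push_cast <;> ring
    have hsub : ((↑F : Set Edg) ∩ ↑(RE (-((4 * r : ℕ) : ℤ)) ((4 * r : ℕ) : ℤ)
        (-((4 * r : ℕ) : ℤ)) ((4 * r : ℕ) : ℤ))) \ {e0 β} = (↑F : Set Edg) := by
      ext g
      simp only [Set.mem_sdiff, Set.mem_inter_iff, Finset.mem_coe, Set.mem_singleton_iff]
      constructor
      · rintro ⟨⟨k, -⟩, -⟩; exact k
      · intro k
        have hk := hF k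
        rw [Finset.mem_erase, f2_Lam] at hk
        exact ⟨⟨k, hk.2⟩, hk.1⟩
    unfold A4 at hA
    rw [hsub, hBL] at hA
    exact hA
  have e3 := pr_GG_primal ok (q1 := p) (q2 := 1 - p) (fun _ => le_rfl) (fun _ => le_rfl) h1
    (by linarith) 0 0 he
  have e4 : arm p r * arm (1 - p) r ≤ arm (1/2) r := by
    have a1 := arm_nonneg h0 h1 r
    have a2 := arm_nonneg (q := 1 - p) (by linarith) (by linarith) r
    have b1 := arm_le_one h0 h1 r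
    have b2 := arm_le_one (q := 1 - p) (by linarith) (by linarith) r
    rcases le_total p (1/2) with hp | hp
    · have := arm_mono_param (p := p) (q := 1/2) h0 hp (by norm_num) r
      nlinarith
    · have := arm_mono_param (p := 1 - p) (q := 1/2) (by linarith) (by linarith) (by norm_num) r
      nlinarith
  linarith

/-- F2 -/
theorem a4_unif : ∀ δ : ℝ, 0 < δ → ∃ m : ℕ, 1 ≤ m ∧ ∀ p : ℝ, 0 ≤ p → p ≤ 1 →
    a4 p m ≤ δ := by
  intro δ hδ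
  obtain ⟨K, hK⟩ : ∃ K : ℕ, (1 - (1/2 : ℝ)^188)^K < δ / 8 := by
    apply exists_pow_lt_of_lt_one (by positivity)
    have : (0:ℝ) < (1/2 : ℝ)^188 := by positivity
    linarith
  have hR : 1 ≤ RR K := by have := RR_ge K; omega
  refine ⟨4 * RR K, by omega, ?_⟩
  intro p h0 h1
  have k1 := f2_one h0 h1 true hR
  have k2 := f2_one h0 h1 false hR
  have k3 := arm_decay K
  unfold a4
  linarith

end H31A
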