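import Pool.Agent.H31R4.Alp.F1
import Pool.Agent.H31R4.Alp.F2
import Pool.Agent.H973R3.NC.CT

/-! Task F3: continuity of cc. -/

set_option maxHeartbeats 400000

namespace H31A

open H974 H12S H973N Finset

/-- F3 -/
theorem cc_cont (β : Bool) : ContinuousOn (cc β) (Set.Icc 0 1) := by
  apply continuousOn_of_uniform_approx_of_continuousOn
  intro u hu
  obtain ⟨δ, hδ, hd⟩ := Metric.mem_uniformity_dist.1 hu
  obtain ⟨m, hm1, hm⟩ := a4_unif (δ / 2) (by linarith)
  refine ⟨Dn β m, ?_, ?_⟩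
  · unfold Dn
    exact (cont_Pr _ _).continuousOn
  · intro y hy
    apply hd
    have h1 := cc_bounds hy.1 hy.2 β hm1
    have h2 := hm y hy.1 hy.2
    rw [Real.dist_eq, abs_of_nonneg (by linarith [h1.1])]
    linarith [h1.2.1]

end H31A
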