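import Pool.Agent.H31R4.Alp.Defs

/-! Task H5: meanClusters = EN. -/

set_option maxHeartbeats 400000

namespace H31A

open H974 H12S H973N Finset

/-- embedding of the box in the lattice -/
def h5_io {n : ℕ} (v : Fin n × Fin n) : Vtx := ((v.1 : ℤ), (v.2 : ℤ))

theorem h5_io_inj {n : ℕ} : Function.Injective (h5_io (n := n)) := by
  rintro ⟨a, b⟩ ⟨a', b'⟩ h
  simp only [h5_io, Prod.mk.injEq] at h
  have h1 : (a : ℕ) = a' := by exact_mod_cast h.1
  have h2 : (b : ℕ) = b' := by exact_mod_cast h.2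
  rw [Fin.ext h1, Fin.ext h2]

/-- an edge as an unordered pair -/
def h5_ps (e : Edg) : Sym2 Vtx := s(src e, tgt e)

theorem h5_ps_inj : Function.Injective h5_ps := by
  rintro ⟨x, y, b⟩ ⟨x', y', b'⟩ h
  simp only [h5_ps, Sym2.eq_iff] at h
  cases b <;> cases b' <;> simp [Prod.ext_iff] at h ⊢ <;> omega

theorem h5_mem_BK {n : ℕ} {x y : ℤ} {b : Bool} : ((x, y, b) : Edg) ∈ BK n ↔
    (0 ≤ x ∧ x ≤ (n:ℤ) - 1) ∧ (0 ≤ y ∧ y ≤ (n:ℤ) - 1) ∧
      (if b then x < (n:ℤ) - 1 else y < (n:ℤ) - 1) := by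
  simp only [BK, RE, Finset.mem_filter, Finset.mem_product, Finset.mem_Icc, Finset.mem_univ,
    and_true, and_assoc]

theorem h5_mem_adj {n : ℕ} (a b : Fin n × Fin n) (h : (gridG n).Adj a b) :
    ∃ e ∈ BK n, h5_ps e = s(h5_io a, h5_io b) := by
  obtain ⟨a1, a2⟩ := a
  obtain ⟨b1, b2⟩ := b
  simp only [gridG] at h
  have ha1 := a1.2
  have ha2 := a2.2
  have hb1 := b1.2
  have hb2 := b2.2
  have key : ((a1:ℤ) = b1 ∧ (a2:ℤ) + 1 = b2) ∨ ((a1:ℤ) = b1 ∧ (b2:ℤ) + 1 = a2) ∨
      ((a2:ℤ) = b2 ∧ (a1:ℤ) + 1 = b1) ∨ ((a2:ℤ) = b2 ∧ (b1:ℤ) + 1 = a1) := by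
    rcases abs_cases ((a1:ℤ) - b1) with ⟨h1, _⟩ | ⟨h1, _⟩ <;>
    rcases abs_cases ((a2:ℤ) - b2) with ⟨h2, _⟩ | ⟨h2, _⟩ <;> rw [h1, h2] at h <;> omega
  rcases key with ⟨h1, h2⟩ | ⟨h1, h2⟩ | ⟨h1, h2⟩ | ⟨h1, h2⟩
  · refine ⟨((a1:ℤ), (a2:ℤ), false), ?_, ?_⟩
    · rw [h5_mem_BK]
      simp
      omega
    · simp only [h5_ps, h5_io, src_mk, tgt_false]
      rw [h2, ← h1]
  · refine ⟨((b1:ℤ), (b2:ℤ), false), ?_, ?_⟩
    · rw [h5_mem_BK]
      simp
      omega
    · simp only [h5_ps, h5_io, src_mk, tgt_false]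
      rw [h2, ← h1, Sym2.eq_swap]
  · refine ⟨((a1:ℤ), (a2:ℤ), true), ?_, ?_⟩
    · rw [h5_mem_BK]
      simp
      omega
    · simp only [h5_ps, h5_io, src_mk, tgt_true]
      rw [h2, ← h1]
  · refine ⟨((b1:ℤ), (b2:ℤ), true), ?_, ?_⟩
    · rw [h5_mem_BK]
      simp
      omega
    · simp only [h5_ps, h5_io, src_mk, tgt_true]
      rw [h2, ← h1, Sym2.eq_swap]

theorem h5_adj_mem {n : ℕ} (e : Edg) (he : e ∈ BK n) :
    ∃ a b : Fin n × Fin n, (gridG n).Adj a b ∧ h5_ps e = s(h5_io a, h5_io b) := by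
  obtain ⟨x, y, b⟩ := e
  rw [h5_mem_BK] at he
  obtain ⟨⟨h1, h2⟩, ⟨h3, h4⟩, h5⟩ := he
  obtain ⟨i, rfl⟩ := Int.eq_ofNat_of_zero_le h1
  obtain ⟨j, rfl⟩ := Int.eq_ofNat_of_zero_le h3
  cases b
  · simp only [Bool.false_eq_true, if_false] at h5
    refine ⟨(⟨i, by omega⟩, ⟨j, by omega⟩), (⟨i, by omega⟩, ⟨j + 1, by omega⟩), ?_, ?_⟩
    · simp [gridG]
    · simp [h5_ps, h5_io]
  · simp only [if_true] at h5
    refine ⟨(⟨i, by omega⟩, ⟨j, by omega⟩), (⟨i + 1, by omega⟩, ⟨j, by omega⟩), ?_, ?_⟩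
    · simp [gridG]
    · simp [h5_ps, h5_io]

section

open Classical

variable {n : ℕ}

/-- from sets of graph edges to sets of lattice edges -/
noncomputable def h5_i (ω : Finset (Sym2 (Fin n × Fin n))) : Finset Edg :=
  (BK n).filter fun e => h5_ps e ∈ ω.image (Sym2.map h5_io)

/-- from sets of lattice edges to sets of graph edges -/
noncomputable def h5_j (F : Finset Edg) : Finset (Sym2 (Fin n × Fin n)) :=
  (gridG n).edgeFinset.filter fun s => Sym2.map h5_io s ∈ F.image h5_ps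

theorem h5_i_sub (ω : Finset (Sym2 (Fin n × Fin n))) : h5_i ω ⊆ BK n := Finset.filter_subset _ _

theorem h5_j_sub (F : Finset Edg) : h5_j (n := n) F ⊆ (gridG n).edgeFinset :=
  Finset.filter_subset _ _

theorem h5_img : (BK n).image h5_ps = (gridG n).edgeFinset.image (Sym2.map h5_io) := by
  ext t
  simp only [Finset.mem_image, SimpleGraph.mem_edgeFinset]
  constructor
  · rintro ⟨e, he, rfl⟩
    obtain ⟨a, b, hab, h⟩ := h5_adj_mem e he
    exact ⟨s(a, b), hab, by rw [h]; rfl⟩
  · rintro ⟨s, hs, rfl⟩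
    induction s with
    | h a b =>
      obtain ⟨e, he, h⟩ := h5_mem_adj a b hs
      exact ⟨e, he, h⟩

theorem h5_i_img {ω : Finset (Sym2 (Fin n × Fin n))} (hω : ω ⊆ (gridG n).edgeFinset) :
    (h5_i ω).image h5_ps = ω.image (Sym2.map h5_io) := by
  ext t
  constructor
  · intro ht
    obtain ⟨e, he, rfl⟩ := Finset.mem_image.1 ht
    exact (Finset.mem_filter.1 he).2
  · intro ht
    have h1 : t ∈ (BK n).image h5_ps := by
      rw [h5_img]
      exact Finset.image_subset_image hω ht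
    obtain ⟨e, he, rfl⟩ := Finset.mem_image.1 h1
    exact Finset.mem_image.2 ⟨e, Finset.mem_filter.2 ⟨he, ht⟩, rfl⟩

theorem h5_j_img {F : Finset Edg} (hF : F ⊆ BK n) :
    (h5_j (n := n) F).image (Sym2.map h5_io) = F.image h5_ps := by
  ext t
  constructor
  · intro ht
    obtain ⟨e, he, rfl⟩ := Finset.mem_image.1 ht
    exact (Finset.mem_filter.1 he).2
  · intro ht
    have h1 : t ∈ (gridG n).edgeFinset.image (Sym2.map h5_io) := by
      rw [← h5_img]
      exact Finset.image_subset_image hF ht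
    obtain ⟨e, he, rfl⟩ := Finset.mem_image.1 h1
    exact Finset.mem_image.2 ⟨e, Finset.mem_filter.2 ⟨he, ht⟩, rfl⟩

theorem h5_map_inj : Function.Injective (Sym2.map (h5_io (n := n))) :=
  Sym2.map.injective h5_io_inj

theorem h5_i_card {ω : Finset (Sym2 (Fin n × Fin n))} (hω : ω ⊆ (gridG n).edgeFinset) :
    (h5_i ω).card = ω.card := by
  rw [← Finset.card_image_of_injective _ h5_ps_inj, h5_i_img hω,
    Finset.card_image_of_injective _ h5_map_inj]

theorem h5_ji {ω : Finset (Sym2 (Fin n × Fin n))} (hω : ω ⊆ (gridG n).edgeFinset) :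
    h5_j (h5_i ω) = ω := by
  apply Finset.image_injective h5_map_inj
  rw [h5_j_img (h5_i_sub ω), h5_i_img hω]

theorem h5_ij {F : Finset Edg} (hF : F ⊆ BK n) :
    h5_i (h5_j (n := n) F) = F := by
  apply Finset.image_injective h5_ps_inj
  rw [h5_i_img (h5_j_sub F), h5_j_img hF]

theorem h5_reach {ω : Finset (Sym2 (Fin n × Fin n))} (hω : ω ⊆ (gridG n).edgeFinset)
    (v w : Fin n × Fin n) :
    (SimpleGraph.fromEdgeSet (↑ω : Set (Sym2 (Fin n × Fin n)))).Reachable v w ↔
      GR src tgt (↑(h5_i ω) : Set Edg) (h5_io v) (h5_io w) := by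
  constructor
  · intro h
    rw [SimpleGraph.reachable_iff_reflTransGen] at h
    induction h with
    | refl => exact GR.refl _ _
    | @tail a b _ hab ih =>
      rw [SimpleGraph.fromEdgeSet_adj] at hab
      have h1 : Sym2.map h5_io s(a, b) ∈ (h5_i ω).image h5_ps := by
        rw [h5_i_img hω]
        exact Finset.mem_image_of_mem _ (by exact_mod_cast hab.1)
      obtain ⟨e, he, h2⟩ := Finset.mem_image.1 h1
      refine ih.tail ⟨e, by exact_mod_cast he, ?_⟩
      have h3 : s(src e, tgt e) = s(h5_io a, h5_io b) := h2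
      rw [Sym2.eq_iff] at h3
      exact h3
  · intro h
    have key : ∀ y, GR src tgt (↑(h5_i ω) : Set Edg) (h5_io v) y → ∃ w : Fin n × Fin n,
        y = h5_io w ∧
        (SimpleGraph.fromEdgeSet (↑ω : Set (Sym2 (Fin n × Fin n)))).Reachable v w := by
      intro y hy
      induction hy with
      | refl => exact ⟨v, rfl, SimpleGraph.Reachable.refl _⟩
      | @tail a b _ hab ih =>
        obtain ⟨w, rfl, hw⟩ := ih
        obtain ⟨e, he, hcase⟩ := hab
        have he' : h5_ps e ∈ ω.image (Sym2.map h5_io) :=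
          (Finset.mem_filter.1 (by exact_mod_cast he : e ∈ h5_i ω)).2
        obtain ⟨s, hs, hse⟩ := Finset.mem_image.1 he'
        have hsG := hω hs
        rw [SimpleGraph.mem_edgeFinset] at hsG
        induction s with
        | h c d =>
          have hcd : c ≠ d := (SimpleGraph.mem_edgeSet _ |>.1 hsG).ne
          have h3 : s(h5_io c, h5_io d) = s(src e, tgt e) := hse
          have h4 : s(h5_io c, h5_io d) = s(h5_io w, b) := by
            rw [h3]
            rcases hcase with ⟨h5, h6⟩ | ⟨h5, h6⟩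
            · rw [h5, h6]
            · rw [h5, h6, Sym2.eq_swap]
          rw [Sym2.eq_iff] at h4
          rcases h4 with ⟨h5, h6⟩ | ⟨h5, h6⟩
          · refine ⟨d, h6.symm, hw.trans ?_⟩
            rw [← h5_io_inj h5]
            apply SimpleGraph.Adj.reachable
            rw [SimpleGraph.fromEdgeSet_adj]
            exact ⟨by exact_mod_cast hs, hcd⟩
          · refine ⟨c, h5.symm, hw.trans ?_⟩
            rw [← h5_io_inj h6]
            apply SimpleGraph.Adj.reachable
            rw [SimpleGraph.fromEdgeSet_adj, Sym2.eq_swap]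
            exact ⟨by exact_mod_cast hs, hcd.symm⟩
    obtain ⟨w', h1, h2⟩ := key _ h
    rw [h5_io_inj h1]
    exact h2

theorem h5_clusters {ω : Finset (Sym2 (Fin n × Fin n))} (hω : ω ⊆ (gridG n).edgeFinset) :
    Nat.card (SimpleGraph.fromEdgeSet (↑ω : Set (Sym2 (Fin n × Fin n)))).ConnectedComponent =
      NC src tgt (VK n) Set.univ (↑(h5_i ω) : Set Edg) := by
  set G := SimpleGraph.fromEdgeSet (↑ω : Set (Sym2 (Fin n × Fin n))) with hG
  have hcl : ∀ v w : Fin n × Fin n,
      clu src tgt (↑(h5_i ω) : Set Edg) (h5_io v) = clu src tgt (↑(h5_i ω) : Set Edg) (h5_io w) ↔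
        G.Reachable v w := by
    intro v w
    rw [hG, h5_reach hω]
    constructor
    · intro h
      have : h5_io w ∈ clu src tgt (↑(h5_i ω) : Set Edg) (h5_io v) := by
        rw [h]
        exact GR.refl _ _
      exact this
    · exact clu_eq
  let f : G.ConnectedComponent → Set Vtx :=
    Quot.lift (fun v => clu src tgt (↑(h5_i ω) : Set Edg) (h5_io v))
      (fun v w h => (hcl v w).2 h)
  have hf : Function.Injective f := by
    intro c c'
    induction c using SimpleGraph.ConnectedComponent.ind with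
    | h v =>
      induction c' using SimpleGraph.ConnectedComponent.ind with
      | h w =>
        intro h
        exact SimpleGraph.ConnectedComponent.sound ((hcl v w).1 h)
  have hr : Set.range f = (↑(TC src tgt (VK n) Set.univ (↑(h5_i ω) : Set Edg)) : Set (Set Vtx)) := by
    ext C
    rw [Finset.mem_coe, mem_TC]
    constructor
    · rintro ⟨c, rfl⟩
      induction c using SimpleGraph.ConnectedComponent.ind with
      | h v =>
        refine ⟨h5_io v, ?_, ⟨h5_io v, trivial, GR.refl _ _⟩, rfl⟩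
        have h1 := v.1.2
        have h2 := v.2.2
        simp only [VK, h5_io, Finset.mem_product, Finset.mem_Icc]
        omega
    · rintro ⟨x, hx, _, rfl⟩
      simp only [VK, Finset.mem_product, Finset.mem_Icc] at hx
      obtain ⟨i, hi⟩ := Int.eq_ofNat_of_zero_le hx.1.1
      obtain ⟨j, hj⟩ := Int.eq_ofNat_of_zero_le hx.2.1
      refine ⟨G.connectedComponentMk (⟨i, by omega⟩, ⟨j, by omega⟩), ?_⟩
      have : h5_io ((⟨i, by omega⟩, ⟨j, by omega⟩) : Fin n × Fin n) = x := by
        simp only [h5_io]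
        ext
        · exact hi.symm
        · exact hj.symm
      exact congrArg (clu src tgt (↑(h5_i ω) : Set Edg)) this
  rw [← Nat.card_range_of_injective hf, hr]
  simp [NC]

/-- H5 -/
theorem meanClusters_eq (n : ℕ) (p : ℝ) : meanClusters n p = EN n p := by
  unfold meanClusters EN Ex
  have hc : (BK n).card = (gridG n).edgeFinset.card := by
    rw [← Finset.card_image_of_injective _ h5_ps_inj, h5_img,
      Finset.card_image_of_injective _ h5_map_inj]
  refine Finset.sum_bij' (fun ω _ => h5_i ω) (fun F _ => h5_j F) ?_ ?_ ?_ ?_ ?_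
  · intro ω _
    exact Finset.mem_powerset.2 (Finset.filter_subset _ _)
  · intro F _
    exact Finset.mem_powerset.2 (Finset.filter_subset _ _)
  · intro ω hω
    exact h5_ji (Finset.mem_powerset.1 hω)
  · intro F hF
    exact h5_ij (Finset.mem_powerset.1 hF)
  · intro ω hω
    have h1 := Finset.mem_powerset.1 hω
    rw [Finset.prod_const, Finset.prod_const, h5_i_card h1,
      Finset.card_sdiff_of_subset (h5_i_sub ω), h5_i_card h1, hc, h5_clusters h1]

end

end H31A
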