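import Pool.Agent.H31R4.Alp.I1
import Pool.Agent.H31R4.Alp.H5

/-! The theorem on the exponent `α`, from the near-critical input. -/

set_option maxHeartbeats 400000

namespace H31A

open H974 H12S H973N Finset

/-- The number of clusters per vertex exists, is differentiable on `(0,1)`, twice differentiable at
`1/2`, and its second order Taylor polynomial at `1/2` is accurate to order `8/3 - ε`. -/
theorem alpha_final (hN : Near) : ∃ κ : ℝ → ℝ,
    (∀ p : ℝ, 0 ≤ p → p ≤ 1 → Filter.Tendsto (fun n : ℕ => meanClusters n p / (n:ℝ)^2)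
      Filter.atTop (nhds (κ p))) ∧
    (∀ p : ℝ, 0 < p → p < 1 → DifferentiableAt ℝ κ p) ∧
    DifferentiableAt ℝ (deriv κ) (1/2) ∧
    ∀ ε : ℝ, 0 < ε → ∃ C : ℝ, ∀ p : ℝ, 0 ≤ p → p ≤ 1 →
      |κ p - κ (1/2) - deriv κ (1/2) * (p - 1/2) - deriv (deriv κ) (1/2) / 2 * (p - 1/2)^2| ≤
        C * |p - 1/2|^((8:ℝ)/3 - ε) := by
  refine ⟨kp, fun p h0 h1 => ?_, fun p h0 h1 => (kp_deriv h0 h1).differentiableAt,
    (alpha_of hN one_pos).1, fun ε h0 => (alpha_of hN h0).2⟩
  refine (kp_lim h0 h1).congr fun n => ?_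
  rw [meanClusters_eq]

end H31A
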