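import Pool.Agent.H31R4.Alp.Defs

/-! Task G1: abstract expansion. -/

set_option maxHeartbeats 400000

namespace H31A

open H974 H12S H973N Finset

theorem g1_step {D S : ℕ → ℝ → ℝ} {c : ℝ → ℝ} {κ C ε : ℝ} {n0 : ℕ} (hκ : 0 < κ)
    (hC : 0 < C) (hn0 : 1 ≤ n0)
    (h : ∀ n : ℕ, n0 ≤ n → ∀ s : ℝ, |s| ≤ κ * (n:ℝ)^(-(3/4) - ε) →
      (∃ D' : ℝ, HasDerivAt (D n) D' s ∧ |D' - S n s| ≤ C * (n:ℝ)^(-(1/2) + 2 * ε)) ∧
      (∃ S' : ℝ, HasDerivAt (S n) S' s ∧ |S'| ≤ C * (n:ℝ)^(1/4 + 3 * ε)) ∧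
      |c s - D n s| ≤ C * (n:ℝ)^(-(5/4) + ε)) {n : ℕ} (hn : n0 ≤ n) {s : ℝ}
    (hs : |s| ≤ κ * (n:ℝ)^(-(3/4) - ε)) :
    |c s - c 0 - S n 0 * s| ≤ C * (2 + κ + κ^2) * (n:ℝ)^(-(5/4) + ε) := by
  have hx : (0:ℝ) < n := by
    have : 0 < n := by omega
    exact_mod_cast this
  set x : ℝ := (n:ℝ) with hxd
  set t : ℝ := |s| with ht
  have ht0 : 0 ≤ t := abs_nonneg _
  have hmem : ∀ u ∈ Set.Icc (-t) t, |u| ≤ κ * x^(-(3/4) - ε) := by
    intro u hu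
    exact (abs_le.mpr hu).trans hs
  have h0m : (0:ℝ) ∈ Set.Icc (-t) t := ⟨by linarith, ht0⟩
  have hsm : s ∈ Set.Icc (-t) t := abs_le.mp le_rfl
  have p1 : 0 < x^(-(1/2) + 2 * ε) := Real.rpow_pos_of_pos hx _
  have p2 : 0 < x^(1/4 + 3 * ε) := Real.rpow_pos_of_pos hx _
  have p3 : 0 < x^(-(3/4) - ε) := Real.rpow_pos_of_pos hx _
  have p4 : 0 < x^(-(5/4) + ε) := Real.rpow_pos_of_pos hx _
  -- the function S
  have hS : ∀ u ∈ Set.Icc (-t) t, |S n u - S n 0| ≤ C * x^(1/4 + 3 * ε) * t := by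
    intro u hu
    have k := (convex_Icc (-t) t).norm_image_sub_le_of_norm_deriv_le (f := S n)
      (C := C * x^(1/4 + 3 * ε)) (fun v hv => by
        obtain ⟨-, ⟨S', hS', -⟩, -⟩ := h n hn v (hmem v hv)
        exact hS'.differentiableAt) (fun v hv => by
        obtain ⟨-, ⟨S', hS', hb⟩, -⟩ := h n hn v (hmem v hv)
        rw [hS'.deriv]; exact hb) h0m hu
    rw [Real.norm_eq_abs, Real.norm_eq_abs, sub_zero] at k
    refine k.trans (mul_le_mul_of_nonneg_left (abs_le.mpr hu) (by positivity))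
  have hD := (convex_Icc (-t) t).norm_image_sub_le_of_norm_deriv_le
    (f := fun u => D n u - S n 0 * u)
    (C := C * x^(-(1/2) + 2 * ε) + C * x^(1/4 + 3 * ε) * t) (fun v hv => by
      obtain ⟨⟨D', hD', -⟩, -, -⟩ := h n hn v (hmem v hv)
      exact (hD'.sub ((hasDerivAt_id v).const_mul (S n 0))).differentiableAt) (fun v hv => by
      obtain ⟨⟨D', hD', hb⟩, -, -⟩ := h n hn v (hmem v hv)
      have e : deriv (fun u => D n u - S n 0 * u) v = D' - S n 0 * 1 :=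
        (hD'.sub ((hasDerivAt_id v).const_mul (S n 0))).deriv
      rw [e, Real.norm_eq_abs]
      have e2 : D' - S n 0 * 1 = (D' - S n v) + (S n v - S n 0) := by ring
      rw [e2]
      exact (abs_add_le _ _).trans (add_le_add hb (hS v hv))) h0m hsm
  simp only [Real.norm_eq_abs, sub_zero, mul_zero] at hD
  rw [← ht] at hD
  obtain ⟨-, -, b1⟩ := h n hn s hs
  obtain ⟨-, -, b2⟩ := h n hn 0 (hmem 0 h0m)
  have key : c s - c 0 - S n 0 * s = (c s - D n s) - (c 0 - D n 0) +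
      (D n s - S n 0 * s - D n 0) := by ring
  rw [key]
  have e1 : x^(-(1/2) + 2 * ε) * x^(-(3/4) - ε) = x^(-(5/4) + ε) := by
    rw [← Real.rpow_add hx]; congr 1; ring
  have e2 : x^(1/4 + 3 * ε) * (x^(-(3/4) - ε) * x^(-(3/4) - ε)) = x^(-(5/4) + ε) := by
    rw [← Real.rpow_add hx, ← Real.rpow_add hx]; congr 1; ring
  have b3 : (C * x^(-(1/2) + 2 * ε) + C * x^(1/4 + 3 * ε) * t) * t ≤
      C * (κ + κ^2) * x^(-(5/4) + ε) := by
    calc (C * x^(-(1/2) + 2 * ε) + C * x^(1/4 + 3 * ε) * t) * t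
        ≤ (C * x^(-(1/2) + 2 * ε) + C * x^(1/4 + 3 * ε) * (κ * x^(-(3/4) - ε))) *
          (κ * x^(-(3/4) - ε)) := by gcongr
      _ = C * κ * (x^(-(1/2) + 2 * ε) * x^(-(3/4) - ε)) +
          C * κ^2 * (x^(1/4 + 3 * ε) * (x^(-(3/4) - ε) * x^(-(3/4) - ε))) := by ring
      _ = C * (κ + κ^2) * x^(-(5/4) + ε) := by rw [e1, e2]; ring
  calc |(c s - D n s) - (c 0 - D n 0) + (D n s - S n 0 * s - D n 0)|
      ≤ |(c s - D n s) - (c 0 - D n 0)| + |D n s - S n 0 * s - D n 0| := abs_add_le _ _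
    _ ≤ (|c s - D n s| + |c 0 - D n 0|) + |D n s - S n 0 * s - D n 0| :=
        add_le_add (abs_sub _ _) le_rfl
    _ ≤ (C * x^(-(5/4) + ε) + C * x^(-(5/4) + ε)) + C * (κ + κ^2) * x^(-(5/4) + ε) :=
        add_le_add (add_le_add b1 b2) (hD.trans b3)
    _ = C * (2 + κ + κ^2) * x^(-(5/4) + ε) := by ring

/-- G1 -/
theorem expand_abs {D S : ℕ → ℝ → ℝ} {c : ℝ → ℝ} {κ C ε : ℝ} {n0 : ℕ} (hκ : 0 < κ)
    (hC : 0 < C) (hε : 0 < ε) (hε1 : ε ≤ 1/40) (hn0 : 1 ≤ n0)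
    (h : ∀ n : ℕ, n0 ≤ n → ∀ s : ℝ, |s| ≤ κ * (n:ℝ)^(-(3/4) - ε) →
      (∃ D' : ℝ, HasDerivAt (D n) D' s ∧ |D' - S n s| ≤ C * (n:ℝ)^(-(1/2) + 2 * ε)) ∧
      (∃ S' : ℝ, HasDerivAt (S n) S' s ∧ |S'| ≤ C * (n:ℝ)^(1/4 + 3 * ε)) ∧
      |c s - D n s| ≤ C * (n:ℝ)^(-(5/4) + ε)) :
    ∃ lam C' h0 : ℝ, 0 < C' ∧ 0 < h0 ∧ ∀ s : ℝ, |s| ≤ h0 →
      |c s - c 0 - lam * s| ≤ C' * |s|^(5/3 - 10 * ε) := by
  have hn0r : (1:ℝ) ≤ n0 := by exact_mod_cast hn0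
  have hn0p : (0:ℝ) < n0 := by linarith
  set C3 : ℝ := C * (2 + κ + κ^2) with hC3
  have hC3p : 0 < C3 := by positivity
  have step : ∀ n : ℕ, n0 ≤ n → ∀ s : ℝ, |s| ≤ κ * (n:ℝ)^(-(3/4) - ε) →
      |c s - c 0 - S n 0 * s| ≤ C3 * (n:ℝ)^(-(5/4) + ε) :=
    fun n hn s hs => g1_step hκ hC hn0 h hn hs
  -- dyadic scales
  set N : ℕ → ℕ := fun j => n0 * 2^j with hN
  have hNr : ∀ j, ((N j : ℕ) : ℝ) = n0 * 2^j := by intro j; simp [hN]
  have hNp : ∀ j, (0:ℝ) < (N j : ℕ) := by intro j; rw [hNr]; positivity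
  have hNge : ∀ j, n0 ≤ N j := fun j => Nat.le_mul_of_pos_right _ (by positivity)
  have hNs : ∀ j, ((N (j+1) : ℕ) : ℝ) = 2 * (N j : ℕ) := by
    intro j; rw [hNr, hNr]; ring
  set w : ℕ → ℝ := fun j => κ * ((N j : ℕ) : ℝ)^(-(3/4) - ε) with hw
  have hwp : ∀ j, 0 < w j := by
    intro j
    have := Real.rpow_pos_of_pos (hNp j) (-(3/4) - ε)
    simp only [hw]; positivity
  have hws : ∀ j, w (j+1) = (2:ℝ)^(-(3/4) - ε) * w j := by
    intro j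
    simp only [hw]
    rw [hNs, Real.mul_rpow (by norm_num) (hNp j).le]; ring
  have h2a : (2:ℝ)^(-(3/4) - ε) ≤ 1 := by
    apply Real.rpow_le_one_of_one_le_of_nonpos (by norm_num) (by linarith)
  have hwmono : ∀ j, w (j+1) ≤ w j := by
    intro j; rw [hws]
    calc (2:ℝ)^(-(3/4) - ε) * w j ≤ 1 * w j := mul_le_mul_of_nonneg_right h2a (hwp j).le
      _ = w j := one_mul _
  set ρ : ℝ := (2:ℝ)^(-(1/2) + 2 * ε) with hρ
  have hρ0 : 0 < ρ := Real.rpow_pos_of_pos (by norm_num) _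
  have hρ1 : ρ < 1 := Real.rpow_lt_one_of_one_lt_of_neg (by norm_num) (by linarith)
  set C6 : ℝ := 2 * C3 * (2:ℝ)^(3/4 + ε) / κ with hC6
  have hC6p : 0 < C6 := by
    have := Real.rpow_pos_of_pos (show (0:ℝ) < 2 by norm_num) (3/4 + ε)
    positivity
  have hdiff : ∀ j, |S (N j) 0 - S (N (j+1)) 0| ≤
      C6 * ((N j : ℕ) : ℝ)^(-(1/2) + 2 * ε) := by
    intro j
    have hsw : |w (j+1)| = w (j+1) := abs_of_pos (hwp _)
    have k1 := step (N j) (hNge j) (w (j+1)) (by rw [hsw]; exact hwmono j)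
    have k2 := step (N (j+1)) (hNge (j+1)) (w (j+1)) (by rw [hsw])
    have hx := hNp j
    have k3 : ((N (j+1) : ℕ) : ℝ)^(-(5/4) + ε) ≤ ((N j : ℕ) : ℝ)^(-(5/4) + ε) := by
      apply Real.rpow_le_rpow_of_nonpos hx
      · rw [hNs]; linarith
      · linarith
    have k4 : |S (N j) 0 - S (N (j+1)) 0| * w (j+1) ≤
        2 * C3 * ((N j : ℕ) : ℝ)^(-(5/4) + ε) := by
      calc |S (N j) 0 - S (N (j+1)) 0| * w (j+1)
          = |(S (N j) 0 - S (N (j+1)) 0) * w (j+1)| := by rw [abs_mul, hsw]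
        _ = |(c (w (j+1)) - c 0 - S (N (j+1)) 0 * w (j+1)) -
              (c (w (j+1)) - c 0 - S (N j) 0 * w (j+1))| := by congr 1; ring
        _ ≤ |c (w (j+1)) - c 0 - S (N (j+1)) 0 * w (j+1)| +
              |c (w (j+1)) - c 0 - S (N j) 0 * w (j+1)| := abs_sub _ _
        _ ≤ C3 * ((N (j+1) : ℕ) : ℝ)^(-(5/4) + ε) + C3 * ((N j : ℕ) : ℝ)^(-(5/4) + ε) :=
            add_le_add k2 k1
        _ ≤ C3 * ((N j : ℕ) : ℝ)^(-(5/4) + ε) + C3 * ((N j : ℕ) : ℝ)^(-(5/4) + ε) := by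
            gcongr
        _ = 2 * C3 * ((N j : ℕ) : ℝ)^(-(5/4) + ε) := by ring
    have k5 : C6 * ((N j : ℕ) : ℝ)^(-(1/2) + 2 * ε) * w (j+1) =
        2 * C3 * ((N j : ℕ) : ℝ)^(-(5/4) + ε) := by
      rw [hws]
      simp only [hw, hC6]
      have e1 : (2:ℝ)^(3/4 + ε) * (2:ℝ)^(-(3/4) - ε) = 1 := by
        rw [← Real.rpow_add (by norm_num)]
        have : (3/4 + ε + (-(3/4) - ε) : ℝ) = 0 := by ring
        rw [this, Real.rpow_zero]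
      have e2 : ((N j : ℕ) : ℝ)^(-(1/2) + 2 * ε) * ((N j : ℕ) : ℝ)^(-(3/4) - ε) =
          ((N j : ℕ) : ℝ)^(-(5/4) + ε) := by
        rw [← Real.rpow_add hx]; congr 1; ring
      calc 2 * C3 * (2:ℝ)^(3/4 + ε) / κ * ((N j : ℕ) : ℝ)^(-(1/2) + 2 * ε) *
            ((2:ℝ)^(-(3/4) - ε) * (κ * ((N j : ℕ) : ℝ)^(-(3/4) - ε)))
          = 2 * C3 * ((2:ℝ)^(3/4 + ε) * (2:ℝ)^(-(3/4) - ε)) * (κ / κ) *
            (((N j : ℕ) : ℝ)^(-(1/2) + 2 * ε) * ((N j : ℕ) : ℝ)^(-(3/4) - ε)) := by ring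
        _ = _ := by rw [e1, e2, div_self hκ.ne']; ring
    rw [← k5] at k4
    exact le_of_mul_le_mul_right k4 (hwp _)
  set K : ℝ := C6 * (n0:ℝ)^(-(1/2) + 2 * ε) with hK
  have hNpow : ∀ j, ((N j : ℕ) : ℝ)^(-(1/2) + 2 * ε) = (n0:ℝ)^(-(1/2) + 2 * ε) * ρ^j := by
    intro j
    rw [hNr, Real.mul_rpow hn0p.le (by positivity), hρ, ← Real.rpow_natCast, ← Real.rpow_mul
      (by norm_num), ← Real.rpow_natCast, ← Real.rpow_mul (by norm_num), mul_comm (j:ℝ)]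
  have hgeo : ∀ j, dist (S (N j) 0) (S (N (j+1)) 0) ≤ K * ρ^j := by
    intro j
    rw [Real.dist_eq]
    refine (hdiff j).trans ?_
    rw [hNpow, hK]
    exact le_of_eq (by ring)
  have hcau := cauchySeq_of_le_geometric ρ K hρ1 hgeo
  obtain ⟨lam, hlam⟩ := cauchySeq_tendsto_of_complete hcau
  have hlamj : ∀ j, |S (N j) 0 - lam| ≤ C6 / (1 - ρ) * ((N j : ℕ) : ℝ)^(-(1/2) + 2 * ε) := by
    intro j
    have := dist_le_of_le_geometric_of_tendsto ρ K hρ1 hgeo hlam j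
    rw [Real.dist_eq] at this
    refine this.trans (le_of_eq ?_)
    rw [hNpow, hK]; ring
  set C4 : ℝ := C3 + C6 / (1 - ρ) * κ with hC4
  have h1ρ : 0 < 1 - ρ := by linarith
  have hC4p : 0 < C4 := by positivity
  have hall : ∀ j, ∀ s : ℝ, |s| ≤ w j →
      |c s - c 0 - lam * s| ≤ C4 * ((N j : ℕ) : ℝ)^(-(5/4) + ε) := by
    intro j s hs
    have k1 := step (N j) (hNge j) s hs
    have hx := hNp j
    have e2 : ((N j : ℕ) : ℝ)^(-(1/2) + 2 * ε) * ((N j : ℕ) : ℝ)^(-(3/4) - ε) =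
        ((N j : ℕ) : ℝ)^(-(5/4) + ε) := by
      rw [← Real.rpow_add hx]; congr 1; ring
    have q1 : 0 < ((N j : ℕ) : ℝ)^(-(1/2) + 2 * ε) := Real.rpow_pos_of_pos hx _
    have k2 : |S (N j) 0 * s - lam * s| ≤
        C6 / (1 - ρ) * κ * ((N j : ℕ) : ℝ)^(-(5/4) + ε) := by
      rw [← sub_mul, abs_mul]
      calc |S (N j) 0 - lam| * |s| ≤ (C6 / (1 - ρ) * ((N j : ℕ) : ℝ)^(-(1/2) + 2 * ε)) *
            (κ * ((N j : ℕ) : ℝ)^(-(3/4) - ε)) :=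
            mul_le_mul (hlamj j) hs (abs_nonneg _) (by positivity)
        _ = C6 / (1 - ρ) * κ * (((N j : ℕ) : ℝ)^(-(1/2) + 2 * ε) *
            ((N j : ℕ) : ℝ)^(-(3/4) - ε)) := by ring
        _ = _ := by rw [e2]
    have e3 : c s - c 0 - lam * s = (c s - c 0 - S (N j) 0 * s) + (S (N j) 0 * s - lam * s) := by
      ring
    rw [e3]
    refine (abs_add_le _ _).trans ((add_le_add k1 k2).trans (le_of_eq ?_))
    rw [hC4]; ring
  -- the exponents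
  have ha : 0 < 3/4 + ε := by linarith
  set θ : ℝ := (5/4 - ε) / (3/4 + ε) with hθ
  have hθ1 : 5/3 - 10 * ε ≤ θ := by
    rw [hθ, le_div_iff₀ ha]
    nlinarith
  have hθ0 : 0 < 5/3 - 10 * ε := by linarith
  set C7 : ℝ := ((2:ℝ)^(3/4 + ε) / κ)^θ with hC7
  have h2p : 0 < (2:ℝ)^(3/4 + ε) := Real.rpow_pos_of_pos (by norm_num) _
  have hC7p : 0 < C7 := Real.rpow_pos_of_pos (by positivity) _
  refine ⟨lam, C4 * C7, min (w 0) 1, by positivity, lt_min (hwp 0) one_pos, ?_⟩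
  intro s hs
  have hs1 : |s| ≤ 1 := hs.trans (min_le_right _ _)
  have hs0 : |s| ≤ w 0 := hs.trans (min_le_left _ _)
  rcases eq_or_ne s 0 with rfl | hne
  · have e0 : c 0 - c 0 - lam * 0 = 0 := by ring
    rw [e0, abs_zero]
    positivity
  have hsp : 0 < |s| := abs_pos.mpr hne
  -- the scale
  have hwlim : Filter.Tendsto w Filter.atTop (nhds 0) := by
    have e : w = fun j => w 0 * ((2:ℝ)^(-(3/4) - ε))^j := by
      funext j
      induction j with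
      | zero => simp
      | succ j ih => rw [hws, ih]; ring
    rw [e]
    have : Filter.Tendsto (fun j : ℕ => ((2:ℝ)^(-(3/4) - ε))^j) Filter.atTop (nhds 0) :=
      tendsto_pow_atTop_nhds_zero_of_lt_one (Real.rpow_nonneg (by norm_num) _)
        (Real.rpow_lt_one_of_one_lt_of_neg (by norm_num) (by linarith))
    simpa using this.const_mul (w 0)
  have hex : ∃ j, w j < |s| := (hwlim.eventually (gt_mem_nhds hsp)).exists
  obtain ⟨j, hj1, hj2⟩ : ∃ j, |s| ≤ w j ∧ w (j+1) < |s| := by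
    classical
    have hm := Nat.find_spec hex
    have hm0 : Nat.find hex ≠ 0 := by
      intro h0'
      rw [h0'] at hm
      exact absurd hm (not_lt.mpr hs0)
    obtain ⟨m, hmm⟩ := Nat.exists_eq_succ_of_ne_zero hm0
    refine ⟨m, ?_, ?_⟩
    · exact not_lt.mp (Nat.find_min hex (by omega))
    · rw [hmm] at hm; exact hm
  refine (hall j s hj1).trans ?_
  rw [mul_assoc]
  apply mul_le_mul_of_nonneg_left _ hC4p.le
  have hx := hNp j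
  -- x^(-(3/4+ε)) ≤ 2^(3/4+ε)/κ * |s|
  have e4 : ((N j : ℕ) : ℝ)^(-(3/4) - ε) ≤ (2:ℝ)^(3/4 + ε) / κ * |s| := by
    have e1 : (2:ℝ)^(3/4 + ε) * (2:ℝ)^(-(3/4) - ε) = 1 := by
      rw [← Real.rpow_add (by norm_num)]
      have : (3/4 + ε + (-(3/4) - ε) : ℝ) = 0 := by ring
      rw [this, Real.rpow_zero]
    have e5 : (2:ℝ)^(3/4 + ε) / κ * w (j+1) = ((N j : ℕ) : ℝ)^(-(3/4) - ε) := by
      rw [hws]
      simp only [hw]
      calc (2:ℝ)^(3/4 + ε) / κ * ((2:ℝ)^(-(3/4) - ε) * (κ * ((N j : ℕ) : ℝ)^(-(3/4) - ε)))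
          = ((2:ℝ)^(3/4 + ε) * (2:ℝ)^(-(3/4) - ε)) * (κ / κ) *
            ((N j : ℕ) : ℝ)^(-(3/4) - ε) := by ring
        _ = _ := by rw [e1, div_self hκ.ne']; ring
    rw [← e5]
    apply mul_le_mul_of_nonneg_left hj2.le
    positivity
  have e6 : ((N j : ℕ) : ℝ)^(-(5/4) + ε) = (((N j : ℕ) : ℝ)^(-(3/4) - ε))^θ := by
    rw [← Real.rpow_mul hx.le]
    congr 1
    rw [hθ]
    field_simp
    ring
  rw [e6]
  have hθp : 0 ≤ θ := by linarith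
  calc (((N j : ℕ) : ℝ)^(-(3/4) - ε))^θ ≤ ((2:ℝ)^(3/4 + ε) / κ * |s|)^θ :=
        Real.rpow_le_rpow (Real.rpow_nonneg hx.le _) e4 hθp
    _ = C7 * |s|^θ := by rw [Real.mul_rpow (by positivity) hsp.le, hC7]
    _ ≤ C7 * |s|^(5/3 - 10 * ε) := by
        apply mul_le_mul_of_nonneg_left _ hC7p.le
        exact Real.rpow_le_rpow_of_exponent_ge hsp hs1 hθ1

end H31A
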