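import Pool.Agent.H31R4.Alp.E1
import Pool.Agent.H31R4.Alp.F1
import Pool.Agent.H31R4.Alp.G1

/-! Task G2: expansion of cc at 1/2. -/

set_option maxHeartbeats 400000

namespace H31A

open H974 H12S H973N Finset

theorem g2_shift {f : ℝ → ℝ} {f' s : ℝ} (h : HasDerivAt f f' (1/2 + s)) :
    HasDerivAt (fun x => f (1/2 + x)) f' s :=
  HasDerivAt.comp_const_add (1/2) s h

/-- G2 -/
theorem cc_expand (hN : Near) (β : Bool) {ε : ℝ} (h0 : 0 < ε) (h1 : ε ≤ 1/40) :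
    ∃ lam C' h0 : ℝ, 0 < C' ∧ 0 < h0 ∧ ∀ s : ℝ, |s| ≤ h0 →
      |cc β (1/2 + s) - cc β (1/2) - lam * s| ≤ C' * |s|^(5/3 - 10 * ε) := by
  obtain ⟨κ, C, n0, hκ, hC, hn0, hmain⟩ := main_est hN h0 h1
  have key := expand_abs (D := fun n s => Dn β n (1/2 + s)) (S := fun n s => Sn β n (1/2 + s))
    (c := fun s => cc β (1/2 + s)) hκ hC h0 h1 hn0 (by
      intro n hn s hs
      obtain ⟨⟨D', hD, hD'⟩, ⟨S', hS, hS'⟩, hq0, hq1, ha⟩ := hmain n hn β (1/2 + s) (by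
        rw [add_sub_cancel_left]
        exact hs)
      refine ⟨⟨D', g2_shift hD, hD'⟩, ⟨S', g2_shift hS, hS'⟩, ?_⟩
      have hb := cc_bounds hq0 hq1 β (hn0.trans hn)
      rw [abs_le]
      constructor
      · have : 0 ≤ cc β (1/2 + s) - Dn β n (1/2 + s) := by linarith [hb.1]
        have h3 : 0 ≤ C * (n:ℝ)^(-(5/4) + ε) :=
          mul_nonneg hC.le (Real.rpow_nonneg (Nat.cast_nonneg n) _)
        linarith
      · exact hb.2.1.trans ha)
  simpa using key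

end H31A
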