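import Pool.Agent.H31R4.Alp.Defs

/-! Task H1: derivative of the expected number of clusters. -/

set_option maxHeartbeats 400000

namespace H31A

open H974 H12S H973N Finset

theorem h1_mem_VK {n : ℕ} {e : Edg} (he : e ∈ BK n) : src e ∈ VK n ∧ tgt e ∈ VK n := by
  obtain ⟨x, y, b⟩ := e
  unfold BK RE at he
  unfold VK
  simp only [Finset.mem_filter, Finset.mem_product, Finset.mem_Icc, Finset.mem_univ,
    and_true] at he
  obtain ⟨⟨h1, h2⟩, h3⟩ := he
  cases b
  · simp only [Bool.false_eq_true, if_false] at h3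
    simp only [src_mk, tgt_false, Finset.mem_product, Finset.mem_Icc]
    omega
  · simp only [if_true] at h3
    simp only [src_mk, tgt_true, Finset.mem_product, Finset.mem_Icc]
    omega

theorem h1_Cn (u v : Vtx) (F : Set Edg) : Cn {u} {v} F ↔ GR src tgt F u v := by
  unfold Cn
  constructor
  · rintro ⟨a, ha, b, hb, h⟩
    rw [Set.mem_singleton_iff] at ha hb
    subst ha; subst hb
    exact h
  · intro h
    exact ⟨u, rfl, v, rfl, h⟩

theorem h1_diff {n : ℕ} {e : Edg} (he : e ∈ BK n) (F : Finset Edg) :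
    (NC src tgt (VK n) Set.univ (↑(insert e F) : Set Edg) : ℝ) -
      (NC src tgt (VK n) Set.univ (↑F : Set Edg) : ℝ) =
      (-1) * ind (¬ Cn {src e} {tgt e} (↑F : Set Edg)) := by
  have hm := h1_mem_VK he
  have h := NC_insert (s := src) (t := tgt) (K := VK n) (B := Set.univ) (F := (↑F : Set Edg))
    (e := e) hm.1 hm.2
  have h2 : ind (RB src tgt Set.univ (↑F : Set Edg) (src e) ∧
      RB src tgt Set.univ (↑F : Set Edg) (tgt e) ∧ ¬ GR src tgt (↑F : Set Edg) (src e) (tgt e)) =
      ind (¬ Cn {src e} {tgt e} (↑F : Set Edg)) := by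
    apply ind_congr
    rw [h1_Cn]
    constructor
    · rintro ⟨-, -, h⟩; exact h
    · intro h
      exact ⟨⟨_, Set.mem_univ _, GR.refl _ _⟩, ⟨_, Set.mem_univ _, GR.refl _ _⟩, h⟩
  rw [h2] at h
  rw [Finset.coe_insert]
  linarith

/-- H1 -/
theorem EN_deriv (n : ℕ) (p : ℝ) : HasDerivAt (EN n)
    (-∑ e ∈ BK n, PQ p ((BK n).erase e) (fun F => ¬ Cn {src e} {tgt e} (↑F : Set Edg))) p := by
  have h := Ex_hasDerivAt (fun q (_ : Edg) => q) (fun _ => (1 : ℝ)) p
    (fun _ => hasDerivAt_id' p) (BK n)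
    (fun F => (NC src tgt (VK n) Set.univ (↑F : Set Edg) : ℝ))
  have h2 : ∑ e ∈ BK n, (1 : ℝ) * Ex (fun _ : Edg => p) ((BK n).erase e) (fun F =>
      (NC src tgt (VK n) Set.univ (↑(insert e F) : Set Edg) : ℝ) -
        (NC src tgt (VK n) Set.univ (↑F : Set Edg) : ℝ)) =
      -∑ e ∈ BK n, PQ p ((BK n).erase e) (fun F => ¬ Cn {src e} {tgt e} (↑F : Set Edg)) := by
    rw [← Finset.sum_neg_distrib]
    apply Finset.sum_congr rfl
    intro e he
    rw [one_mul]
    have h3 : Ex (fun _ : Edg => p) ((BK n).erase e) (fun F =>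
        (NC src tgt (VK n) Set.univ (↑(insert e F) : Set Edg) : ℝ) -
        (NC src tgt (VK n) Set.univ (↑F : Set Edg) : ℝ)) =
        Ex (fun _ : Edg => p) ((BK n).erase e) (fun F =>
          (-1) * ind (¬ Cn {src e} {tgt e} (↑F : Set Edg))) :=
      Ex_congr fun F _ => h1_diff he F
    rw [h3, Ex_mul_left]
    unfold PQ Pr
    ring
  rw [h2] at h
  exact h

theorem h1_Ex_zero {E : Type*} [DecidableEq E] (S : Finset E) (f : Finset E → ℝ) :
    Ex (fun _ => (0 : ℝ)) S f = f ∅ := by
  induction S using Finset.induction_on generalizing f with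
  | empty => rw [Ex_empty]
  | insert a S ha ih => rw [Ex_insert _ ha, ih, ih]; ring

theorem h1_GR_empty {u v : Vtx} (h : GR src tgt (∅ : Set Edg) u v) : u = v := by
  induction h with
  | refl => rfl
  | tail _ hs _ =>
    obtain ⟨e, he, -⟩ := hs
    exact absurd he (Set.notMem_empty e)

/-- H1 -/
theorem EN_zero (n : ℕ) : EN n 0 = (n:ℝ)^2 := by
  unfold EN
  rw [h1_Ex_zero, Finset.coe_empty]
  have hclu : ∀ x : Vtx, clu src tgt (∅ : Set Edg) x = {x} := by
    intro x
    ext y
    unfold clu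
    constructor
    · intro h
      exact (h1_GR_empty h).symm
    · intro h
      rw [Set.mem_singleton_iff] at h
      subst h
      exact GR.refl _ _
  have hcard : NC src tgt (VK n) Set.univ (∅ : Set Edg) = (VK n).card := by
    classical
    unfold NC
    have h1 : TC src tgt (VK n) Set.univ (∅ : Set Edg) = (VK n).image fun x : Vtx => ({x} : Set Vtx) := by
      ext C
      rw [mem_TC, Finset.mem_image]
      constructor
      · rintro ⟨x, hx, -, h⟩
        exact ⟨x, hx, by rw [← h, hclu]⟩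
      · rintro ⟨x, hx, h⟩
        exact ⟨x, hx, ⟨x, Set.mem_univ _, GR.refl _ _⟩, by rw [hclu, h]⟩
    rw [h1, Finset.card_image_of_injective _ Set.singleton_injective]
  rw [hcard]
  unfold VK
  rw [Finset.card_product, Int.card_Icc]
  have h2 : ((n : ℤ) - 1 + 1 - 0).toNat = n := by
    have : (n : ℤ) - 1 + 1 - 0 = n := by ring
    rw [this, Int.toNat_natCast]
  rw [h2]
  push_cast
  ring

end H31A
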