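import Pool.Agent.H31R4.Alp.F1

/-! Task H2: boxes. -/

set_option maxHeartbeats 400000

namespace H31A

open H974 H12S H973N Finset

theorem h2_cn_iff {u v : Vtx} {F : Set Edg} : Cn {u} {v} F ↔ Reach F u v := by
  constructor
  · rintro ⟨a, ha, b, hb, h⟩
    rw [Set.mem_singleton_iff] at ha hb
    rw [← ha, ← hb]; exact h
  · intro h
    exact ⟨u, rfl, v, rfl, h⟩

theorem h2_trl (x y : ℤ) (b : Bool) (m : ℕ) (p : ℝ) :
    PQ p ((blk (x, y) m).erase (x, y, b))
      (fun F => Cn {src (x, y, b)} {tgt (x, y, b)} (↑F : Set Edg)) = Dn b m p := by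
  have e2 : (blk (x, y) m).erase (x, y, b) = (trl x y).mp ((boxE m).erase (e0 b)) := by
    have e3 : blk (x, y) m = (trl x y).mp (boxE m) := by
      unfold blk boxE
      rw [trl_RE]
      congr 1 <;> simp only <;> ring
    ext g
    rw [LSym.mem_mp, Finset.mem_erase, Finset.mem_erase, e3, LSym.mem_mp]
    have : g ≠ (x, y, b) ↔ (trl x y).φ.symm g ≠ e0 b := by
      rw [not_iff_not, Equiv.symm_apply_eq]
      have : (trl x y).φ (e0 b) = (x, y, b) := by
        simp [trl, e0]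
      rw [this]
    rw [this]
  unfold Dn
  rw [e2]
  unfold PQ
  rw [LSym.pr]
  refine Pr_congr fun F _ => ?_
  rw [h2_cn_iff, h2_cn_iff, LSym.coe_mp]
  have hs : src (x, y, b) = (trl x y).ψ (src (e0 b)) := by
    simp [trl, e0]
  have ht : tgt (x, y, b) = (trl x y).ψ (tgt (e0 b)) := by
    cases b
    · simp [trl, e0]; ring
    · simp [trl, e0]; ring
  rw [hs, ht]
  exact (trl x y).reach_iff

/-- H2 -/
theorem co_box {p : ℝ} (h0 : 0 ≤ p) (h1 : p ≤ 1) {n : ℕ} {e : Edg} (he : e ∈ BK n) :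
    PQ p ((BK n).erase e) (fun F => Cn {src e} {tgt e} (↑F : Set Edg)) ≤ cc e.2.2 p ∧
      ∀ m : ℕ, blk (bp e) m ⊆ BK n →
        Dn e.2.2 m p ≤ PQ p ((BK n).erase e) (fun F => Cn {src e} {tgt e} (↑F : Set Edg)) := by
  obtain ⟨x, y, b⟩ := e
  have hxy : 0 ≤ x ∧ x ≤ (n:ℤ) - 1 ∧ 0 ≤ y ∧ y ≤ (n:ℤ) - 1 := by
    unfold BK at he
    cases b
    · rw [mem_RE_false] at he; omega
    · rw [mem_RE_true] at he; omega
  obtain ⟨x0, x1, y0, y1⟩ := hxy
  have hn : 1 ≤ n := by omega
  constructor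
  · have hsub : BK n ⊆ blk (x, y) n := by
      rintro ⟨u, v, c⟩ hg
      unfold BK at hg
      unfold blk
      cases c
      · rw [mem_RE_false] at hg ⊢
        simp only
        omega
      · rw [mem_RE_true] at hg ⊢
        simp only
        omega
    have k1 : PQ p ((BK n).erase (x, y, b))
        (fun F => Cn {src (x, y, b)} {tgt (x, y, b)} (↑F : Set Edg)) ≤
        PQ p ((blk (x, y) n).erase (x, y, b))
        (fun F => Cn {src (x, y, b)} {tgt (x, y, b)} (↑F : Set Edg)) := by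
      refine Pr_mono_set (okq h0 h1) (Finset.erase_subset_erase _ hsub) ?_
      intro F G hFG _ hF
      exact f1_Cn_mono (by exact_mod_cast hFG) hF
    rw [h2_trl] at k1
    exact k1.trans (cc_bounds h0 h1 b hn).1
  · intro m hm
    rw [← h2_trl x y b m p]
    refine Pr_mono_set (okq h0 h1) (Finset.erase_subset_erase _ hm) ?_
    intro F G hFG _ hF
    exact f1_Cn_mono (by exact_mod_cast hFG) hF

end H31A
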