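import Pool.Agent.H31R4.Alp.H2
import Pool.Agent.H31R4.Alp.F2

/-! Task H3: uniform convergence of the derivative. -/

set_option maxHeartbeats 400000

namespace H31A

open H974 H12S H973N Finset

/-- all triples over the box -/
noncomputable def h3_I (n : ℕ) : Finset Edg :=
  Icc (0:ℤ) ((n:ℤ) - 1) ×ˢ (Icc (0:ℤ) ((n:ℤ) - 1) ×ˢ (univ : Finset Bool))

theorem h3_card (n : ℕ) : (Icc (0:ℤ) ((n:ℤ) - 1)).card = n := by
  rw [Int.card_Icc]; omega

theorem h3_cardI (n : ℕ) : (h3_I n).card = 2 * n ^ 2 := by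
  unfold h3_I
  rw [card_product, card_product, h3_card, card_univ, Fintype.card_bool]
  ring

theorem h3_const (n : ℕ) (t : Bool → ℝ) :
    ∑ e ∈ h3_I n, t e.2.2 = (n:ℝ)^2 * (t true + t false) := by
  unfold h3_I
  rw [sum_product]
  simp only [sum_product, Fintype.sum_bool, sum_const, h3_card, nsmul_eq_mul]
  ring

/-- base points near the boundary -/
def h3_bad (n m : ℕ) (e : Edg) : Prop :=
  e.1 < m ∨ (n:ℤ) - 1 - m < e.1 ∨ e.2.1 < m ∨ (n:ℤ) - 1 - m < e.2.1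

open Classical in
theorem h3_badcard (n m : ℕ) : ((h3_I n).filter (h3_bad n m)).card ≤ 8 * m * n := by
  have hsub : (h3_I n).filter (h3_bad n m) ⊆
      ((Icc (0:ℤ) ((m:ℤ) - 1) ×ˢ (Icc (0:ℤ) ((n:ℤ) - 1) ×ˢ (univ : Finset Bool))) ∪
      (Icc ((n:ℤ) - m) ((n:ℤ) - 1) ×ˢ (Icc (0:ℤ) ((n:ℤ) - 1) ×ˢ (univ : Finset Bool)))) ∪
      ((Icc (0:ℤ) ((n:ℤ) - 1) ×ˢ (Icc (0:ℤ) ((m:ℤ) - 1) ×ˢ (univ : Finset Bool))) ∪
      (Icc (0:ℤ) ((n:ℤ) - 1) ×ˢ (Icc ((n:ℤ) - m) ((n:ℤ) - 1) ×ˢ (univ : Finset Bool)))) := by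
    rintro ⟨x, y, β⟩ h
    simp only [h3_I, h3_bad, mem_filter, mem_product, mem_Icc, mem_univ, and_true] at h
    simp only [mem_union, mem_product, mem_Icc, mem_univ, and_true]
    omega
  have hm : (Icc ((n:ℤ) - m) ((n:ℤ) - 1)).card = m := by rw [Int.card_Icc]; omega
  refine (card_le_card hsub).trans ((card_union_le _ _).trans ?_)
  refine (add_le_add (card_union_le _ _) (card_union_le _ _)).trans ?_
  simp only [card_product, h3_card, hm, card_univ, Fintype.card_bool]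
  apply le_of_eq
  ring

theorem h3_inner {p : ℝ} (h0 : 0 ≤ p) (h1 : p ≤ 1) {n m : ℕ} (hm : 1 ≤ m) {e : Edg}
    (hx : (m:ℤ) ≤ e.1) (hx' : e.1 ≤ (n:ℤ) - 1 - m) (hy : (m:ℤ) ≤ e.2.1)
    (hy' : e.2.1 ≤ (n:ℤ) - 1 - m) :
    e ∈ BK n ∧
    |PQ p ((BK n).erase e) (fun F => ¬ Cn {src e} {tgt e} (↑F : Set Edg)) - (1 - cc e.2.2 p)| ≤
      a4 p m := by
  have he : e ∈ BK n := by
    obtain ⟨x, y, β⟩ := e
    simp only at hx hx' hy hy'
    unfold BK
    cases β
    · rw [mem_RE_false]; omega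
    · rw [mem_RE_true]; omega
  refine ⟨he, ?_⟩
  have hsub : blk (bp e) m ⊆ BK n := by
    obtain ⟨x, y, β⟩ := e
    simp only at hx hx' hy hy'
    rintro ⟨x', y', β'⟩ h
    unfold BK
    unfold blk bp at h
    cases β'
    · simp only [mem_RE_false] at h ⊢; omega
    · simp only [mem_RE_true] at h ⊢; omega
  obtain ⟨c1, c2⟩ := co_box h0 h1 he
  have c3 := c2 m hsub
  obtain ⟨d1, d2, d3, d4⟩ := cc_bounds h0 h1 e.2.2 hm
  have hnot : PQ p ((BK n).erase e) (fun F => ¬ Cn {src e} {tgt e} (↑F : Set Edg)) =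
      1 - PQ p ((BK n).erase e) (fun F => Cn {src e} {tgt e} (↑F : Set Edg)) :=
    Pr_not _ _
  rw [hnot, abs_le]
  constructor
  · linarith
  · linarith

/-- H3 -/
theorem EN_unif : ∀ δ : ℝ, 0 < δ → ∃ N : ℕ, 1 ≤ N ∧ ∀ n : ℕ, N ≤ n → ∀ p : ℝ, 0 ≤ p → p ≤ 1 →
    |(∑ e ∈ BK n, PQ p ((BK n).erase e) (fun F => ¬ Cn {src e} {tgt e} (↑F : Set Edg))) / (n:ℝ)^2
      - ((1 - cc true p) + (1 - cc false p))| ≤ δ := by
  classical
  intro δ hδ
  obtain ⟨m, hm, ha⟩ := a4_unif (δ / 8) (by positivity)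
  refine ⟨max 1 ⌈16 * m / δ⌉₊, le_max_left _ _, fun n hn p h0 h1 => ?_⟩
  have hn1 : 1 ≤ n := (le_max_left _ _).trans hn
  have hn2 : 16 * m / δ ≤ n := Nat.ceil_le.1 ((le_max_right _ _).trans hn)
  have hnR : (0:ℝ) < n := by exact_mod_cast hn1
  have hok : Ok (fun _ : Edg => p) := fun _ => ⟨h0, h1⟩
  set g : Edg → ℝ := fun e => PQ p ((BK n).erase e) (fun F => ¬ Cn {src e} {tgt e} (↑F : Set Edg))
    with hg
  have hg0 : ∀ e, 0 ≤ g e := fun e => Pr_nonneg hok _ _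
  have hg1 : ∀ e, g e ≤ 1 := fun e => Pr_le_one hok _ _
  set t : Bool → ℝ := fun β => 1 - cc β p with ht
  have ht0 : ∀ β, 0 ≤ t β := fun β => by
    have := (cc_bounds h0 h1 β hm).2.2.2
    simp only [ht]; linarith
  have ht1 : ∀ β, t β ≤ 1 := fun β => by
    have := (cc_bounds h0 h1 β hm).2.2.1
    simp only [ht]; linarith
  have hsub : BK n ⊆ h3_I n := by
    unfold BK RE h3_I
    exact filter_subset _ _
  have hS : ∑ e ∈ BK n, g e = ∑ e ∈ h3_I n, (if e ∈ BK n then g e else 0) := by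
    rw [← sum_filter, filter_mem_eq_inter, inter_eq_right.2 hsub]
  have hkey : |∑ e ∈ BK n, g e - (n:ℝ)^2 * (t true + t false)| ≤
      δ / 8 * (2 * (n:ℝ)^2) + 8 * m * n := by
    rw [hS, ← h3_const, ← sum_sub_distrib]
    refine (abs_sum_le_sum_abs _ _).trans ?_
    have hb : ∀ e ∈ h3_I n, |(if e ∈ BK n then g e else 0) - t e.2.2| ≤
        δ / 8 + (if h3_bad n m e then (1:ℝ) else 0) := by
      intro e _
      by_cases hbad : h3_bad n m e
      · rw [if_pos hbad]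
        have h2 : |(if e ∈ BK n then g e else 0) - t e.2.2| ≤ 1 := by
          have h3 := ht0 e.2.2
          have h4 := ht1 e.2.2
          by_cases he : e ∈ BK n
          · rw [if_pos he, abs_le]
            have h5 := hg0 e
            have h6 := hg1 e
            constructor <;> linarith
          · rw [if_neg he, abs_le]
            constructor <;> linarith
        linarith
      · rw [if_neg hbad, add_zero]
        unfold h3_bad at hbad
        push Not at hbad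
        obtain ⟨b1, b2, b3, b4⟩ := hbad
        obtain ⟨he, h2⟩ := h3_inner h0 h1 hm b1 b2 b3 b4
        rw [if_pos he]
        exact h2.trans (ha p h0 h1)
    refine (sum_le_sum hb).trans ?_
    rw [sum_add_distrib, sum_const, h3_cardI, sum_boole, nsmul_eq_mul]
    have h2 : (((h3_I n).filter (h3_bad n m)).card : ℝ) ≤ 8 * m * n := by
      exact_mod_cast h3_badcard n m
    push_cast
    have h3 : 2 * (n:ℝ)^2 * (δ / 8) = δ / 8 * (2 * (n:ℝ)^2) := by ring
    linarith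
  have hn2' : (0:ℝ) < (n:ℝ)^2 := by positivity
  have h5 : (∑ e ∈ BK n, g e) / (n:ℝ)^2 - (t true + t false) =
      (∑ e ∈ BK n, g e - (n:ℝ)^2 * (t true + t false)) / (n:ℝ)^2 := by
    field_simp
  change |(∑ e ∈ BK n, g e) / (n:ℝ)^2 - (t true + t false)| ≤ δ
  rw [h5, abs_div, abs_of_pos hn2', div_le_iff₀ hn2']
  refine hkey.trans ?_
  have h6 : 16 * (m:ℝ) ≤ δ * n := by
    rw [div_le_iff₀ hδ] at hn2
    linarith
  nlinarith

end H31A
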