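import Pool.Agent.H31R4.Alp.H1
import Pool.Agent.H31R4.Alp.H3
import Pool.Agent.H31R4.Alp.F3

/-! Task H4: number of clusters per vertex. -/

set_option maxHeartbeats 400000

namespace H31A

open H974 H12S H973N Finset

/-- The sum of the derivatives. -/
noncomputable def h4_S (n : ℕ) (p : ℝ) : ℝ :=
  ∑ e ∈ BK n, PQ p ((BK n).erase e) (fun F => ¬ Cn {src e} {tgt e} (↑F : Set Edg))

theorem h4_cont (n : ℕ) : Continuous (h4_S n) := by
  unfold h4_S
  exact continuous_finsetSum _ fun e _ => cont_Pr _ _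

theorem h4_EN (n : ℕ) (p : ℝ) : EN n p = (n:ℝ)^2 - ∫ s in (0:ℝ)..p, h4_S n s := by
  have h := intervalIntegral.integral_eq_sub_of_hasDerivAt (a := 0) (b := p)
    (f := EN n) (f' := fun s => -h4_S n s) (fun x _ => EN_deriv n x)
    ((h4_cont n).neg.intervalIntegrable _ _)
  rw [intervalIntegral.integral_neg, EN_zero] at h
  linarith

/-- H4 -/
theorem kp_lim {p : ℝ} (h0 : 0 ≤ p) (h1 : p ≤ 1) :
    Filter.Tendsto (fun n : ℕ => EN n p / (n:ℝ)^2) Filter.atTop (nhds (kp p)) := by
  rw [Metric.tendsto_atTop]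
  intro δ hδ
  obtain ⟨N, hN1, hN⟩ := EN_unif (δ / 2) (by linarith)
  refine ⟨N, fun n hn => ?_⟩
  have hn0 : (0:ℝ) < (n:ℝ)^2 := by
    have : (1:ℝ) ≤ n := by exact_mod_cast hN1.trans hn
    positivity
  have hgc : ContinuousOn (fun s => (1 - cc true s) + (1 - cc false s)) (Set.uIcc 0 p) := by
    rw [Set.uIcc_of_le h0]
    exact ((continuousOn_const.sub (cc_cont true)).add
      (continuousOn_const.sub (cc_cont false))).mono (Set.Icc_subset_Icc le_rfl h1)
  have e1 : EN n p / (n:ℝ)^2 - kp p =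
      ∫ s in (0:ℝ)..p, (((1 - cc true s) + (1 - cc false s)) - h4_S n s / (n:ℝ)^2) := by
    rw [intervalIntegral.integral_sub hgc.intervalIntegrable
      (((h4_cont n).div_const _).intervalIntegrable _ _), intervalIntegral.integral_div, h4_EN, kp,
      sub_div, div_self hn0.ne']
    ring
  rw [Real.dist_eq, e1]
  have hb : ‖∫ s in (0:ℝ)..p, (((1 - cc true s) + (1 - cc false s)) - h4_S n s / (n:ℝ)^2)‖ ≤
      δ / 2 * |p - 0| := by
    apply intervalIntegral.norm_integral_le_of_norm_le_const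
    intro x hx
    rw [Set.uIoc_of_le h0] at hx
    have := hN n hn x hx.1.le (hx.2.trans h1)
    rw [Real.norm_eq_abs, abs_sub_comm]
    exact this
  rw [sub_zero, abs_of_nonneg h0, Real.norm_eq_abs] at hb
  have : δ / 2 * p ≤ δ / 2 * 1 := mul_le_mul_of_nonneg_left h1 (by linarith)
  linarith

end H31A
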