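import Pool.Agent.H31R4.Alp.G2
import Pool.Agent.H31R4.Alp.H4

/-! Task I1: the theorem. -/

set_option maxHeartbeats 400000

namespace H31A

open H974 H12S H973N Finset

theorem i1_cont : ContinuousOn (fun s => (1 - cc true s) + (1 - cc false s)) (Set.Icc 0 1) :=
  (continuousOn_const.sub (cc_cont true)).add (continuousOn_const.sub (cc_cont false))

/-- I1 -/
theorem kp_deriv {p : ℝ} (h0 : 0 < p) (h1 : p < 1) :
    HasDerivAt kp (-((1 - cc true p) + (1 - cc false p))) p := by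
  have hc := i1_cont
  have h := intervalIntegral.integral_hasDerivAt_right (a := 0) (b := p)
    (f := fun s => (1 - cc true s) + (1 - cc false s))
    ((hc.mono (by
      rw [Set.uIcc_of_le h0.le]
      exact Set.Icc_subset_Icc le_rfl h1.le)).intervalIntegrable)
    (ContinuousOn.stronglyMeasurableAtFilter isOpen_Ioo
      (hc.mono Set.Ioo_subset_Icc_self) p ⟨h0, h1⟩)
    (hc.continuousAt (Icc_mem_nhds h0 h1))
  have h2 := h.const_sub 1
  exact h2

theorem i1_kp_bound {p : ℝ} (h0 : 0 ≤ p) (h1 : p ≤ 1) : |kp p| ≤ 3 := by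
  have hb : ‖∫ s in (0:ℝ)..p, ((1 - cc true s) + (1 - cc false s))‖ ≤ 2 * |p - 0| := by
    apply intervalIntegral.norm_integral_le_of_norm_le_const
    intro x hx
    rw [Set.uIoc_of_le h0] at hx
    have a1 := cc_bounds (hx.1.le) (hx.2.trans h1) true (le_refl 1)
    have a2 := cc_bounds (hx.1.le) (hx.2.trans h1) false (le_refl 1)
    rw [Real.norm_eq_abs, abs_le]
    constructor <;> linarith [a1.2.2.1, a1.2.2.2, a2.2.2.1, a2.2.2.2]
  rw [sub_zero, abs_of_nonneg h0, Real.norm_eq_abs] at hb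
  unfold kp
  have := abs_le.1 hb
  rw [abs_le]
  constructor <;> linarith [this.1, this.2]

/-- I1 -/
theorem alpha_of (hN : Near) {ε : ℝ} (h0 : 0 < ε) : DifferentiableAt ℝ (deriv kp) (1/2) ∧
    ∃ C : ℝ, ∀ p : ℝ, 0 ≤ p → p ≤ 1 →
      |kp p - kp (1/2) - deriv kp (1/2) * (p - 1/2) - deriv (deriv kp) (1/2) / 2 * (p - 1/2)^2| ≤
        C * |p - 1/2|^((8:ℝ)/3 - ε) := by
  set e : ℝ := min (ε / 10) (1 / 40) with he
  have he0 : 0 < e := lt_min (by linarith) (by norm_num)
  have he1 : e ≤ 1 / 40 := min_le_right _ _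
  have he2 : 10 * e ≤ ε := by
    have := min_le_left (ε / 10) (1 / 40 : ℝ)
    linarith
  obtain ⟨lt, C1, h1, hC1, hh1, H1⟩ := cc_expand hN true he0 he1
  obtain ⟨lf, C2, h2, hC2, hh2, H2⟩ := cc_expand hN false he0 he1
  set g : ℝ → ℝ := fun s => (1 - cc true s) + (1 - cc false s) with hg
  set A : ℝ := lt + lf with hA
  set h : ℝ := min (min h1 h2) (1 / 4) with hh
  have hh0 : 0 < h := lt_min (lt_min hh1 hh2) (by norm_num)
  have hle1 : h ≤ h1 := (min_le_left _ _).trans (min_le_left _ _)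
  have hle2 : h ≤ h2 := (min_le_left _ _).trans (min_le_right _ _)
  have hle3 : h ≤ 1 / 4 := min_le_right _ _
  set θ : ℝ := 5 / 3 - 10 * e with hθ
  have hθ1 : 1 < θ := by rw [hθ]; linarith
  have hC0 : 0 < C1 + C2 := by linarith
  have key : ∀ x : ℝ, |x - 1 / 2| ≤ h →
      |(-g x) - (-g (1 / 2)) - A * (x - 1 / 2)| ≤ (C1 + C2) * |x - 1 / 2| ^ θ := by
    intro x hx
    have b1 := H1 (x - 1 / 2) (hx.trans hle1)
    have b2 := H2 (x - 1 / 2) (hx.trans hle2)
    have e1 : (1 / 2 + (x - 1 / 2) : ℝ) = x := by ring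
    rw [e1] at b1 b2
    have e2 : (-g x) - (-g (1 / 2)) - A * (x - 1 / 2) =
        (cc true x - cc true (1 / 2) - lt * (x - 1 / 2)) +
        (cc false x - cc false (1 / 2) - lf * (x - 1 / 2)) := by
      simp only [hg, hA]; ring
    rw [e2, add_mul]
    exact (abs_add_le _ _).trans (add_le_add b1 b2)
  have hd : ∀ x : ℝ, 0 < x → x < 1 → HasDerivAt kp (-g x) x := fun x a b => kp_deriv a b
  have hev : deriv kp =ᶠ[nhds (1 / 2)] fun x => -g x := by
    filter_upwards [Ioo_mem_nhds (show (0:ℝ) < 1 / 2 by norm_num)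
      (show (1 / 2 : ℝ) < 1 by norm_num)] with x hx
    exact (hd x hx.1 hx.2).deriv
  have hder : HasDerivAt (fun x => -g x) A (1 / 2) := by
    rw [hasDerivAt_iff_isLittleO]
    have hO : (fun x : ℝ => (fun x => -g x) x - (fun x => -g x) (1 / 2) - (x - 1 / 2) • A)
        =O[nhds (1 / 2)] fun x => |x - 1 / 2| ^ θ := by
      apply Asymptotics.IsBigO.of_bound (C1 + C2)
      filter_upwards [Metric.closedBall_mem_nhds (1 / 2 : ℝ) hh0] with x hx
      rw [Metric.mem_closedBall, Real.dist_eq] at hx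
      rw [Real.norm_eq_abs, Real.norm_eq_abs, abs_of_nonneg (Real.rpow_nonneg (abs_nonneg _) _),
        smul_eq_mul, mul_comm (x - 1 / 2) A]
      exact key x hx
    refine hO.trans_isLittleO ?_
    rw [Asymptotics.isLittleO_iff]
    intro c hc
    have hpos : 0 < θ - 1 := by linarith
    have ht : Filter.Tendsto (fun x : ℝ => |x - 1 / 2| ^ (θ - 1)) (nhds (1 / 2)) (nhds 0) := by
      have : ContinuousAt (fun x : ℝ => |x - 1 / 2| ^ (θ - 1)) (1 / 2) :=
        ((continuousAt_id.sub continuousAt_const).abs).rpow_const (Or.inr hpos.le)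
      have h3 := this.tendsto
      simp only [sub_self, abs_zero, Real.zero_rpow hpos.ne'] at h3
      exact h3
    filter_upwards [ht.eventually (gt_mem_nhds hc)] with x hx
    rw [Real.norm_eq_abs, Real.norm_eq_abs, abs_of_nonneg (Real.rpow_nonneg (abs_nonneg _) _)]
    rcases (abs_nonneg (x - 1 / 2)).eq_or_lt with h4 | h4
    · rw [← h4, Real.zero_rpow (by linarith)]; simp
    · have : |x - 1 / 2| ^ θ = |x - 1 / 2| ^ (θ - 1) * |x - 1 / 2| := by
        rw [← Real.rpow_add_one h4.ne']; congr 1; ring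
      rw [this]
      exact mul_le_mul_of_nonneg_right hx.le h4.le
  have hder2 : HasDerivAt (deriv kp) A (1 / 2) := hder.congr_of_eventuallyEq hev
  refine ⟨hder2.differentiableAt, ?_⟩
  have hd1 : deriv kp (1 / 2) = -g (1 / 2) := (hd _ (by norm_num) (by norm_num)).deriv
  have hd2 : deriv (deriv kp) (1 / 2) = A := hder2.deriv
  rw [hd1, hd2]
  set R : ℝ → ℝ := fun p => kp p - kp (1 / 2) - -g (1 / 2) * (p - 1 / 2) - A / 2 * (p - 1 / 2) ^ 2
    with hR
  have hRd : ∀ x : ℝ, 0 < x → x < 1 → HasDerivAt R ((-g x) - (-g (1 / 2)) - A * (x - 1 / 2)) x := by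
    intro x a b
    have d1 := (hd x a b).sub_const (kp (1 / 2))
    have d2 : HasDerivAt (fun p : ℝ => -g (1 / 2) * (p - 1 / 2)) (-g (1 / 2) * 1) x :=
      ((hasDerivAt_id x).sub_const _).const_mul _
    have d3 : HasDerivAt (fun p : ℝ => A / 2 * (p - 1 / 2) ^ 2)
        (A / 2 * (2 * (x - 1 / 2) ^ (2 - 1) * 1)) x := by
      have := (((hasDerivAt_id x).sub_const (1 / 2 : ℝ)).pow 2).const_mul (A / 2)
      simpa using this
    have d4 := (d1.sub d2).sub d3
    have e5 : (-g x) - (-g (1 / 2)) - A * (x - 1 / 2) =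
        -g x - -g (1 / 2) * 1 - A / 2 * (2 * (x - 1 / 2) ^ (2 - 1) * 1) := by
      norm_num
      ring
    rw [e5]
    exact d4
  have hRh : R (1 / 2) = 0 := by simp [hR]
  have hsmall : ∀ p : ℝ, |p - 1 / 2| ≤ h → |R p| ≤ (C1 + C2) * |p - 1 / 2| ^ (θ + 1) := by
    intro p hp
    set r : ℝ := |p - 1 / 2| with hr
    have hr0 : 0 ≤ r := abs_nonneg _
    have hb := Convex.norm_image_sub_le_of_norm_hasDerivWithin_le
      (f := R) (f' := fun x => (-g x) - (-g (1 / 2)) - A * (x - 1 / 2))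
      (C := (C1 + C2) * r ^ θ) (s := Set.Icc (1 / 2 - r) (1 / 2 + r)) (x := 1 / 2) (y := p)
      (fun x hx => (hRd x (by linarith [hx.1]) (by linarith [hx.2])).hasDerivWithinAt)
      (fun x hx => by
        have hx' : |x - 1 / 2| ≤ r := by
          rw [abs_le]; constructor <;> linarith [hx.1, hx.2]
        refine (key x (hx'.trans hp)).trans ?_
        exact mul_le_mul_of_nonneg_left
          (Real.rpow_le_rpow (abs_nonneg _) hx' (by linarith)) hC0.le)
      (convex_Icc _ _) ⟨by linarith, by linarith⟩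
      (by
        have := abs_le.1 (le_refl r)
        have h5 := abs_le.1 (le_of_eq hr.symm)
        exact ⟨by linarith [h5.1], by linarith [h5.2]⟩)
    rw [hRh, sub_zero, Real.norm_eq_abs, Real.norm_eq_abs, ← hr] at hb
    refine hb.trans (le_of_eq ?_)
    rcases hr0.eq_or_lt with h4 | h4
    · rw [← h4, Real.zero_rpow (by linarith), Real.zero_rpow (by linarith)]; ring
    · rw [Real.rpow_add_one h4.ne']; ring
  set K : ℝ := 6 + |g (1 / 2)| + |A| with hK
  have hK0 : 0 < K := by positivity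
  set m : ℝ := min (h ^ ((8:ℝ) / 3 - ε)) 1 with hm
  have hm0 : 0 < m := lt_min (Real.rpow_pos_of_pos hh0 _) one_pos
  refine ⟨(C1 + C2) + K / m, ?_⟩
  intro p hp0 hp1
  change |R p| ≤ _
  have hrn : 0 ≤ |p - 1 / 2| ^ ((8:ℝ) / 3 - ε) := Real.rpow_nonneg (abs_nonneg _) _
  have hr1 : |p - 1 / 2| ≤ 1 / 2 := by
    rw [abs_le]; constructor <;> linarith
  rw [add_mul]
  rcases le_or_gt |p - 1 / 2| h with hc | hc
  · have h6 : |R p| ≤ (C1 + C2) * |p - 1 / 2| ^ ((8:ℝ) / 3 - ε) := by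
      rcases (abs_nonneg (p - 1 / 2)).eq_or_lt with h4 | h4
      · have : p = 1 / 2 := by
          have := abs_eq_zero.1 h4.symm
          linarith
        rw [this, hRh, abs_zero]
        exact mul_nonneg hC0.le (Real.rpow_nonneg (abs_nonneg _) _)
      · refine (hsmall p hc).trans (mul_le_mul_of_nonneg_left ?_ hC0.le)
        exact Real.rpow_le_rpow_of_exponent_ge h4 (by linarith) (by rw [hθ]; linarith)
    have h7 : 0 ≤ K / m * |p - 1 / 2| ^ ((8:ℝ) / 3 - ε) :=
      mul_nonneg (div_nonneg hK0.le hm0.le) hrn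
    linarith
  · have h8 : m ≤ |p - 1 / 2| ^ ((8:ℝ) / 3 - ε) := by
      rcases le_or_gt 0 ((8:ℝ) / 3 - ε) with h9 | h9
      · exact (min_le_left _ _).trans (Real.rpow_le_rpow hh0.le hc.le h9)
      · exact (min_le_right _ _).trans
          (Real.one_le_rpow_of_pos_of_le_one_of_nonpos (hh0.trans hc) (by linarith) h9.le)
    have h9 : |R p| ≤ K := by
      have k1 := i1_kp_bound hp0 hp1
      have k2 := i1_kp_bound (show (0:ℝ) ≤ 1 / 2 by norm_num) (by norm_num)
      have k3 : |-g (1 / 2) * (p - 1 / 2)| ≤ |g (1 / 2)| := by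
        rw [abs_mul, abs_neg]
        nlinarith [abs_nonneg (g (1 / 2)), abs_nonneg (p - 1 / 2)]
      have k4 : |A / 2 * (p - 1 / 2) ^ 2| ≤ |A| := by
        rw [abs_mul, abs_div, abs_pow, abs_two]
        have : |p - 1 / 2| ^ 2 ≤ 1 := pow_le_one₀ (abs_nonneg _) (by linarith)
        nlinarith [abs_nonneg A, sq_nonneg |p - 1 / 2|]
      have k5 : |R p| ≤ |kp p| + |kp (1 / 2)| + |-g (1 / 2) * (p - 1 / 2)| +
          |A / 2 * (p - 1 / 2) ^ 2| := by
        simp only [hR]
        refine (abs_sub _ _).trans (add_le_add ?_ le_rfl)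
        refine (abs_sub _ _).trans (add_le_add ?_ le_rfl)
        exact abs_sub _ _
      rw [hK]; linarith
    have h10 : K ≤ K / m * |p - 1 / 2| ^ ((8:ℝ) / 3 - ε) := by
      rw [div_mul_eq_mul_div, le_div_iff₀ hm0]
      exact mul_le_mul_of_nonneg_left h8 hK0.le
    have h11 : 0 ≤ (C1 + C2) * |p - 1 / 2| ^ ((8:ℝ) / 3 - ε) := mul_nonneg hC0.le hrn
    linarith

end H31A
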