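import Pool.Agent.H31R4.Alp.Defs
import Pool.Agent.H973R3.NC.AsmD
import Pool.Agent.H988R6.Up

/-! `Near` holds: stability of the four-arm probabilities and the exponent `5/4`. -/

namespace H31A

theorem near_holds : Near := by
  obtain ⟨c, C, hc, hC, h⟩ := Pool.Agent.H988R6.a4_sharp
  apply H973N.near_of
  intro ε hε
  refine ⟨C, fun k hk => (h k hk).2.trans ?_⟩
  have hk1 : (1:ℝ) ≤ k := by exact_mod_cast hk
  apply mul_le_mul_of_nonneg_left _ hC.le
  apply Real.rpow_le_rpow_of_exponent_le hk1
  linarith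

end H31A
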