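import Pool.Agent.H31R4.Alp.A1
import Pool.Agent.H31R4.Alp.A2
import Pool.Agent.H31R4.Alp.A3
import Pool.Agent.H31R4.Alp.B1
import Pool.Agent.H31R4.Alp.B2
import Pool.Agent.H31R4.Alp.B3
import Pool.Agent.H31R4.Alp.B4
import Pool.Agent.H31R4.Alp.C1
import Pool.Agent.H31R4.Alp.C3
import Pool.Agent.H31R4.Alp.T5
import Pool.Agent.H31R4.Alp.T7
import Pool.Agent.H31R4.Alp.T8
import Pool.Agent.H31R4.Alp.E1
import Pool.Agent.H31R4.Alp.F1
import Pool.Agent.H31R4.Alp.F2
import Pool.Agent.H31R4.Alp.F3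
import Pool.Agent.H31R4.Alp.G1
import Pool.Agent.H31R4.Alp.G2
import Pool.Agent.H31R4.Alp.H1
import Pool.Agent.H31R4.Alp.H2
import Pool.Agent.H31R4.Alp.H3
import Pool.Agent.H31R4.Alp.H4
import Pool.Agent.H31R4.Alp.H5
import Pool.Agent.H31R4.Alp.I1

/-! All tasks of table `h31a_tasks` (each module is a stub until its owner lands the proof). -/
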